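import Pool.Agent.Q219.HG.Sq

/-!
# Pairwise independence and the centres
-/

set_option linter.unusedSectionVars false

open CategoryTheory AlgebraicGeometry TensorProduct

universe u

namespace Pool.Agent.Q219.HD

open Module
open Pool.Agent.H914 Pool.Agent.H914.VarClass Pool.Agent.H914.VarClass.Obj
  Pool.Agent.H914.WeilCohomology
open Pool.Agent.Y133.Half
open Pool.Agent.Y121
open Pool.Agent.Q50.BL

section Alg

variable {K : Type} [Field K] [CharZero K] [Algebra K ℂ] {R A B : Type*} [Ring R] [Algebra K R]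
  [Ring A] [Algebra K A] [Ring B] [Algebra K B]
  {f : (ℂ →ₗ[K] K) →ₗ[K] R} {g : (ℂ →ₗ[K] K) →ₗ[K] A} {g' : (ℂ →ₗ[K] K) →ₗ[K] B}

/-- The space of the numbers `w` such that `l ↦ l w` factors through the abelian quotient. -/
def ccs (g : (ℂ →ₗ[K] K) →ₗ[K] A) : Submodule K ℂ where
  carrier := {w | CC g w}
  zero_mem' := CC_zero g
  add_mem' := by
    rintro w w' ⟨φ, h1, h2⟩ ⟨φ', h1', h2'⟩
    refine ⟨φ + φ', fun x hx y hy => ?_, fun l => ?_⟩
    · rw [LinearMap.add_apply, h1 x hx y hy, h1' x hx y hy, add_zero]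
    · rw [LinearMap.add_apply, h2, h2', map_add]
  smul_mem' := by
    rintro r w ⟨φ, h1, h2⟩
    refine ⟨r • φ, fun x hx y hy => ?_, fun l => ?_⟩
    · rw [LinearMap.smul_apply, h1 x hx y hy, smul_zero]
    · rw [LinearMap.smul_apply, h2, map_smul]

theorem mem_ccs {w : ℂ} : w ∈ ccs g ↔ CC g w := Iff.rfl

theorem CC.inl {w : ℂ} (h : CC g w) : CC (g.prod g') w := by
  obtain ⟨φ, h1, h2⟩ := h
  exact ⟨φ ∘ₗ LinearMap.fst K A B, fun x hx y hy => h1 _ (fst_gen hx) _ (fst_gen hy),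
    fun l => h2 l⟩

theorem CC.inr {w : ℂ} (h : CC g' w) : CC (g.prod g') w := by
  obtain ⟨φ, h1, h2⟩ := h
  exact ⟨φ ∘ₗ LinearMap.snd K A B, fun x hx y hy => h1 _ (snd_gen hx) _ (snd_gen hy),
    fun l => h2 l⟩

theorem ccs_prod (hG : Red (gen (g.prod g'))) (hA : Red (gen g)) (hB : Red (gen g'))
    (eA : Ev g) (eB : Ev g') : ccs (g.prod g') = ccs g ⊔ ccs g' := by
  refine le_antisymm (fun w hw => ?_) (sup_le (fun w hw => CC.inl hw) fun w hw => CC.inr hw)
  obtain ⟨w₁, w₂, rfl, h1, h2⟩ := cc_sum hG hA hB eA eB hw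
  exact Submodule.add_mem_sup h1 h2

theorem der_mem {G : Submodule K A} {x y : A} (hx : x ∈ G) (hy : y ∈ G) :
    x * y - y * x ∈ der G := Submodule.subset_span ⟨x, hx, y, hy, rfl⟩

theorem gen_le_sup : gen g ≤ LinearMap.range g ⊔ der (gen g) := by
  have h1 : gen g ≤ gen g ⊓ (LinearMap.range g ⊔ der (gen g)) := by
    refine gen_le ?_ fun l => ⟨gen_mem g l, Submodule.mem_sup_left ⟨l, rfl⟩⟩
    rintro x ⟨hx, -⟩ y ⟨hy, -⟩
    exact ⟨gen_isLie g _ hx _ hy, Submodule.mem_sup_right (der_mem hx hy)⟩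
  exact h1.trans inf_le_right

/-- The dimension of the space of relations. -/
theorem finrank_ccs [FiniteDimensional K A] (he : Ev g) :
    finrank K (ccs g) + finrank K (der (gen g)) = finrank K (gen g) := by
  have hle : der (gen g) ≤ gen g := der_le (gen_isLie g)
  let D : Submodule K A := der (gen g)
  -- the functionals on `A ⧸ D` restricted to the image of `gen g`
  let N : Submodule K (A ⧸ D) := (gen g).map D.mkQ
  have hN : finrank K N + finrank K D = finrank K (gen g) := by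
    have h1 := LinearMap.finrank_range_add_finrank_ker (D.mkQ ∘ₗ (gen g).subtype)
    have h2 : LinearMap.range (D.mkQ ∘ₗ (gen g).subtype) = N := by
      rw [LinearMap.range_comp, Submodule.range_subtype]
    have h3 : finrank K (LinearMap.ker (D.mkQ ∘ₗ (gen g).subtype)) = finrank K D := by
      rw [LinearMap.ker_comp, Submodule.ker_mkQ]
      exact LinearEquiv.finrank_eq (Submodule.comapSubtypeEquivOfLe hle)
    rw [h2, h3] at h1
    exact h1
  have hq : ∀ l, D.mkQ (g l) ∈ N := fun l => ⟨g l, gen_mem g l, rfl⟩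
  have hsur : ∀ x : N, ∃ l, D.mkQ (g l) = x.1 := by
    rintro ⟨_, x, hx, rfl⟩
    obtain ⟨_, ⟨l, rfl⟩, z, hz, rfl⟩ := Submodule.mem_sup.1 (gen_le_sup hx)
    refine ⟨l, ?_⟩
    change D.mkQ (g l) = D.mkQ (g l + z)
    rw [map_add]
    have h1 : D.mkQ z = 0 := by
      rw [Submodule.mkQ_apply]
      exact (Submodule.Quotient.mk_eq_zero D).2 hz
    rw [h1, add_zero]
  have hex : ∀ ψ : Module.Dual K N, ∃ w ∈ ccs g, ∀ l, ψ ⟨D.mkQ (g l), hq l⟩ = l w := by
    intro ψ
    obtain ⟨ψ', hψ'⟩ := exists_factor N.subtype ψ (fun x hx => by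
      have h1 : x = 0 := Subtype.ext hx
      rw [h1, map_zero])
    obtain ⟨w, hw⟩ := he (ψ' ∘ₗ D.mkQ)
    refine ⟨w, ⟨ψ' ∘ₗ D.mkQ, fun x hx y hy => ?_, hw⟩, fun l => ?_⟩
    · rw [LinearMap.comp_apply, Submodule.mkQ_apply,
        (Submodule.Quotient.mk_eq_zero D).2 (der_mem hx hy), map_zero]
    · rw [← hw]
      exact (hψ' ⟨D.mkQ (g l), hq l⟩).symm
  choose w hw1 hw2 using hex
  let Φ : Module.Dual K N →ₗ[K] ccs g :=
    { toFun := fun ψ => ⟨w ψ, hw1 ψ⟩
      map_add' := fun ψ ψ' => Subtype.ext (by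
        refine sep_eq (K := K) fun l => ?_
        change l (w (ψ + ψ')) = l (w ψ + w ψ')
        rw [map_add, ← hw2, ← hw2, ← hw2]
        rfl)
      map_smul' := fun r ψ => Subtype.ext (by
        refine sep_eq (K := K) fun l => ?_
        change l (w (r • ψ)) = l (r • w ψ)
        rw [map_smul, ← hw2, ← hw2]
        rfl) }
  have hinj : Function.Injective Φ := by
    rw [injective_iff_map_eq_zero]
    intro ψ hψ
    have h0 : w ψ = 0 := congrArg Subtype.val hψ
    apply LinearMap.ext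
    intro x
    obtain ⟨l, hl⟩ := hsur x
    have h1 : x = ⟨D.mkQ (g l), hq l⟩ := Subtype.ext hl.symm
    rw [h1, hw2, h0, map_zero]
    rfl
  have hsurj : Function.Surjective Φ := by
    rintro ⟨v, φ, h1, h2⟩
    obtain ⟨ψ, hψ⟩ := exists_factor (D.mkQ ∘ₗ (gen g).subtype) (φ ∘ₗ (gen g).subtype)
      (fun x hx => by
        have h3 : x.1 ∈ D := (Submodule.Quotient.mk_eq_zero D).1 hx
        exact kill_der h1 h3)
    refine ⟨ψ ∘ₗ N.subtype, Subtype.ext ?_⟩
    refine sep_eq (K := K) fun l => ?_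
    change l (w (ψ ∘ₗ N.subtype)) = l v
    rw [← hw2, ← h2]
    exact hψ ⟨g l, gen_mem g l⟩
  rw [← (LinearEquiv.ofBijective Φ ⟨hinj, hsurj⟩).finrank_eq, Subspace.dual_finrank_eq]
  exact hN

/-- The dimension of the centre. -/
theorem finrank_cen [FiniteDimensional K A] (hR : Red (gen g)) :
    finrank K (cen (gen g)) + finrank K (der (gen g)) = finrank K (gen g) := by
  have h1 : cen (gen g) ⊔ der (gen g) = gen g := by
    refine le_antisymm (sup_le cen_ideal.1 (der_le (gen_isLie g))) fun x hx => ?_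
    obtain ⟨y, hy, z, hz, rfl⟩ := hR.split (gen_isLie g) hx
    exact Submodule.add_mem _ (Submodule.mem_sup_right hy) (Submodule.mem_sup_left hz)
  have h2 : cen (gen g) ⊓ der (gen g) = ⊥ := by
    rw [Submodule.eq_bot_iff]
    rintro x ⟨hx, hx'⟩
    exact hR.der_center hx' hx
  have h3 := Submodule.finrank_sup_add_finrank_inf_eq (cen (gen g)) (der (gen g))
  rw [h1, h2, finrank_bot] at h3
  omega

theorem finrank_ccs_eq [FiniteDimensional K A] (hR : Red (gen g)) (he : Ev g) :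
    finrank K (ccs g) = finrank K (cen (gen g)) := by
  have h1 := finrank_ccs he
  have h2 := finrank_cen hR
  omega

theorem fd_ccs [FiniteDimensional K A] : FiniteDimensional K (ccs g) := by
  have h1 : ∀ w : ccs g, ∃ φ : Module.Dual K A, ∀ l, φ (g l) = l w.1 := by
    rintro ⟨w, φ, -, h2⟩
    exact ⟨φ, h2⟩
  let M : Submodule K (Module.Dual K A) :=
    { carrier := {φ | ∃ w ∈ ccs g, ∀ l, φ (g l) = l w}
      zero_mem' := ⟨0, Submodule.zero_mem _, fun l => by rw [LinearMap.zero_apply, map_zero]⟩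
      add_mem' := by
        rintro φ φ' ⟨w, hw, h1⟩ ⟨w', hw', h1'⟩
        exact ⟨w + w', Submodule.add_mem _ hw hw', fun l => by
          rw [LinearMap.add_apply, h1, h1', map_add]⟩
      smul_mem' := by
        rintro r φ ⟨w, hw, h1⟩
        exact ⟨r • w, Submodule.smul_mem _ _ hw, fun l => by
          rw [LinearMap.smul_apply, h1, map_smul]⟩ }
  have h2 : ∀ φ : M, ∃ w : ccs g, ∀ l, φ.1 (g l) = l w.1 := by
    rintro ⟨φ, w, hw, h⟩
    exact ⟨⟨w, hw⟩, h⟩
  choose w hw using h2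
  let Φ : M →ₗ[K] ccs g :=
    { toFun := w
      map_add' := fun φ φ' => Subtype.ext (by
        refine sep_eq (K := K) fun l => ?_
        change l (w (φ + φ')).1 = l ((w φ).1 + (w φ').1)
        rw [map_add, ← hw, ← hw, ← hw]
        rfl)
      map_smul' := fun r φ => Subtype.ext (by
        refine sep_eq (K := K) fun l => ?_
        change l (w (r • φ)).1 = l (r • (w φ).1)
        rw [map_smul, ← hw, ← hw]
        rfl) }
  have hsurj : Function.Surjective Φ := by
    intro v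
    obtain ⟨φ, hφ⟩ := h1 v
    refine ⟨⟨φ, v.1, v.2, hφ⟩, Subtype.ext ?_⟩
    refine sep_eq (K := K) fun l => ?_
    change l (w ⟨φ, v.1, v.2, hφ⟩).1 = l v.1
    rw [← hw]
    exact hφ l
  exact Module.Finite.of_surjective Φ hsurj

end Alg

variable {k : Type u} [Field k] {𝒱 : VarClass k} {ops : CycleOps 𝒱}

section AH

variable {T : AH.HodgeTheory ops} {X Y Z A B P Q : 𝒱.Obj} {c : ℂ ≃ₐ[T.W.K] ℂ}

theorem cc_to_prod (hA : Nontrivial (T.W.H A)) (hB : Nontrivial (T.W.H B)) {w : ℂ}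
    (h : CC ((hg T A).prod (hg T B)) w) : CC (hg T (A.prod B)) w := by
  obtain ⟨φ, h1, h2⟩ := h
  let G : Submodule T.W.K (EH T A × EH T B) := gen ((hg T A).prod (hg T B))
  let q : G →ₗ[T.W.K] EH T (A.prod B) := (two T.W A B) ∘ₗ G.subtype
  have hq : ∀ x : G, q x = 0 → x = 0 := fun x hx => Subtype.ext (two_inj hA hB x.1 x.2 hx)
  have hk : ∀ x : G, q x = 0 → (φ ∘ₗ G.subtype) x = 0 := fun x hx => by rw [hq x hx, map_zero]
  obtain ⟨ψ, hψ⟩ := exists_factor (K := T.W.K) (V := G) (W := EH T (A.prod B)) q _ hk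
  have hψ' : ∀ x ∈ gen ((hg T A).prod (hg T B)), ψ (two T.W A B x) = φ x :=
    fun x hx => hψ ⟨x, hx⟩
  refine ⟨ψ, fun x hx y hy => ?_, fun l => ?_⟩
  · rw [gen_two] at hx hy
    obtain ⟨x, hx, rfl⟩ := hx
    obtain ⟨y, hy, rfl⟩ := hy
    rw [← two_isLieMap T.W A B x y, hψ' _ (gen_isLie _ _ hx _ hy)]
    exact h1 x hx y hy
  · rw [hg_prod]
    exact (hψ' _ (gen_mem ((hg T A).prod (hg T B)) l)).trans (h2 l)

theorem cc_prod_iff (hA : Nontrivial (T.W.H A)) (hB : Nontrivial (T.W.H B)) :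
    ccs (hg T (A.prod B)) = ccs ((hg T A).prod (hg T B)) :=
  le_antisymm (fun _ h => cc_of_prod h) fun _ h => cc_to_prod hA hB h

theorem cc_times {X₀ : 𝒱.Obj} {l : List 𝒱.Obj} (h : ∀ X ∈ X₀ :: l, Nontrivial (T.W.H X)) {w : ℂ}
    {X : 𝒱.Obj} (hX : X ∈ X₀ :: l) (hw : CC (hg T X) w) : CC (hg T (times X₀ l)) w := by
  induction l generalizing X₀ X with
  | nil =>
    rw [List.mem_singleton.1 hX] at hw
    exact hw
  | cons X₁ l ih =>
    have h0 := h X₀ List.mem_cons_self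
    have h1 := h X₁ (List.mem_cons_of_mem _ List.mem_cons_self)
    have h2 : ∀ X ∈ X₀.prod X₁ :: l, Nontrivial (T.W.H X) := by
      intro Y hY
      rcases List.mem_cons.1 hY with rfl | hY
      · exact nontrivial_prod
      · exact h Y (List.mem_cons_of_mem _ (List.mem_cons_of_mem _ hY))
    rcases List.mem_cons.1 hX with rfl | hX
    · exact ih h2 List.mem_cons_self (cc_to_prod h0 h1 hw.inl)
    · rcases List.mem_cons.1 hX with rfl | hX
      · exact ih h2 List.mem_cons_self (cc_to_prod h0 h1 hw.inr)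
      · exact ih h2 (List.mem_cons_of_mem _ hX) hw

/-- A variety and a product, if their relations are independent. -/
theorem free_times_cc (hT : PolH T c) (hc : ∀ z, c z = (starRingEnd ℂ) z) {X₀ : 𝒱.Obj}
    {l : List 𝒱.Obj} (h : ∀ X ∈ X₀ :: l, Nontrivial (T.W.H X) ∧ Free2 (hg T Y) (hg T X))
    (hw : ∀ w, CC (hg T Y) w → CC (hg T (times X₀ l)) w → w = 0) :
    Free2 (hg T Y) (hg T (times X₀ l)) := by
  induction l generalizing X₀ with
  | nil => exact (h X₀ List.mem_cons_self).2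
  | cons X l ih =>
    obtain ⟨h1, h5⟩ := h X₀ List.mem_cons_self
    obtain ⟨h3, h6⟩ := h X (List.mem_cons_of_mem _ List.mem_cons_self)
    have h7 : ∀ Y ∈ X₀.prod X :: l, Nontrivial (T.W.H Y) := by
      intro Y' hY
      rcases List.mem_cons.1 hY with rfl | hY
      · exact nontrivial_prod
      · exact (h Y' (List.mem_cons_of_mem _ (List.mem_cons_of_mem _ hY))).1
    refine ih (fun Y' hY => ?_) hw
    rcases List.mem_cons.1 hY with rfl | hY
    · refine ⟨nontrivial_prod, free_of_prod (goursat (red_prod hT hc h1 h3) h5 h6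
        ((ev_hg _).prod (ev_hg _)) fun w hw1 hw2 => hw w hw1 ?_)⟩
      exact cc_times h7 List.mem_cons_self (cc_to_prod h1 h3 hw2)
    · exact h Y' (List.mem_cons_of_mem _ (List.mem_cons_of_mem _ hY))

/-- **Independence of products of arbitrary varieties.** -/
theorem free_main_cc (hT : PolH T c) (hc : ∀ z, c z = (starRingEnd ℂ) z) {Z₀ : 𝒱.Obj}
    {l₁ : List 𝒱.Obj} {X₀ : 𝒱.Obj} {l₂ : List 𝒱.Obj} (h1 : ∀ Z ∈ Z₀ :: l₁, Nontrivial (T.W.H Z))
    (h2 : ∀ X ∈ X₀ :: l₂, Nontrivial (T.W.H X))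
    (h : ∀ X ∈ X₀ :: l₂, ∀ Z ∈ Z₀ :: l₁, Free2 (hg T Z) (hg T X))
    (hw : ∀ w, CC (hg T (times Z₀ l₁)) w → CC (hg T (times X₀ l₂)) w → w = 0) :
    Free2 (hg T (times Z₀ l₁)) (hg T (times X₀ l₂)) := by
  refine free_times_cc hT hc (fun X hX => ⟨h2 X hX, ?_⟩) hw
  refine Free2.symm (free_times_cc hT hc (fun Z hZ => ⟨h1 Z hZ, (h X hX Z hZ).symm⟩) ?_)
  intro w hw1 hw2
  exact hw w hw2 (cc_times h2 hX hw1)

theorem finrank_cen_prod (hT : PolH T c) (hc : ∀ z, c z = (starRingEnd ℂ) z)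
    (hA : Nontrivial (T.W.H A)) (hB : Nontrivial (T.W.H B)) :
    finrank T.W.K (cen (gen (hg T (A.prod B)))) =
      finrank T.W.K ((ccs (hg T A) ⊔ ccs (hg T B) : Submodule T.W.K ℂ)) := by
  rw [← finrank_ccs_eq (red_hg hT hc _) (ev_hg _), cc_prod_iff hA hB,
    ccs_prod (red_prod hT hc hA hB) (red_hg hT hc _) (red_hg hT hc _) (ev_hg _) (ev_hg _)]

/-- Additivity of the dimension of the centre. -/
theorem cen_add_iff (hT : PolH T c) (hc : ∀ z, c z = (starRingEnd ℂ) z)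
    (hA : Nontrivial (T.W.H A)) (hB : Nontrivial (T.W.H B)) :
    finrank T.W.K (cen (gen (hg T (A.prod B)))) = finrank T.W.K (cen (gen (hg T A))) +
      finrank T.W.K (cen (gen (hg T B))) ↔ ∀ w, CC (hg T A) w → CC (hg T B) w → w = 0 := by
  have i1 : FiniteDimensional T.W.K (ccs (hg T A)) := fd_ccs
  have i2 : FiniteDimensional T.W.K (ccs (hg T B)) := fd_ccs
  rw [finrank_cen_prod hT hc hA hB, ← finrank_ccs_eq (red_hg hT hc A) (ev_hg A),
    ← finrank_ccs_eq (red_hg hT hc B) (ev_hg B),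
    ← Submodule.finrank_sup_add_finrank_inf_eq (ccs (hg T A)) (ccs (hg T B))]
  constructor
  · intro h w hw hw'
    have h1 : finrank T.W.K ((ccs (hg T A) ⊓ ccs (hg T B) : Submodule T.W.K ℂ)) = 0 := by omega
    have h2 : w ∈ ccs (hg T A) ⊓ ccs (hg T B) := ⟨hw, hw'⟩
    rw [Submodule.finrank_eq_zero.1 h1] at h2
    exact (Submodule.mem_bot _).1 h2
  · intro h
    have h1 : ccs (hg T A) ⊓ ccs (hg T B) = ⊥ := by
      rw [Submodule.eq_bot_iff]
      rintro w ⟨hw, hw'⟩
      exact h w hw hw'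
    rw [h1, finrank_bot, add_zero]

end AH

end Pool.Agent.Q219.HD
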