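import Pool.Agent.Q219.HG.Gour

/-!
# Hodge groups with a centre of dimension at most one are elementary
-/

set_option linter.unusedSectionVars false

open TensorProduct

namespace Pool.Agent.Q219.HD

open Module Polynomial
open Pool.Agent.Q50.BL

section

variable {K : Type} [Field K] [CharZero K] [Algebra K ℂ]

/-- If the commutators span a subspace of codimension at most one, the relations form a line. -/
theorem cc_line {A : Type*} [Ring A] [Algebra K A] [FiniteDimensional K A]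
    {h : (ℂ →ₗ[K] K) →ₗ[K] A} (hd : finrank K (gen h) ≤ finrank K (der (gen h)) + 1) {w w' : ℂ}
    (hw0 : w ≠ 0) (hw : CC h w) (hw' : CC h w') : ∃ r : K, w' = algebraMap K ℂ r * w := by
  obtain ⟨φ, h1, h2⟩ := hw
  obtain ⟨φ', h1', h2'⟩ := hw'
  let f : gen h →ₗ[K] K := φ ∘ₗ (gen h).subtype
  have hf : f ≠ 0 := by
    intro h3
    apply hw0
    refine sep (K := K) fun l => ?_
    rw [← h2]
    exact LinearMap.congr_fun h3 ⟨h l, gen_mem h l⟩
  have hker : finrank K (LinearMap.ker f) + 1 = finrank K (gen h) := by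
    have h3 := LinearMap.finrank_range_add_finrank_ker f
    have h4 : LinearMap.range f = ⊤ := LinearMap.range_eq_top.2 (LinearMap.surjective hf)
    rw [h4, finrank_top, finrank_self] at h3
    omega
  have hfin : finrank K ((der (gen h)).comap (gen h).subtype) = finrank K (der (gen h)) :=
    LinearEquiv.finrank_eq (Submodule.comapSubtypeEquivOfLe (der_le (gen_isLie h)))
  have hle : (der (gen h)).comap (gen h).subtype ≤ LinearMap.ker f := by
    intro x hx
    exact kill_der h1 hx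
  have heq : (der (gen h)).comap (gen h).subtype = LinearMap.ker f :=
    Submodule.eq_of_le_of_finrank_le hle (by omega)
  obtain ⟨ψ, hψ⟩ := exists_factor f (φ' ∘ₗ (gen h).subtype) (fun x hx => by
    have h3 : x ∈ (der (gen h)).comap (gen h).subtype := by
      rw [heq]
      exact hx
    exact kill_der h1' h3)
  refine ⟨ψ 1, ?_⟩
  refine sep_eq (K := K) fun l => ?_
  rw [lin_mul, ← h2, ← h2']
  have h3 := hψ ⟨h l, gen_mem h l⟩
  have h4 : f ⟨h l, gen_mem h l⟩ = φ (h l) • (1 : K) := by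
    rw [smul_eq_mul, mul_one]
    rfl
  rw [h4, map_smul, smul_eq_mul] at h3
  rw [mul_comm]
  exact h3.symm

variable {V : Type*} [AddCommGroup V] [Module K V] [FiniteDimensional K V]
  {c : ℂ ≃ₐ[K] ℂ} {l : ℕ} {h : Module.End ℂ (ℂ ⊗[K] V)} {Q : LinearMap.BilinForm K V}
  {e : ℤ → Module.End ℂ (ℂ ⊗[K] V)}

/-- The roots of unity of a field of real numbers. -/
theorem root_one (hc : ∀ z, c z = (starRingEnd ℂ) z) (r : K) (n : ℕ) (hn : n ≠ 0)
    (hr : r ^ n = 1) : r = 1 ∨ r = -1 := by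
  have h1 : (starRingEnd ℂ) (algebraMap K ℂ r) = algebraMap K ℂ r := by
    rw [← hc, AlgEquiv.commutes]
  obtain ⟨x, hx⟩ := Complex.conj_eq_iff_real.1 h1
  have h2 : x ^ n = 1 := by
    have h3 : ((x ^ n : ℝ) : ℂ) = ((1 : ℝ) : ℂ) := by
      rw [Complex.ofReal_pow, ← hx, ← map_pow, hr, map_one, Complex.ofReal_one]
    exact Complex.ofReal_injective h3
  have hinj : Function.Injective (algebraMap K ℂ) := (algebraMap K ℂ).injective
  have h4 : |x| = 1 := by
    have h5 : |x| ^ n = 1 := by rw [← abs_pow, h2, abs_one]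
    exact (pow_eq_one_iff_of_nonneg (abs_nonneg x) hn).1 h5
  rcases (abs_eq zero_le_one).1 h4 with h5 | h5
  · left
    apply hinj
    rw [hx, h5, Complex.ofReal_one, map_one]
  · right
    apply hinj
    rw [hx, h5, Complex.ofReal_neg, Complex.ofReal_one, map_neg, map_one]

theorem sq_of_codim (hc : ∀ z, c z = (starRingEnd ℂ) z) (hp : IsPol c h Q) (hd : Dec ℂ l h e)
    (hcod : finrank K (gen (cofL h)) ≤ finrank K (der (gen (cofL h))) + 1) {w : ℂ} (hw0 : w ≠ 0)
    (hw : CC (cofL h) w) : ∃ a : K, w * w = algebraMap K ℂ a := by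
  obtain ⟨b, hbc, hbt⟩ := exists_cop hc hp hd hw
  obtain ⟨L, hfd, hgal, hroot⟩ := exists_field b.charpoly_monic.ne_zero
  have hsm : ∀ (r : K) (x : L), ((r • x : L) : ℂ) = algebraMap K ℂ r * (x : ℂ) := fun r x => by
    rw [Algebra.smul_def]
    rfl
  have hwL : ∃ u : L, (u : ℂ) = w := by
    obtain ⟨u, P, hu, -⟩ := exists_component' hd.aeval_nod (commute_GC hbc op_mem) hroot
      (π := LinearMap.id) (fun _ _ => rfl)
    exact ⟨u, by rw [← hbt, hu]⟩
  obtain ⟨u, hu⟩ := hwL
  have hu0 : u ≠ 0 := by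
    rintro rfl
    exact hw0 hu.symm
  obtain ⟨a, ha⟩ := sq_of_line (K := K) (L := L) (root_one hc) hu0 (fun π hπ => by
    obtain ⟨u', P, hu', hP⟩ := exists_component' hd.aeval_nod (commute_GC hbc op_mem) hroot hπ
    have h1 : u' = u := by
      apply Subtype.ext
      rw [hu, ← hbt]
      exact hu'.symm
    rw [h1] at hP
    have h2 : CC (cofL h) ((π u : L) : ℂ) :=
      CC_of_poly (r := 1) hbc one_ne_zero (by rw [hP, map_one, one_mul])
    obtain ⟨r, hr⟩ := cc_line hcod hw0 hw h2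
    exact ⟨r, Subtype.ext (by rw [hr, hsm, hu])⟩)
  refine ⟨a, ?_⟩
  have h1 := congrArg Subtype.val ha
  rw [← hu]
  exact h1

/-- A multiple of a chosen square root. -/
theorem exists_root {z : ℂ} (hz : ∃ a : K, z * z = algebraMap K ℂ a) (r : K) :
    ∃ (S : Finset (SqR K)) (a : SqR K → K), algebraMap K ℂ r * z =
        ∑ z ∈ S, algebraMap K ℂ (a z) * z.1 := by
  obtain ⟨a, ha⟩ := hz
  by_cases hz0 : z = 0
  · exact ⟨∅, 0, by rw [hz0, mul_zero, Finset.sum_empty]⟩
  · obtain ⟨s, hs, hsz⟩ := rp_rel (K := K) z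
    have hs' : algebraMap K ℂ s ≠ 0 := (_root_.map_ne_zero _).2 hs
    have hrp : rp K z = algebraMap K ℂ s⁻¹ * z := by
      rw [map_inv₀]
      field_simp
      rw [mul_comm]
      exact hsz.symm
    refine ⟨{⟨rp K z, ?_, ⟨s⁻¹ * s⁻¹ * a, ?_⟩, rp_rp z⟩}, fun _ => r * s, ?_⟩
    · intro e
      rw [e, mul_zero] at hsz
      exact hz0 hsz
    · rw [hrp, map_mul, map_mul, ← ha]
      ring
    · rw [Finset.sum_singleton, map_mul, mul_assoc]
      congr 1

/-- **Hodge groups with a centre of dimension at most one are elementary.** -/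
theorem elem_of_codim (hc : ∀ z, c z = (starRingEnd ℂ) z) (hp : IsPol c h Q) (hd : Dec ℂ l h e)
    (hcod : finrank K (gen (cofL h)) ≤ finrank K (der (gen (cofL h))) + 1) : Elem (cofL h) := by
  intro w hw
  by_cases hw0 : w = 0
  · exact ⟨∅, 0, by rw [hw0, Finset.sum_empty]⟩
  · obtain ⟨S, a, h1⟩ := exists_root (sq_of_codim hc hp hd hcod hw0 hw) (1 : K)
    refine ⟨S, a, ?_⟩
    rw [← h1, map_one, one_mul]

end

end Pool.Agent.Q219.HD
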