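import Pool.Agent.Y121.AHS.Defs
import Pool.Agent.Y133.Half.DDefs

/-!
# Polarisable Hodge theories, the Lie algebra of the Hodge group, independence: definitions

The notions of linear algebra are first defined for an algebra `A` over a field `K` of rational
numbers with a notion of elements of type `(p, q)` in `ℂ ⊗ A`; the case of interest is the
cohomology of a variety.
-/

open CategoryTheory AlgebraicGeometry

universe u

namespace Pool.Agent.Q219.HG.St

open Pool.Agent.H914 Pool.Agent.H914.VarClass Pool.Agent.H914.VarClass.Obj
  Pool.Agent.H914.WeilCohomology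
open Pool.Agent.Y121.AHS

section Generic

variable {K A B C : Type} [Field K] [Ring A] [Algebra K A] [Ring B] [Algebra K B] [Ring C]
  [Algebra K C]

/-- The dimension of the subspace `G`. -/
noncomputable def dimSub (G : Submodule K A) : ℕ := Module.finrank K G

variable (K A) in
/-- The dimension of `A`. -/
noncomputable def dimAll : ℕ := Module.finrank K A

variable (K) in
/-- The element `x` is a linear combination of elements of `S`. -/
def InSpan (S : Set A) (x : A) : Prop := x ∈ Submodule.span K S

/-- The product of the images of `a` and `b`. -/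
def mulHom (f : A →ₐ[K] C) (g : B →ₐ[K] C) (a : A) (b : B) : C := f a * g b

variable [Algebra K ℂ]

variable (K A) in
/-- For integers `p` and `q`, a property of the elements of `A` with complex coefficients. -/
abbrev TypesOn := ℤ → ℤ → Ext K ℂ A → Prop

/-- The types are in the range from `0` to `d`. -/
def InRange (t : TypesOn K A) (d : ℕ) : Prop :=
  ∀ (p q : ℤ) (x : Ext K ℂ A), t p q x → x ≠ 0 → 0 ≤ p ∧ p ≤ d ∧ 0 ≤ q ∧ q ≤ d

/-- The element `y` is the complex conjugate of `x`. -/
def IsConj (x y : Ext K ℂ A) : Prop :=
  ∃ (m : ℕ) (l : Fin m → ℂ) (c : Fin m → A), x = ∑ i, extSm K ℂ (l i) (extEm K ℂ (c i)) ∧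
    y = ∑ i, extSm K ℂ (starRingEnd ℂ (l i)) (extEm K ℂ (c i))

/-- Complex conjugation exchanges the types `(p, q)` and `(q, p)`. -/
def IsReal (t : TypesOn K A) : Prop :=
  ∀ (p q : ℤ) (x y : Ext K ℂ A), IsConj x y → t p q x → t q p y

/-- The bilinear form `(x, y) ↦ tr (φ x · y)`. -/
noncomputable def form (tr : A →ₗ[K] K) (φ : A →ₗ[K] A) (x y : Ext K ℂ A) : ℂ :=
  extForm K ℂ tr (extMul K ℂ (extMap K ℂ φ x) y)

/-- The bilinear form `(x, y) ↦ tr (φ x · y)` is a polarisation: it is zero on elements of types
`(p, q)` and `(r, s)` unless `(r, s) = (q, p)`, and for all nonzero `x` of type `(p, q)` with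
complex conjugate `y` its value at `(x, y)`, multiplied by `i ^ (p - q)`, is a positive real
number. -/
def IsPolarisation (t : TypesOn K A) (tr : A →ₗ[K] K) (φ : A →ₗ[K] A) : Prop :=
  (∀ (p q r s : ℤ) (x y : Ext K ℂ A), t p q x → t r s y → (r, s) ≠ (q, p) →
    form tr φ x y = 0) ∧
  ∀ (p q : ℤ) (x y : Ext K ℂ A), t p q x → IsConj x y → x ≠ 0 →
    ∃ a : ℝ, 0 < a ∧ Complex.I ^ (p - q) * form tr φ x y = (a : ℂ)

/-- The linear map `f` respects the types. -/
def RespTypes (t : TypesOn K A) (t' : TypesOn K B) (f : A →ₗ[K] B) : Prop :=
  ∀ (p q : ℤ) (x : Ext K ℂ A), t p q x → t' p q (extMap K ℂ f x)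

/-- There is a linear map which respects the types and is not zero on the subspace `G`. -/
def MapsOn (t : TypesOn K A) (t' : TypesOn K B) (G : Submodule K A) : Prop :=
  ∃ f : A →ₗ[K] B, RespTypes t t' f ∧ ∃ x ∈ G, f x ≠ 0

/-- The operator which is `p - q` on the elements of type `(p, q)` is a linear combination, with
complex coefficients, of elements of `L`. -/
def HasOperator (t : TypesOn K A) (L : Submodule K (Module.End K A)) : Prop :=
  ∃ (m : ℕ) (z : Fin m → ℂ) (g : Fin m → Module.End K A), (∀ i, g i ∈ L) ∧
    ∀ (p q : ℤ) (x : Ext K ℂ A), t p q x →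
      ∑ i, extSm K ℂ (z i) (extMap K ℂ (g i) x) = extSm K ℂ ((p - q : ℤ) : ℂ) x

/-- The smallest space of endomorphisms which is closed under commutators and contains, after
extension of the coefficients to the complex numbers, the operator which is `p - q` on the elements
of type `(p, q)`. -/
noncomputable def lieOf (t : TypesOn K A) : Submodule K (Module.End K A) :=
  sInf {L | (∀ f ∈ L, ∀ g ∈ L, f * g - g * f ∈ L) ∧ HasOperator t L}

/-- The dimension of this Lie algebra. -/
noncomputable def lieDim (t : TypesOn K A) : ℕ := Module.finrank K (lieOf t)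

/-- The dimension of the centre of this Lie algebra. -/
noncomputable def centreDim (t : TypesOn K A) : ℕ :=
  Module.finrank K (Submodule.span K {x | x ∈ lieOf t ∧ ∀ y ∈ lieOf t, x * y = y * x})

end Generic

variable {k : Type u} [Field k] {𝒱 : VarClass k} {ops : CycleOps 𝒱}

/-- The classes of type `(p, q)` in the cohomology of `X` with complex coefficients. -/
def types (T : HodgeTheory ops) (X : 𝒱.Obj) : TypesOn T.W.K (T.W.H X) := fun p q x =>
  IsType (X := X) T.pq p q x

/-- A polarisable Hodge theory: a Hodge theory such that complex conjugation exchanges the types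
`(p, q)` and `(q, p)`, which are in the usual range, and such that the cohomology of every variety
has a polarisation. -/
structure PolHodgeTheory (ops : CycleOps 𝒱) extends HodgeTheory ops where
  range : ∀ X, InRange (types toHodgeTheory X) X.dim
  conj : ∀ X, IsReal (types toHodgeTheory X)
  pol : ∀ X, ∃ φ, IsPolarisation (types toHodgeTheory X) (toHodgeTheory.W.tr X) φ

/-- The product of `X` and the members of the list `l`. -/
noncomputable def times (X : 𝒱.Obj) (l : List 𝒱.Obj) : 𝒱.Obj := l.foldl Obj.prod X

/-- The product of `n` copies of `X`, for `n ≥ 1`. -/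
noncomputable def power (X : 𝒱.Obj) (n : ℕ) : 𝒱.Obj := Pool.Agent.Y133.Half.pw X (n - 1)

/-- The dimension of the Lie algebra of the Hodge group of `X`, that is of the smallest Lie algebra
of rational endomorphisms of the cohomology which contains the operator `p - q` after extension of
the coefficients. -/
noncomputable def hodgeLieDim (T : PolHodgeTheory ops) (X : 𝒱.Obj) : ℕ :=
  lieDim (types T.toHodgeTheory X)

/-- The dimension of the centre of the Lie algebra of the Hodge group of `X`. It is zero if and only
if the Hodge group is semisimple. -/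
noncomputable def hodgeCentreDim (T : PolHodgeTheory ops) (X : 𝒱.Obj) : ℕ :=
  centreDim (types T.toHodgeTheory X)

/-- The variety `X` is elementary: its cohomology is not zero, and the centre of the Lie algebra of
its Hodge group has dimension at most one. -/
def IsElementary (T : PolHodgeTheory ops) (X : 𝒱.Obj) : Prop :=
  Nontrivial (T.W.H X) ∧ hodgeCentreDim T X ≤ 1

/-- The varieties `X` and `Y` are independent: their cohomology is not zero, and the Lie algebra of
the Hodge group of `X × Y` is the direct sum of those of `X` and `Y`. -/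
def Independent (T : PolHodgeTheory ops) (X Y : 𝒱.Obj) : Prop :=
  Nontrivial (T.W.H X) ∧ Nontrivial (T.W.H Y) ∧
    hodgeLieDim T (X.prod Y) = hodgeLieDim T X + hodgeLieDim T Y

/-- The centres are independent: the centre of the Lie algebra of the Hodge group of `P × Q` is the
direct sum of those for `P` and `Q`. -/
def CentresIndependent (T : PolHodgeTheory ops) (P Q : 𝒱.Obj) : Prop :=
  hodgeCentreDim T (P.prod Q) = hodgeCentreDim T P + hodgeCentreDim T Q

/-- The overlap of `X` and `Y`: the sum of the dimensions of the Lie algebras of the Hodge groups of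
`X` and `Y`, minus the dimension of that of `X × Y`. It is zero if `X` and `Y` are independent. -/
noncomputable def overlap (T : PolHodgeTheory ops) (X Y : 𝒱.Obj) : ℕ :=
  hodgeLieDim T X + hodgeLieDim T Y - hodgeLieDim T (X.prod Y)

/-- The sum of the overlaps of `Z` and the members of `S`. -/
noncomputable def sumOverlap (T : PolHodgeTheory ops) (Z : 𝒱.Obj) (S : List 𝒱.Obj) : ℕ :=
  (S.map (overlap T Z)).sum

/-- The sum of the dimensions of the Lie algebras of the Hodge groups of the members of `S`. -/
noncomputable def sumDim (T : PolHodgeTheory ops) (S : List 𝒱.Obj) : ℕ :=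
  (S.map (hodgeLieDim T)).sum

/-- The curve `E` is an elliptic curve: a curve whose first Betti number is two. -/
def IsEllipticCurve (T : PolHodgeTheory ops) (E : 𝒱.Obj) : Prop :=
  E.dim = 1 ∧ dimSub (T.W.gr E 1) = 2

/-- The elliptic curves `E` and `E'` are isogenous: there is a morphism of Hodge structures
`H(E) → H(E')` which is not zero on the first cohomology. -/
def Isogenous (T : PolHodgeTheory ops) (E E' : 𝒱.Obj) : Prop :=
  MapsOn (types T.toHodgeTheory E) (types T.toHodgeTheory E') (T.W.gr E 1)

/-- The external products of a Hodge class on `P` and a Hodge class on `Q`. -/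
def ExternalProducts (T : PolHodgeTheory ops) (P Q : 𝒱.Obj) : Set (T.W.H (P.prod Q)) :=
  {x | ∃ i j a b, IsHodge T.toHodgeTheory P i a ∧ IsHodge T.toHodgeTheory Q j b ∧
    x = mulHom (T.W.map (fst P Q)) (T.W.map (snd P Q)) a b}

/-- The classes of algebraic cycles of codimension `j` on `X`. -/
def CycleClasses (T : PolHodgeTheory ops) (X : 𝒱.Obj) (j : ℕ) : Set (T.W.H X) :=
  {x | ∃ z, X.IsCyc j z ∧ T.W.cl X z = x}

/-- The Hodge conjecture for the classes of degree `2 j` on `X`: all Hodge classes of degree `2 j`
are linear combinations of classes of algebraic cycles. -/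
def HodgeConjectureIn (T : PolHodgeTheory ops) (X : 𝒱.Obj) (j : ℕ) : Prop :=
  ∀ c, IsHodge T.toHodgeTheory X j c → InSpan T.W.K (CycleClasses T X j) c

/-- The Hodge conjecture in all degrees holds for `X`. -/
def HC (T : PolHodgeTheory ops) (X : 𝒱.Obj) : Prop := ∀ j, HodgeConjectureIn T X j

/-- The Lefschetz theorem on classes of type `(1, 1)`: Hodge classes of degree two are linear
combinations of classes of divisors. -/
def LefschetzOneOne (T : PolHodgeTheory ops) : Prop := ∀ X : 𝒱.Obj, HodgeConjectureIn T X 1

/-- All Hodge classes on `P × Q` are linear combinations of external products of Hodge classes. -/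
def Decoupled (T : PolHodgeTheory ops) (P Q : 𝒱.Obj) : Prop :=
  ∀ j c, IsHodge T.toHodgeTheory (P.prod Q) j c → InSpan T.W.K (ExternalProducts T P Q) c

/-- The product `P × Q` splits: `P` and `Q` are independent, all Hodge classes on `P × Q` are linear
combinations of external products of Hodge classes, and the Hodge conjecture holds for `P × Q` if
and only if it holds for `P` and for `Q`. -/
def Splits (T : PolHodgeTheory ops) (P Q : 𝒱.Obj) : Prop :=
  Independent T P Q ∧ Decoupled T P Q ∧ (HC T (P.prod Q) ↔ HC T P ∧ HC T Q)

/-- All members of `l` are elementary. -/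
def AllElementary (T : PolHodgeTheory ops) (l : List 𝒱.Obj) : Prop := ∀ X ∈ l, IsElementary T X

/-- All members of `l` are elliptic curves. -/
def AllElliptic (T : PolHodgeTheory ops) (l : List 𝒱.Obj) : Prop := ∀ E ∈ l, IsEllipticCurve T E

/-- All members of `l` are independent of all members of `l'`. -/
def AllIndependent (T : PolHodgeTheory ops) (l' l : List 𝒱.Obj) : Prop :=
  ∀ X ∈ l, ∀ Y ∈ l', Independent T Y X

/-- The members of `l` are pairwise independent. -/
def PairwiseIndependent (T : PolHodgeTheory ops) (l : List 𝒱.Obj) : Prop :=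
  l.Pairwise (Independent T)

/-- The powers `X ^ n` for the members `(X, n)` of `l`. -/
noncomputable def powers (l : List (𝒱.Obj × ℕ)) : List 𝒱.Obj := l.map fun p => power p.1 p.2

/-- The Hodge conjecture holds for the products of all powers of `Z` and all elliptic curves. -/
def HCForAll (T : PolHodgeTheory ops) (Z : 𝒱.Obj) : Prop :=
  ∀ (n : ℕ) (l : List 𝒱.Obj), AllElliptic T l → HC T (times (power Z n) l)

/-- The total Betti number of `X`, the dimension of the cohomology. -/
noncomputable def totalBetti (T : PolHodgeTheory ops) (X : 𝒱.Obj) : ℕ := dimAll T.W.K (T.W.H X)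

/-- The power `W ^ N` with `N = (2 b) ^ (3 b ^ 2)`, where `b` is the total Betti number of `W`. -/
noncomputable def largePower (T : PolHodgeTheory ops) (W : 𝒱.Obj) : 𝒱.Obj :=
  power W ((2 * totalBetti T W) ^ (3 * totalBetti T W ^ 2))

end Pool.Agent.Q219.HG.St
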