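import Pool.Agent.Q219.HG.Cen
import Pool.Agent.Q219.HG.Defs
import Pool.Agent.Q219.HD.HFinal

/-!
# The notions of the statement and the notions of the proof
-/

open CategoryTheory AlgebraicGeometry TensorProduct

universe u

namespace Pool.Agent.Q219.HD

open Module
open Pool.Agent.H914 Pool.Agent.H914.VarClass Pool.Agent.H914.VarClass.Obj
  Pool.Agent.H914.WeilCohomology
open Pool.Agent.Y133.Half
open Pool.Agent.Y121
open Pool.Agent.Q50.BL

variable {k : Type u} [Field k] {𝒱 : VarClass k} {ops : CycleOps 𝒱}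

theorem span_le_prods {T : AH.HodgeTheory ops} {P Q : 𝒱.Obj} {S : Set (T.W.H (P.prod Q))}
    (h : ∀ x ∈ S, ∃ i j a b, AH.IsHodge T P i a ∧ AH.IsHodge T Q j b ∧
      x = T.W.map (fst P Q) a * T.W.map (snd P Q) b) :
    Submodule.span T.W.K S ≤ prods T P Q := by
  refine Submodule.span_le.2 fun x hx => ?_
  obtain ⟨i, j, a, b, ha, hb, rfl⟩ := h x hx
  exact Submodule.subset_span ⟨a, ClassPred.sp_of (Q := AH.hodgePred T) (j := i) ha, b,
    ClassPred.sp_of (Q := AH.hodgePred T) (j := j) hb, rfl⟩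

variable {T : HG.St.PolHodgeTheory ops} {X Y Z E E' P Q : 𝒱.Obj}

/-- The polarised Hodge theory in the old sense. -/
noncomputable def oT (T : HG.St.PolHodgeTheory ops) : Pool.Agent.Q60.HDS.PolHodgeTheory ops where
  toHodgeTheory := T.toHodgeTheory
  range := T.range
  conj := T.conj
  pol := T.pol

/-- The associated Hodge theory. -/
noncomputable abbrev nH (T : HG.St.PolHodgeTheory ops) : AH.HodgeTheory ops := tH (oT T)

/-- The complex conjugation. -/
noncomputable abbrev nc (T : HG.St.PolHodgeTheory ops) : ℂ ≃ₐ[(nH T).W.K] ℂ := cj (oT T)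

theorem nc_conj (z : ℂ) : nc T z = (starRingEnd ℂ) z := rfl

theorem polN (T : HG.St.PolHodgeTheory ops) : PolH (nH T) (nc T) := polH (oT T)

theorem gen_le_lieN : gen (hg (nH T) X) ≤ HG.St.lieOf (HG.St.types T.toHodgeTheory X) := by
  refine le_sInf ?_
  rintro L ⟨hL, m, z, g, hg, hz⟩
  exact gen_le_of (T := nH T) hL hg hz

theorem lie_le_genN : HG.St.lieOf (HG.St.types T.toHodgeTheory X) ≤ gen (hg (nH T) X) := by
  obtain ⟨m, z, l, hexp⟩ := exists_expansion (hop (nH T) X)
  refine sInf_le ⟨gen_isLie (hg (nH T) X), m, z, fun i => hg (nH T) X (l i),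
    fun i => gen_mem (hg (nH T) X) (l i), ?_⟩
  intro p q x hx
  have h1 : hop (nH T) X x = ((p - q : ℤ) : ℂ) • x := hop_pq (T := nH T) hx
  rw [hexp x] at h1
  exact h1

/-- The Lie algebra is generated by the rational operators. -/
theorem lieOf_eq : HG.St.lieOf (HG.St.types T.toHodgeTheory X) = gen (hg (nH T) X) :=
  le_antisymm lie_le_genN gen_le_lieN

theorem dim_eq : HG.St.hodgeLieDim T X = finrank (nH T).W.K (gen (hg (nH T) X)) := by
  change finrank T.W.K (HG.St.lieOf (HG.St.types T.toHodgeTheory X)) = _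
  rw [lieOf_eq]
  rfl

theorem cen_eq : HG.St.hodgeCentreDim T X = finrank (nH T).W.K (cen (gen (hg (nH T) X))) := by
  change finrank T.W.K (Submodule.span T.W.K
    {x | x ∈ HG.St.lieOf (HG.St.types T.toHodgeTheory X) ∧
      ∀ y ∈ HG.St.lieOf (HG.St.types T.toHodgeTheory X), x * y = y * x}) = _
  rw [lieOf_eq]
  have h1 : Submodule.span (nH T).W.K {x : EH (nH T) X | x ∈ gen (hg (nH T) X) ∧
      ∀ y ∈ gen (hg (nH T) X), x * y = y * x} = cen (gen (hg (nH T) X)) :=
    Submodule.span_eq (cen (gen (hg (nH T) X)))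
  exact congrArg (fun S : Submodule (nH T).W.K (EH (nH T) X) => finrank (nH T).W.K S) h1

theorem indep_of : HG.St.Independent T X Y ↔ Nontrivial ((nH T).W.H X) ∧
    Nontrivial ((nH T).W.H Y) ∧ Free2 (hg (nH T) X) (hg (nH T) Y) := by
  constructor
  · rintro ⟨h1, h2, h3⟩
    refine ⟨h1, h2, (indep_iff (T := nH T) h1 h2).2 ?_⟩
    rw [dim_eq, dim_eq, dim_eq] at h3
    exact h3
  · rintro ⟨h1, h2, h3⟩
    refine ⟨h1, h2, ?_⟩
    rw [dim_eq, dim_eq, dim_eq]
    exact (indep_iff (T := nH T) h1 h2).1 h3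

theorem elem_of_elementary (h : HG.St.IsElementary T X) :
    Nontrivial ((nH T).W.H X) ∧ Elem (hg (nH T) X) := by
  refine ⟨h.1, elem_cen (polN T) nc_conj X ?_⟩
  have h2 := h.2
  rw [cen_eq] at h2
  exact h2

theorem overlap_eq : HG.St.overlap T X Y = ov (nH T) X Y := by
  rw [HG.St.overlap, ov, dim_eq, dim_eq, dim_eq]

theorem ell_of (h : HG.St.IsEllipticCurve T E) : IsEll (nH T) (nc T) E :=
  isEll_of (T := oT T) h

theorem hcN : HG.St.HC T X ↔ Full (nH T) X := hC_iff (T := oT T)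

theorem h11N (h : HG.St.LefschetzOneOne T) (X : 𝒱.Obj) (v : (nH T).W.H X)
    (hv : v ∈ (nH T).W.gr X 2) (hv' : v ∈ (AH.hodgeSys (nH T)).C X) :
    v ∈ (algSys (nH T).W).C X := h11_of (T := oT T) h X v hv hv'

theorem decN (h : (AH.hodgeSys (nH T)).C (P.prod Q) ≤ prods (nH T) P Q) :
    HG.St.Decoupled T P Q := decoupled_of (T := oT T) h

theorem of_decN (h : HG.St.Decoupled T P Q) :
    (AH.hodgeSys (nH T)).C (P.prod Q) ≤ prods (nH T) P Q := by
  intro c hc
  refine ClassPred.sp_ind (Q := AH.hodgePred (nH T)) (q := fun c => c ∈ prods (nH T) P Q) ?_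
    (Submodule.zero_mem _) (fun a b => Submodule.add_mem _) hc
  intro j c hc
  let S : Set ((nH T).W.H (P.prod Q)) := HG.St.ExternalProducts T P Q
  have h1 : Submodule.span (nH T).W.K S ≤ prods (nH T) P Q :=
    span_le_prods (T := nH T) fun x hx => hx
  exact h1 (h j c hc)

theorem isogN : HG.St.Isogenous T E E' ↔ Isog (nH T) E E' := Iff.rfl

end Pool.Agent.Q219.HD
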