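import Pool.Agent.Q219.HG.GMain
import Pool.Agent.Q219.HD.EllMain

/-!
# Elliptic curves are irreducible, and two are independent if and only if they are not isogenous
-/

open CategoryTheory AlgebraicGeometry TensorProduct

universe u

namespace Pool.Agent.Q219.HD

open Module
open Pool.Agent.H914 Pool.Agent.H914.VarClass Pool.Agent.H914.VarClass.Obj
  Pool.Agent.H914.WeilCohomology
open Pool.Agent.Y133.Half
open Pool.Agent.Y121
open Pool.Agent.Q50.BL

section Alg

variable {K : Type*} [Field K] {R R' : Type*} [Ring R] [Algebra K R] [Ring R'] [Algebra K R']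

theorem Irr.map {G : Submodule K R} (hI : Irr G) (hL : IsLie G) {φ : R →ₗ[K] R'}
    (hφ : IsLieMap φ) : Irr (G.map φ) := by
  intro P hP
  have h0 : IsIdeal (G ⊓ P.comap φ) G := by
    refine ⟨inf_le_left, fun x hx y hy => ⟨hL x hx y hy.1, ?_⟩⟩
    change φ (x * y - y * x) ∈ P
    rw [hφ]
    exact hP.2 _ ⟨x, hx, rfl⟩ _ hy.2
  rcases hI (G ⊓ P.comap φ) h0 with h | h
  · left
    rw [Submodule.eq_bot_iff]
    intro y hy
    obtain ⟨x, hx, rfl⟩ := hP.1 hy
    have h1 : x ∈ G ⊓ P.comap φ := ⟨hx, hy⟩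
    rw [h, Submodule.mem_bot] at h1
    rw [h1, map_zero]
  · right
    refine le_antisymm hP.1 ?_
    rintro _ ⟨x, hx, rfl⟩
    have h1 : x ∈ G ⊓ P.comap φ := by rw [h]; exact hx
    exact h1.2

theorem irr_line (J : R) : Irr (Submodule.span K {J}) := by
  intro P hP
  by_cases h0 : P = ⊥
  · exact Or.inl h0
  · right
    refine le_antisymm hP.1 ?_
    obtain ⟨y, hy, hy0⟩ := (Submodule.ne_bot_iff P).1 h0
    obtain ⟨a, rfl⟩ := Submodule.mem_span_singleton.1 (hP.1 hy)
    have ha : a ≠ 0 := fun e => hy0 (by rw [e, zero_smul])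
    refine (Submodule.span_singleton_le_iff_mem J P).2 ?_
    have h1 := Submodule.smul_mem P a⁻¹ hy
    rwa [smul_smul, inv_mul_cancel₀ ha, one_smul] at h1

theorem irr_sl (h2 : (2 : K) ≠ 0) : Irr (sl K) := by
  intro P hP
  by_cases h0 : P = ⊥
  · exact Or.inl h0
  · exact Or.inr (sl_simple h2 hP.1 hP.2 ((Submodule.ne_bot_iff P).1 h0))

theorem finrank_sl (h2 : (2 : K) ≠ 0) : finrank K (sl K) = 3 := by
  refine le_antisymm finrank_sl_le ?_
  have h1 := perfect_codim (sl_perfect h2) sl_isLie (P := ⊥) bot_le (fun x _ y hy => by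
    rw [(Submodule.mem_bot K).1 hy, mul_zero, zero_mul, sub_zero]
    exact Submodule.zero_mem _) (fun h => by
    have h3 : (mk 1 0 0 : M2 K) ∈ sl K := mk_mem 1 0 0
    rw [← h, Submodule.mem_bot] at h3
    have h4 := congrFun (congrFun h3 0) 0
    simp [mk] at h4)
  omega

end Alg

variable {k : Type u} [Field k] {𝒱 : VarClass k} {ops : CycleOps 𝒱}

section AH

variable {T : AH.HodgeTheory ops} {X Y Z E E' : 𝒱.Obj} {c : ℂ ≃ₐ[T.W.K] ℂ}

theorem phi_injective (b : Bas T E) : Function.Injective (phi b b) := fun _ _ h => phi_inj h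

/-- The form of the family in the case of complex multiplication. -/
theorem cm_gen {w : ℂ} {J : M2 T.W.K} {N : M2 ℂ} (h : N = w • toC J) (hw : w ≠ 0) :
    gen (cofM (K := T.W.K) N) = Submodule.span T.W.K {J} := by
  refine le_antisymm (gen_le ?_ fun l => ?_) ((Submodule.span_singleton_le_iff_mem _ _).2 ?_)
  · intro x hx y hy
    obtain ⟨a, rfl⟩ := Submodule.mem_span_singleton.1 hx
    obtain ⟨b, rfl⟩ := Submodule.mem_span_singleton.1 hy
    rw [smul_mul_smul_comm, smul_mul_smul_comm, mul_comm a, sub_self]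
    exact Submodule.zero_mem _
  · rw [cofM_smul h]
    exact Submodule.smul_mem _ _ (Submodule.mem_span_singleton_self J)
  · obtain ⟨l, hl⟩ : ∃ l : ℂ →ₗ[T.W.K] T.W.K, l w ≠ 0 := by
      by_contra hcon
      push Not at hcon
      exact hw (sep hcon)
    have h1 := Submodule.smul_mem _ (l w)⁻¹ (gen_mem (cofM (K := T.W.K) N) l)
    rw [cofM_smul h, smul_smul, inv_mul_cancel₀ hl, one_smul] at h1
    exact h1

/-- Elliptic curves are irreducible. -/
theorem ell_irr (hE : IsEll T c E) : Irr (gen (hg T E)) ∧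
    (finrank T.W.K (gen (hg T E)) = 1 ∨ finrank T.W.K (gen (hg T E)) = 3) := by
  obtain ⟨b, N, hN⟩ := hE.exists_mat
  have hH := hE.isHodgeMat hN
  have hfr : ∀ G : Submodule T.W.K (M2 T.W.K), finrank T.W.K (G.map (phi b b)) =
      finrank T.W.K G := fun G => finrank_map_of (phi b b) G fun x _ hx =>
    phi_injective b (hx.trans (map_zero _).symm)
  rw [gen_hg_eq hE.range hN, hfr]
  by_cases hn : NoCM T.W.K N
  · rw [gen_eq_sl hH hn]
    exact ⟨(irr_sl two_ne).map sl_isLie phi_isLieMap, Or.inr (finrank_sl two_ne)⟩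
  · obtain ⟨w, J, μ, h1, -, h3, h4⟩ := exists_w hH hn
    have hw : w ≠ 0 := by
      rintro rfl
      rw [zero_mul, zero_mul] at h3
      exact zero_ne_one h3
    have hJ : J ≠ 0 := fun e => h4 0 (by rw [e, zero_smul])
    rw [cm_gen h1 hw]
    refine ⟨(irr_line J).map ?_ phi_isLieMap, Or.inl (finrank_span_singleton hJ)⟩
    intro x hx y hy
    obtain ⟨a, rfl⟩ := Submodule.mem_span_singleton.1 hx
    obtain ⟨b, rfl⟩ := Submodule.mem_span_singleton.1 hy
    rw [smul_mul_smul_comm, smul_mul_smul_comm, mul_comm a, sub_self]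
    exact Submodule.zero_mem _

theorem comm_cm (hE : IsEll T c E) {b : Bas T E} {N : M2 ℂ} (hN : IsMat b N)
    (hn : ¬ NoCM T.W.K N) : Comm (gen (hg T E)) := by
  obtain ⟨w, J, μ, h1, -, h3, h4⟩ := exists_w (hE.isHodgeMat hN) hn
  have hw : w ≠ 0 := by
    rintro rfl
    rw [zero_mul, zero_mul] at h3
    exact zero_ne_one h3
  rw [gen_hg_eq hE.range hN, cm_gen h1 hw]
  rintro _ ⟨x, hx, rfl⟩ _ ⟨y, hy, rfl⟩
  obtain ⟨a, rfl⟩ := Submodule.mem_span_singleton.1 hx
  obtain ⟨b, rfl⟩ := Submodule.mem_span_singleton.1 hy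
  rw [map_smul, map_smul, smul_mul_smul_comm, smul_mul_smul_comm, mul_comm a]

theorem free2_comm (hp : IsPerfect (gen (hg T Y))) (hc : Comm (gen (hg T X))) :
    Free2 (hg T X) (hg T Y) :=
  (hfree (Z := X)).1 (free_of_comm (h := hfam T X (id : 𝒱.Obj → 𝒱.Obj)) (a := some X)
    (i := some Y) hp hc)

/-- Elliptic curves are independent if and only if they are not isogenous. -/
theorem ell_free (hE : IsEll T c E) (hE' : IsEll T c E') :
    Free2 (hg T E) (hg T E') ↔ ¬ Isog T E E' := by
  constructor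
  · rintro hf ⟨f, hf1, x, hx, hfx⟩
    let M : Submodule T.W.K (EH T E × EH T E') :=
      { carrier := {p | p.2 ∘ₗ f = f ∘ₗ p.1}
        zero_mem' := by
          change (0 : EH T E') ∘ₗ f = f ∘ₗ (0 : EH T E)
          rw [LinearMap.zero_comp, LinearMap.comp_zero]
        add_mem' := by
          intro p q hp hq
          change (p.2 + q.2) ∘ₗ f = f ∘ₗ (p.1 + q.1)
          rw [LinearMap.add_comp, LinearMap.comp_add, show p.2 ∘ₗ f = f ∘ₗ p.1 from hp,
            show q.2 ∘ₗ f = f ∘ₗ q.1 from hq]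
        smul_mem' := by
          intro r p hp
          change (r • p.2) ∘ₗ f = f ∘ₗ (r • p.1)
          rw [LinearMap.smul_comp, LinearMap.comp_smul, show p.2 ∘ₗ f = f ∘ₗ p.1 from hp] }
    have hM : gen ((hg T E).prod (hg T E')) ≤ M := by
      refine gen_le ?_ fun l => ?_
      · intro p hp q hq
        have hp' : ∀ v, p.2 (f v) = f (p.1 v) := fun v => LinearMap.congr_fun hp v
        have hq' : ∀ v, q.2 (f v) = f (q.1 v) := fun v => LinearMap.congr_fun hq v
        apply LinearMap.ext
        intro v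
        change p.2 (q.2 (f v)) - q.2 (p.2 (f v)) = f (p.1 (q.1 v) - q.1 (p.1 v))
        rw [hp', hq', hp', hq', map_sub]
      · apply LinearMap.ext
        intro v
        change hg T E' l (f v) = f (hg T E l v)
        rw [hg_apply, hg_apply, ← ev_base, hf1.hcomm, LinearMap.baseChange_tmul]
    have h1 : ∀ l, hg T E' l (f x) = 0 := by
      intro l
      have h2 := hM (hf _ (gen_mem _ l))
      have h3 : (hg T E' l) ∘ₗ f = f ∘ₗ (0 : EH T E) := h2
      have h4 := LinearMap.congr_fun h3 x
      rw [LinearMap.comp_apply, LinearMap.comp_zero, LinearMap.zero_apply] at h4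
      exact h4
    have h2 : hop T E' (1 ⊗ₜ[T.W.K] f x) = 0 := cofL_eq_zero.1 h1
    have h3 := hop_hop hE'.range (Submodule.tmul_mem_baseChange_of_mem (1 : ℂ) (hf1.gr hx))
    rw [h2, map_zero] at h3
    apply hfx
    apply one_tmul_inj (K := T.W.K)
    rw [tmul_zero]
    exact h3.symm
  · intro hiso
    obtain ⟨b, N, hN⟩ := hE.exists_mat
    obtain ⟨b', N', hN'⟩ := hE'.exists_mat
    have hH := hE.isHodgeMat hN
    have hH' := hE'.isHodgeMat hN'
    by_cases hn : NoCM T.W.K N
    · by_cases hn' : NoCM T.W.K N'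
      · refine hg_free hE.range hN hE'.range hN' (pair_free hH hn hH' hn' fun g hg => ?_)
        by_contra h0
        exact hiso (isog_of_mat hE.range hN hN' hg h0)
      · exact (free2_comm (hg_perfect hE.range hN hH hn) (comm_cm hE' hN' hn')).symm
    · by_cases hn' : NoCM T.W.K N'
      · exact free2_comm (hg_perfect hE'.range hN' hH' hn') (comm_cm hE hN hn)
      · refine hg_free hE.range hN hE'.range hN' ?_
        obtain ⟨w, J, μ, h1, h2, h3, h4⟩ := exists_w hH hn
        obtain ⟨w', J', μ', h1', h2', h3', h4'⟩ := exists_w hH' hn'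
        have hw : w ≠ 0 := by
          rintro rfl
          rw [zero_mul, zero_mul] at h3
          exact zero_ne_one h3
        have hw' : w' ≠ 0 := by
          rintro rfl
          rw [zero_mul, zero_mul] at h3'
          exact zero_ne_one h3'
        have hind : w' ∉ Submodule.span T.W.K {w} := by
          intro hmem
          obtain ⟨r, hr⟩ := Submodule.mem_span_singleton.1 hmem
          have hr0 : r ≠ 0 := by
            rintro rfl
            rw [zero_smul] at hr
            exact hw' hr.symm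
          have hr1 : w = algebraMap T.W.K ℂ r⁻¹ * w' := by
            rw [← hr, Algebra.smul_def, ← mul_assoc, ← map_mul, inv_mul_cancel₀ hr0, map_one,
              one_mul]
          obtain ⟨g, hg0, hg⟩ := cm_ratio h1 h2 h3 h4 h1' h2' h3' hr1
          exact hiso (isog_of_mat hE.range hN hN' hg hg0)
        obtain ⟨f, hf, hle⟩ := Submodule.exists_le_ker_of_notMem hind
        have hfw : f w = 0 := hle (Submodule.mem_span_singleton_self w)
        intro x hx
        rw [cm_gen h1' hw'] at hx
        obtain ⟨a, rfl⟩ := Submodule.mem_span_singleton.1 hx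
        have h5 := Submodule.smul_mem _ (a * (f w')⁻¹)
          (gen_mem ((cofM (K := T.W.K) N).prod (cofM (K := T.W.K) N')) f)
        have h6 : (a * (f w')⁻¹) • ((cofM (K := T.W.K) N).prod (cofM (K := T.W.K) N')) f =
            (0, a • J') := by
          refine Prod.ext ?_ ?_
          · change (a * (f w')⁻¹) • cofM (K := T.W.K) N f = 0
            rw [cofM_smul h1, hfw, zero_smul, smul_zero]
          · change (a * (f w')⁻¹) • cofM (K := T.W.K) N' f = a • J'
            rw [cofM_smul h1', smul_smul, mul_assoc, inv_mul_cancel₀ hf, mul_one]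
        rw [h6] at h5
        exact h5

end AH

end Pool.Agent.Q219.HD
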