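import Mathlib
import Pool.Agent.Q219.HD.Cof

/-!
# Expansion of complex operators, the trace of the square of an operator with integral eigenvalues
-/

open TensorProduct

namespace Pool.Agent.Q219.HD

open Module

section Expansion

variable {K : Type*} [Field K] [Algebra K ℂ] {V V' : Type*} [AddCommGroup V] [Module K V]
  [AddCommGroup V'] [Module K V']

theorem exp_one {ι : Type*} (b : Basis ι K ℂ) (y : ℂ ⊗[K] V) :
    ∃ F : Finset ι, ∀ F', F ⊆ F' → y = ∑ i ∈ F', b i ⊗ₜ[K] ev (b.coord i) y := by
  classical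
  induction y using TensorProduct.induction_on with
  | zero => exact ⟨∅, fun F' _ => by simp⟩
  | add x y hx hy =>
    obtain ⟨F, hF⟩ := hx
    obtain ⟨G, hG⟩ := hy
    refine ⟨F ∪ G, fun F' hF' => ?_⟩
    have h1 := hF F' (Finset.union_subset_left hF')
    have h2 := hG F' (Finset.union_subset_right hF')
    simp only [map_add, tmul_add, Finset.sum_add_distrib]
    rw [← h1, ← h2]
  | tmul z v =>
    refine ⟨(b.repr z).support, fun F' hF' => ?_⟩
    have h1 : z = ∑ i ∈ F', b.repr z i • b i := by
      conv_lhs => rw [← b.linearCombination_repr z, Finsupp.linearCombination_apply, Finsupp.sum]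
      refine Finset.sum_subset hF' fun i _ hi => ?_
      rw [Finsupp.notMem_support_iff.1 hi, zero_smul]
    conv_lhs => rw [h1]
    rw [TensorProduct.sum_tmul]
    refine Finset.sum_congr rfl fun i _ => ?_
    rw [ev_tmul, TensorProduct.smul_tmul, Basis.coord_apply]

/-- The expansion of a complex operator in terms of its coefficients. -/
theorem exists_expansion [FiniteDimensional K V] (f : ℂ ⊗[K] V →ₗ[ℂ] ℂ ⊗[K] V') :
    ∃ (m : ℕ) (z : Fin m → ℂ) (l : Fin m → (ℂ →ₗ[K] K)), ∀ x,
      f x = ∑ i, z i • (cofL f (l i)).baseChange ℂ x := by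
  classical
  let b := Basis.ofVectorSpace K ℂ
  let v := Module.finBasis K V
  choose F hF using fun j => exp_one b (f (1 ⊗ₜ[K] v j))
  set G := Finset.univ.biUnion F with hG
  have h1 : ∀ x, f x = ∑ i ∈ G, b i • (cofL f (b.coord i)).baseChange ℂ x := by
    intro x
    have h2 : f = ∑ i ∈ G, b i • (cofL f (b.coord i)).baseChange ℂ := by
      apply (v.baseChange ℂ).ext
      intro j
      have h3 : (v.baseChange ℂ) j = (1 ⊗ₜ[K] v j : ℂ ⊗[K] V) := by
        rw [Basis.baseChange_apply]
      rw [h3, LinearMap.sum_apply]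
      conv_lhs => rw [hF j G (Finset.subset_biUnion_of_mem F (Finset.mem_univ j))]
      refine Finset.sum_congr rfl fun i _ => ?_
      rw [LinearMap.smul_apply, LinearMap.baseChange_tmul, TensorProduct.smul_tmul', smul_eq_mul,
        mul_one]
      rfl
    conv_lhs => rw [h2]
    rw [LinearMap.sum_apply]
    rfl
  refine ⟨G.card, fun i => b (G.equivFin.symm i), fun i => b.coord (G.equivFin.symm i), fun x => ?_⟩
  rw [h1, ← Finset.sum_coe_sort G, ← Equiv.sum_comp G.equivFin.symm]

end Expansion

section Trace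

/-- The trace of the square of an operator with integral eigenvalues is a natural number, and it is
zero only if the operator is zero. -/
theorem trace_sq {V : Type*} [AddCommGroup V] [Module ℂ V] [FiniteDimensional ℂ V]
    (f : Module.End ℂ V) (hf : ⊤ ≤ Submodule.span ℂ {x : V | ∃ m : ℤ, f x = (m : ℂ) • x}) :
    ∃ n : ℤ, LinearMap.trace ℂ V (f * f) = (n : ℂ) ∧ (n = 0 → f = 0) := by
  classical
  let b := Basis.ofSpan hf
  have hb : ∀ i, ∃ m : ℤ, f (b i) = (m : ℂ) • b i := fun i =>
    Basis.ofSpan_subset hf ⟨i, rfl⟩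
  choose m hm using hb
  have : Fintype _ := FiniteDimensional.fintypeBasisIndex b
  refine ⟨∑ i, m i ^ 2, ?_, fun h => ?_⟩
  · rw [LinearMap.trace_eq_matrix_trace ℂ b, Matrix.trace]
    push_cast
    refine Finset.sum_congr rfl fun i _ => ?_
    rw [Matrix.diag_apply, LinearMap.toMatrix_apply, Module.End.mul_apply, hm, map_smul, hm,
      smul_smul, map_smul, Finsupp.smul_apply, Basis.repr_self, Finsupp.single_eq_same,
      smul_eq_mul, mul_one, pow_two]
  · have h1 : ∀ i, m i = 0 := by
      intro i
      have h2 := (Finset.sum_eq_zero_iff_of_nonneg (fun i _ => sq_nonneg (m i))).1 h i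
        (Finset.mem_univ i)
      exact pow_eq_zero_iff (two_ne_zero) |>.1 h2
    apply b.ext
    intro i
    rw [hm, h1, Int.cast_zero, zero_smul, LinearMap.zero_apply]

end Trace

end Pool.Agent.Q219.HD
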