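import Pool.Agent.Q219.HG.Rel

/-!
# The lemma of Goursat for reductive Lie algebras and elementary members
-/

set_option linter.unusedSectionVars false

namespace Pool.Agent.Q219.HD

open Module

section Red

variable {K : Type} [Field K] [CharZero K] [Algebra K ℂ] {A : Type*} [Ring A] [Algebra K A]
  {G : Submodule K A}

theorem der_ideal (hG : IsLie G) : IsIdeal (der G) G :=
  ⟨der_le hG, fun x hx y hy => Submodule.subset_span ⟨x, hx, y, der_le hG hy, rfl⟩⟩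

/-- The centre. -/
def cen (G : Submodule K A) : Submodule K A where
  carrier := {x | x ∈ G ∧ ∀ y ∈ G, x * y = y * x}
  zero_mem' := ⟨Submodule.zero_mem _, fun y _ => by rw [zero_mul, mul_zero]⟩
  add_mem' := by
    rintro x x' ⟨h1, h2⟩ ⟨h1', h2'⟩
    exact ⟨Submodule.add_mem _ h1 h1', fun y hy => by
      rw [add_mul, mul_add, h2 y hy, h2' y hy]⟩
  smul_mem' := by
    rintro r x ⟨h1, h2⟩
    exact ⟨Submodule.smul_mem _ _ h1, fun y hy => by
      rw [smul_mul_assoc, mul_smul_comm, h2 y hy]⟩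

theorem mem_cen {x : A} : x ∈ cen G ↔ x ∈ G ∧ ∀ y ∈ G, x * y = y * x := Iff.rfl

theorem cen_ideal : IsIdeal (cen G) G := by
  refine ⟨fun x hx => hx.1, fun x hx y hy => ?_⟩
  rw [hy.2 x hx, sub_self]
  exact Submodule.zero_mem _

theorem Red.der_center (hR : Red G) {x : A} (hx : x ∈ der G) (hxc : x ∈ cen G) : x = 0 := by
  obtain ⟨C', hC', h1, h2⟩ := hR _ cen_ideal
  have h3 : der G ≤ C' := by
    refine Submodule.span_le.2 ?_
    rintro _ ⟨a, ha, b, hb, rfl⟩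
    rw [← h2] at ha hb
    obtain ⟨c, hc, c', hc', rfl⟩ := Submodule.mem_sup.1 ha
    obtain ⟨d, hd, d', hd', rfl⟩ := Submodule.mem_sup.1 hb
    have e1 : (c + c') * (d + d') - (d + d') * (c + c') = c' * d' - d' * c' := by
      have k1 := hc.2 d hd.1
      have k2 := hc.2 d' (hC'.1 hd')
      have k3 := hd.2 c' (hC'.1 hc')
      rw [add_mul, mul_add, mul_add, add_mul, mul_add, mul_add, k1, k2, ← k3]
      abel
    rw [e1]
    exact hC'.2 _ (hC'.1 hc') _ hd'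
  have h4 : x ∈ cen G ⊓ C' := ⟨hxc, h3 hx⟩
  rw [h1] at h4
  exact (Submodule.mem_bot K).1 h4

theorem Red.split (hR : Red G) (hG : IsLie G) {x : A} (hx : x ∈ G) :
    ∃ y ∈ der G, ∃ z ∈ cen G, x = y + z := by
  obtain ⟨N', hN', h1, h2⟩ := hR _ (der_ideal hG)
  rw [← h2] at hx
  obtain ⟨y, hy, z, hz, rfl⟩ := Submodule.mem_sup.1 hx
  refine ⟨y, hy, z, ⟨hN'.1 hz, fun a ha => ?_⟩, rfl⟩
  have h3 : a * z - z * a ∈ der G ⊓ N' :=
    ⟨Submodule.subset_span ⟨a, ha, z, hN'.1 hz, rfl⟩, hN'.2 a ha z hz⟩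
  rw [h1] at h3
  exact (sub_eq_zero.1 ((Submodule.mem_bot K).1 h3)).symm

/-- Reductivity is preserved by injective maps. -/
theorem Red.of_map {B : Type*} [Ring B] [Algebra K B] {φ : A →ₗ[K] B} (hφ : IsLieMap φ)
    (hinj : ∀ x ∈ G, φ x = 0 → x = 0) (hG : IsLie G) (hR : Red (G.map φ)) : Red G := by
  intro I hI
  have hI' : IsIdeal (I.map φ) (G.map φ) := by
    refine ⟨Submodule.map_mono hI.1, ?_⟩
    rintro _ ⟨x, hx, rfl⟩ _ ⟨y, hy, rfl⟩
    exact ⟨_, hI.2 x hx y hy, hφ x y⟩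
  obtain ⟨J, hJ, h1, h2⟩ := hR _ hI'
  refine ⟨G ⊓ J.comap φ, ⟨inf_le_left, fun x hx y hy => ⟨hG x hx y hy.1, ?_⟩⟩, ?_, ?_⟩
  · change φ (x * y - y * x) ∈ J
    rw [hφ]
    exact hJ.2 _ ⟨x, hx, rfl⟩ _ hy.2
  · rw [Submodule.eq_bot_iff]
    rintro x ⟨hx, hx'⟩
    have h3 : φ x ∈ I.map φ ⊓ J := ⟨⟨x, hx, rfl⟩, hx'.2⟩
    rw [h1] at h3
    exact hinj x hx'.1 ((Submodule.mem_bot K).1 h3)
  · refine le_antisymm (sup_le hI.1 inf_le_left) fun x hx => ?_
    have h3 : φ x ∈ I.map φ ⊔ J := by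
      rw [h2]
      exact ⟨x, hx, rfl⟩
    obtain ⟨_, ⟨y, hy, rfl⟩, z, hz, h4⟩ := Submodule.mem_sup.1 h3
    rw [Submodule.mem_sup]
    refine ⟨y, hy, x - y, ⟨Submodule.sub_mem _ hx (hI.1 hy), ?_⟩, by abel⟩
    change φ (x - y) ∈ J
    rw [map_sub, ← h4, add_sub_cancel_left]
    exact hz

end Red

section

variable {K : Type} [Field K] [CharZero K] [Algebra K ℂ] {R A B : Type*} [Ring R] [Algebra K R]
  [Ring A] [Algebra K A] [Ring B] [Algebra K B]
  {f : (ℂ →ₗ[K] K) →ₗ[K] R} {g : (ℂ →ₗ[K] K) →ₗ[K] A} {g' : (ℂ →ₗ[K] K) →ₗ[K] B}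

theorem cc_free (hf : Free2 f g) {w : ℂ} (h1 : CC f w) (h2 : CC g w) : w = 0 := by
  obtain ⟨φ, a1, a2⟩ := h1
  obtain ⟨ψ, b1, b2⟩ := h2
  let M : Submodule K (R × A) :=
    { carrier := {p | p.1 ∈ gen f ∧ p.2 ∈ gen g ∧ φ p.1 = ψ p.2}
      zero_mem' := ⟨Submodule.zero_mem _, Submodule.zero_mem _, by
        rw [Prod.fst_zero, Prod.snd_zero, map_zero, map_zero]⟩
      add_mem' := by
        rintro p q ⟨h1, h2, h3⟩ ⟨h1', h2', h3'⟩
        exact ⟨Submodule.add_mem _ h1 h1', Submodule.add_mem _ h2 h2', by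
          rw [Prod.fst_add, Prod.snd_add, map_add, map_add, h3, h3']⟩
      smul_mem' := by
        rintro r p ⟨h1, h2, h3⟩
        exact ⟨Submodule.smul_mem _ _ h1, Submodule.smul_mem _ _ h2, by
          rw [Prod.smul_fst, Prod.smul_snd, map_smul, map_smul, h3]⟩ }
  have hM : gen (f.prod g) ≤ M := by
    refine gen_le ?_ fun l => ⟨gen_mem _ l, gen_mem _ l, ?_⟩
    · rintro p ⟨h1, h2, h3⟩ q ⟨h1', h2', h3'⟩
      refine ⟨gen_isLie _ _ h1 _ h1', gen_isLie _ _ h2 _ h2', ?_⟩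
      change φ (p.1 * q.1 - q.1 * p.1) = ψ (p.2 * q.2 - q.2 * p.2)
      rw [a1 _ h1 _ h1', b1 _ h2 _ h2']
    · change φ (f l) = ψ (g l)
      rw [a2, b2]
  refine sep (K := K) fun l => ?_
  obtain ⟨-, -, h3⟩ := hM (hf _ (gen_mem _ l))
  rw [← b2, ← h3, map_zero]

/-- The functionals of the operator are given by complex numbers. -/
def Ev (g : (ℂ →ₗ[K] K) →ₗ[K] A) : Prop := ∀ φ : A →ₗ[K] K, ∃ w : ℂ, ∀ l, φ (g l) = l w

theorem Ev.prod (h : Ev g) (h' : Ev g') : Ev (g.prod g') := by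
  intro φ
  obtain ⟨w, hw⟩ := h (φ ∘ₗ LinearMap.inl K A B)
  obtain ⟨w', hw'⟩ := h' (φ ∘ₗ LinearMap.inr K A B)
  refine ⟨w + w', fun l => ?_⟩
  rw [map_add, ← hw, ← hw', LinearMap.comp_apply, LinearMap.comp_apply, ← map_add]
  congr 1
  exact Prod.ext (add_zero _).symm (zero_add _).symm

/-- A functional which is zero on the kernel of a map factors through the map. -/
theorem exists_factor {V W : Type*} [AddCommGroup V] [Module K V] [AddCommGroup W] [Module K W]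
    (q : V →ₗ[K] W) (φ : V →ₗ[K] K) (h : ∀ x, q x = 0 → φ x = 0) :
    ∃ ψ : W →ₗ[K] K, ∀ x, ψ (q x) = φ x := by
  have h4 : φ ∈ LinearMap.range q.dualMap := by
    rw [LinearMap.range_dualMap_eq_dualAnnihilator_ker, Submodule.mem_dualAnnihilator]
    intro l hl
    exact h l hl
  obtain ⟨ψ, hψ⟩ := h4
  exact ⟨ψ, fun x => LinearMap.congr_fun hψ x⟩

theorem fst_gen {x : A × B} (hx : x ∈ gen (g.prod g')) : x.1 ∈ gen g :=
  map_gen_mem (f := LinearMap.fst K A B) (fun _ _ => rfl) (h := g.prod g') (h' := g)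
    (fun _ => rfl) hx

theorem snd_gen {x : A × B} (hx : x ∈ gen (g.prod g')) : x.2 ∈ gen g' :=
  map_gen_mem (f := LinearMap.snd K A B) (fun _ _ => rfl) (h := g.prod g') (h' := g')
    (fun _ => rfl) hx

theorem lift_fst {x : A} (hx : x ∈ gen g) : ∃ p ∈ gen (g.prod g'), p.1 = x :=
  lift_gen (f := LinearMap.fst K A B) (fun _ _ => rfl) (h := g.prod g') (h' := g)
    (fun _ => rfl) hx

theorem lift_snd {x : B} (hx : x ∈ gen g') : ∃ p ∈ gen (g.prod g'), p.2 = x :=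
  lift_gen (f := LinearMap.snd K A B) (fun _ _ => rfl) (h := g.prod g') (h' := g')
    (fun _ => rfl) hx

theorem der_fst {x : A × B} (hx : x ∈ der (gen (g.prod g'))) : x.1 ∈ der (gen g) := by
  refine Submodule.span_induction (p := fun x _ => x.1 ∈ der (gen g)) ?_ ?_ ?_ ?_ hx
  · rintro _ ⟨x, hx, y, hy, rfl⟩
    exact Submodule.subset_span ⟨x.1, fst_gen hx, y.1, fst_gen hy, rfl⟩
  · exact Submodule.zero_mem _
  · intro x y _ _ hx hy
    exact Submodule.add_mem _ hx hy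
  · intro r x _ hx
    exact Submodule.smul_mem _ _ hx

theorem der_snd {x : A × B} (hx : x ∈ der (gen (g.prod g'))) : x.2 ∈ der (gen g') := by
  refine Submodule.span_induction (p := fun x _ => x.2 ∈ der (gen g')) ?_ ?_ ?_ ?_ hx
  · rintro _ ⟨x, hx, y, hy, rfl⟩
    exact Submodule.subset_span ⟨x.2, snd_gen hx, y.2, snd_gen hy, rfl⟩
  · exact Submodule.zero_mem _
  · intro x y _ _ hx hy
    exact Submodule.add_mem _ hx hy
  · intro r x _ hx
    exact Submodule.smul_mem _ _ hx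

theorem kill_der {φ : A →ₗ[K] K} {G : Submodule K A}
    (h : ∀ x ∈ G, ∀ y ∈ G, φ (x * y - y * x) = 0) {x : A} (hx : x ∈ der G) : φ x = 0 := by
  refine Submodule.span_induction (p := fun x _ => φ x = 0) ?_ ?_ ?_ ?_ hx
  · rintro _ ⟨x, hx, y, hy, rfl⟩
    exact h x hx y hy
  · exact map_zero _
  · intro x y _ _ hx hy
    rw [map_add, hx, hy, add_zero]
  · intro r x _ hx
    rw [map_smul, hx, smul_zero]

/-- **The relations of a product.** -/
theorem cc_sum (hG : Red (gen (g.prod g'))) (hA : Red (gen g)) (hB : Red (gen g')) (eA : Ev g)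
    (eB : Ev g') {w : ℂ} (hw : CC (g.prod g') w) : ∃ w₁ w₂, w = w₁ + w₂ ∧ CC g w₁ ∧ CC g' w₂ := by
  obtain ⟨φ, h1, h2⟩ := hw
  set G := gen (g.prod g') with hGdef
  set D : Submodule K (A × B) := (der (gen g)).prod (der (gen g')) with hD
  have hGD : ∀ x ∈ G, x ∈ D → φ x = 0 := by
    intro x hx hxD
    obtain ⟨y, hy, z, hz, rfl⟩ := hG.split (gen_isLie _) hx
    have hzD : z ∈ D := by
      have h3 : y ∈ D := ⟨der_fst hy, der_snd hy⟩
      have h4 := Submodule.sub_mem _ hxD h3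
      rwa [add_sub_cancel_left] at h4
    have e1 : z.1 = 0 := by
      refine hA.der_center hzD.1 ⟨fst_gen hz.1, fun a ha => ?_⟩
      obtain ⟨p, hp, rfl⟩ := lift_fst (g' := g') ha
      exact congrArg Prod.fst (hz.2 p hp)
    have e2 : z.2 = 0 := by
      refine hB.der_center hzD.2 ⟨snd_gen hz.1, fun a ha => ?_⟩
      obtain ⟨p, hp, rfl⟩ := lift_snd (g := g) ha
      exact congrArg Prod.snd (hz.2 p hp)
    have e3 : z = 0 := Prod.ext e1 e2
    rw [e3, add_zero]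
    exact kill_der h1 hy
  obtain ⟨ψ, hψ⟩ := exists_factor (D.mkQ ∘ₗ G.subtype) (φ ∘ₗ G.subtype) (fun x hx => by
    refine hGD x.1 x.2 ?_
    rw [LinearMap.comp_apply, Submodule.mkQ_apply, Submodule.Quotient.mk_eq_zero] at hx
    exact hx)
  set φ' : A × B →ₗ[K] K := ψ ∘ₗ D.mkQ with hφ'
  have k1 : ∀ x ∈ G, φ' x = φ x := fun x hx => hψ ⟨x, hx⟩
  have k2 : ∀ x ∈ D, φ' x = 0 := by
    intro x hx
    rw [hφ', LinearMap.comp_apply, Submodule.mkQ_apply, (Submodule.Quotient.mk_eq_zero _).2 hx,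
      map_zero]
  obtain ⟨w₁, hw₁⟩ := eA (φ' ∘ₗ LinearMap.inl K A B)
  obtain ⟨w₂, hw₂⟩ := eB (φ' ∘ₗ LinearMap.inr K A B)
  refine ⟨w₁, w₂, ?_, ⟨_, fun x hx y hy => ?_, hw₁⟩, ⟨_, fun x hx y hy => ?_, hw₂⟩⟩
  · refine sep_eq (K := K) fun l => ?_
    have e1 : φ' ((g.prod g') l) = φ' (g l, 0) + φ' (0, g' l) := by
      rw [← map_add]
      congr 1
      exact Prod.ext (add_zero _).symm (zero_add _).symm
    rw [map_add, ← hw₁, ← hw₂, ← h2, ← k1 _ (gen_mem _ l)]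
    exact e1
  · exact k2 _ ⟨Submodule.subset_span ⟨x, hx, y, hy, rfl⟩, Submodule.zero_mem _⟩
  · exact k2 _ ⟨Submodule.zero_mem _, Submodule.subset_span ⟨x, hx, y, hy, rfl⟩⟩

/-- **The lemma of Goursat.** -/
theorem goursat (hG : Red (gen (g.prod g'))) (hfA : Free2 f g) (hfB : Free2 f g')
    (eG : Ev (g.prod g')) (hw : ∀ w, CC f w → CC (g.prod g') w → w = 0) :
    Free2 f (g.prod g') := by
  set G := gen (g.prod g') with hGdef
  set F := gen (f.prod (g.prod g')) with hF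
  set N : Submodule K (A × B) := F.comap (LinearMap.inr K R (A × B)) with hN
  have hNm : ∀ x, x ∈ N ↔ ((0, x) : R × (A × B)) ∈ F := fun x => Iff.rfl
  have hNG : N ≤ G := fun x hx => snd_gen (g := f) (g' := g.prod g') hx
  have hNI : IsIdeal N G := by
    refine ⟨hNG, fun x hx y hy => ?_⟩
    obtain ⟨p, hp, rfl⟩ := lift_snd (g := f) hx
    have h1 := gen_isLie _ _ hp _ ((hNm y).1 hy)
    have h2 : p * ((0, y) : R × (A × B)) - (0, y) * p = (0, p.2 * y - y * p.2) := by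
      refine Prod.ext ?_ rfl
      change p.1 * 0 - 0 * p.1 = 0
      rw [mul_zero, zero_mul, sub_zero]
    rw [h2] at h1
    exact h1
  obtain ⟨N', hN', h1, h2⟩ := hG _ hNI
  have hcomm : ∀ x ∈ N, ∀ y ∈ N', x * y = y * x := by
    intro x hx y hy
    have h3 : x * y - y * x ∈ N ⊓ N' := by
      refine ⟨?_, hN'.2 x (hNG hx) y hy⟩
      have h4 := hNI.2 y (hN'.1 hy) x hx
      rw [← neg_sub]
      exact Submodule.neg_mem _ h4
    rw [h1] at h3
    exact sub_eq_zero.1 ((Submodule.mem_bot K).1 h3)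
  have hliftA : ∀ a ∈ gen g, ∃ x ∈ N, x.1 = a := by
    intro a ha
    have h3 := hfA a ha
    have hφ : IsLieMap ((LinearMap.id : R →ₗ[K] R).prodMap (LinearMap.fst K A B)) :=
      fun _ _ => rfl
    obtain ⟨p, hp, hpe⟩ := lift_gen hφ (h := f.prod (g.prod g')) (h' := f.prod g)
      (fun _ => rfl) h3
    have e1 : p.1 = 0 := congrArg Prod.fst hpe
    have e2 : p.2.1 = a := congrArg Prod.snd hpe
    refine ⟨p.2, (hNm _).2 ?_, e2⟩
    have e3 : ((0, p.2) : R × (A × B)) = p := Prod.ext e1.symm rfl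
    rw [e3]
    exact hp
  have hliftB : ∀ b ∈ gen g', ∃ x ∈ N, x.2 = b := by
    intro b hb
    have h3 := hfB b hb
    have hφ : IsLieMap ((LinearMap.id : R →ₗ[K] R).prodMap (LinearMap.snd K A B)) :=
      fun _ _ => rfl
    obtain ⟨p, hp, hpe⟩ := lift_gen hφ (h := f.prod (g.prod g')) (h' := f.prod g')
      (fun _ => rfl) h3
    have e1 : p.1 = 0 := congrArg Prod.fst hpe
    have e2 : p.2.2 = b := congrArg Prod.snd hpe
    refine ⟨p.2, (hNm _).2 ?_, e2⟩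
    have e3 : ((0, p.2) : R × (A × B)) = p := Prod.ext e1.symm rfl
    rw [e3]
    exact hp
  have hcen : ∀ z ∈ N', ∀ p ∈ G, z * p = p * z := by
    intro z hz p hp
    refine Prod.ext ?_ ?_
    · obtain ⟨x, hx, hxe⟩ := hliftA _ (fst_gen hp)
      have h3 := congrArg Prod.fst (hcomm x hx z hz)
      change z.1 * p.1 = p.1 * z.1
      rw [← hxe]
      exact h3.symm
    · obtain ⟨x, hx, hxe⟩ := hliftB _ (snd_gen hp)
      have h3 := congrArg Prod.snd (hcomm x hx z hz)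
      change z.2 * p.2 = p.2 * z.2
      rw [← hxe]
      exact h3.symm
  by_cases hbot : N' = ⊥
  · intro x hx
    refine (hNm x).1 ?_
    have h3 : x ∈ N ⊔ N' := by
      rw [h2]
      exact hx
    rw [hbot, sup_bot_eq] at h3
    exact h3
  · exfalso
    obtain ⟨z0, hz0, hz0'⟩ := (Submodule.ne_bot_iff N').1 hbot
    have hz0N : z0 ∉ N := by
      intro h3
      have h4 : z0 ∈ N ⊓ N' := ⟨h3, hz0⟩
      rw [h1] at h4
      exact hz0' ((Submodule.mem_bot K).1 h4)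
    obtain ⟨φ, hφ0, hφN⟩ := Submodule.exists_le_ker_of_notMem hz0N
    have hφc : ∀ x ∈ G, ∀ y ∈ G, φ (x * y - y * x) = 0 := by
      intro x hx y hy
      have hx' : x ∈ N ⊔ N' := by rw [h2]; exact hx
      obtain ⟨a, ha, c, hc, rfl⟩ := Submodule.mem_sup.1 hx'
      have e1 : (a + c) * y - y * (a + c) = a * y - y * a := by
        rw [add_mul, mul_add, hcen c hc y hy, add_sub_add_right_eq_sub]
      rw [e1]
      refine hφN ?_
      have h4 := hNI.2 y hy a ha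
      rw [← neg_sub]
      exact Submodule.neg_mem _ h4
    obtain ⟨w, hw'⟩ := eG φ
    obtain ⟨ψ, hψ⟩ := exists_factor ((LinearMap.fst K R (A × B)) ∘ₗ F.subtype)
      (φ ∘ₗ (LinearMap.snd K R (A × B)) ∘ₗ F.subtype) (fun p hp => by
        refine hφN ((hNm _).2 ?_)
        have e3 : ((0, p.1.2) : R × (A × B)) = p.1 := Prod.ext (Eq.symm hp) rfl
        change ((0, p.1.2) : R × (A × B)) ∈ F
        rw [e3]
        exact p.2)
    have hψ' : ∀ p ∈ F, ψ p.1 = φ p.2 := fun p hp => hψ ⟨p, hp⟩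
    have hw0 : w = 0 := by
      refine hw w ⟨ψ, fun x hx y hy => ?_, fun l => ?_⟩ ⟨φ, hφc, hw'⟩
      · obtain ⟨p, hp, rfl⟩ := lift_fst (g' := g.prod g') hx
        obtain ⟨q, hq, rfl⟩ := lift_fst (g' := g.prod g') hy
        have h3 := hψ' _ (gen_isLie _ _ hp _ hq)
        have h4 : (p * q - q * p).1 = p.1 * q.1 - q.1 * p.1 := rfl
        have h5 : (p * q - q * p).2 = p.2 * q.2 - q.2 * p.2 := rfl
        rw [h4, h5, hφc _ (snd_gen hp) _ (snd_gen hq)] at h3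
        exact h3
      · have h3 := hψ' _ (gen_mem (f.prod (g.prod g')) l)
        rw [← hw']
        exact h3
    have hker : G ≤ G ⊓ LinearMap.ker φ := by
      refine gen_le ?_ fun l => ⟨gen_mem _ l, ?_⟩
      · rintro x ⟨hx, -⟩ y ⟨hy, -⟩
        exact ⟨gen_isLie _ _ hx _ hy, hφc x hx y hy⟩
      · change φ ((g.prod g') l) = 0
        rw [hw', hw0, map_zero]
    exact hφ0 (hker (hN'.1 hz0)).2

/-- Modulo commutators, the operator is a combination of square roots. -/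
def Elem (g : (ℂ →ₗ[K] K) →ₗ[K] A) : Prop := ∀ w, CC g w →
  ∃ (T : Finset (SqR K)) (a : SqR K → K), w = ∑ z ∈ T, algebraMap K ℂ (a z) * z.1

open Classical in
theorem sum_two (T₁ T₂ : Finset (SqR K)) (a₁ a₂ : SqR K → K) :
    ∑ z ∈ T₁, algebraMap K ℂ (a₁ z) * z.1 + ∑ z ∈ T₂, algebraMap K ℂ (a₂ z) * z.1 =
      ∑ z ∈ T₁ ∪ T₂, algebraMap K ℂ ((if z ∈ T₁ then a₁ z else 0) +
        (if z ∈ T₂ then a₂ z else 0)) * z.1 := by
  have h1 : ∑ z ∈ T₁, algebraMap K ℂ (a₁ z) * z.1 =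
      ∑ z ∈ T₁ ∪ T₂, algebraMap K ℂ (if z ∈ T₁ then a₁ z else 0) * z.1 := by
    rw [← Finset.sum_subset (Finset.subset_union_left (s₁ := T₁) (s₂ := T₂))]
    · exact Finset.sum_congr rfl fun z hz => by rw [if_pos hz]
    · intro z _ hz
      rw [if_neg hz, map_zero, zero_mul]
  have h2 : ∑ z ∈ T₂, algebraMap K ℂ (a₂ z) * z.1 =
      ∑ z ∈ T₁ ∪ T₂, algebraMap K ℂ (if z ∈ T₂ then a₂ z else 0) * z.1 := by
    rw [← Finset.sum_subset (Finset.subset_union_right (s₁ := T₁) (s₂ := T₂))]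
    · exact Finset.sum_congr rfl fun z hz => by rw [if_pos hz]
    · intro z _ hz
      rw [if_neg hz, map_zero, zero_mul]
  rw [h1, h2, ← Finset.sum_add_distrib]
  exact Finset.sum_congr rfl fun z _ => by rw [map_add, add_mul]

theorem Elem.prod (hG : Red (gen (g.prod g'))) (hA : Red (gen g)) (hB : Red (gen g'))
    (eA : Ev g) (eB : Ev g') (h : Elem g) (h' : Elem g') : Elem (g.prod g') := by
  classical
  intro w hw
  obtain ⟨w₁, w₂, rfl, h1, h2⟩ := cc_sum hG hA hB eA eB hw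
  obtain ⟨T₁, a₁, rfl⟩ := h w₁ h1
  obtain ⟨T₂, a₂, rfl⟩ := h' w₂ h2
  exact ⟨_, _, sum_two T₁ T₂ a₁ a₂⟩

theorem ne_zero_of_sum {T : Finset (SqR K)} {a : SqR K → K}
    (h : ∑ z ∈ T, algebraMap K ℂ (a z) * z.1 ≠ 0) : ∃ z ∈ T, a z ≠ 0 := by
  by_contra hcon
  push Not at hcon
  apply h
  refine Finset.sum_eq_zero fun z hz => ?_
  rw [hcon z hz, map_zero, zero_mul]

/-- A general first factor, elementary second factors. -/
theorem free_right (hG : Red (gen (g.prod g'))) (hA : Red (gen g)) (hB : Red (gen g'))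
    (eA : Ev g) (eB : Ev g') (hf : HasComp f) (hg : HasComp g) (hg' : HasComp g')
    (h : Elem g) (h' : Elem g') (hfA : Free2 f g) (hfB : Free2 f g') : Free2 f (g.prod g') := by
  classical
  refine goursat hG hfA hfB (eA.prod eB) fun w hw hw' => ?_
  obtain ⟨w₁, w₂, rfl, h1, h2⟩ := cc_sum hG hA hB eA eB hw'
  obtain ⟨T₁, a₁, rfl⟩ := h w₁ h1
  obtain ⟨T₂, a₂, rfl⟩ := h' w₂ h2
  rw [sum_two] at hw ⊢
  by_contra hne
  obtain ⟨z, hz, hz0⟩ := ne_zero_of_sum hne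
  have hfz := hf _ _ hw z hz hz0
  by_cases hz1 : z ∈ T₁ ∧ a₁ z ≠ 0
  · exact z.2.1 (cc_free hfA hfz (hg _ _ h1 z hz1.1 hz1.2))
  · by_cases hz2 : z ∈ T₂ ∧ a₂ z ≠ 0
    · exact z.2.1 (cc_free hfB hfz (hg' _ _ h2 z hz2.1 hz2.2))
    · apply hz0
      have e1 : (if z ∈ T₁ then a₁ z else 0) = 0 := by
        by_cases h3 : z ∈ T₁
        · rw [if_pos h3]
          by_contra h4
          exact hz1 ⟨h3, h4⟩
        · rw [if_neg h3]
      have e2 : (if z ∈ T₂ then a₂ z else 0) = 0 := by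
        by_cases h3 : z ∈ T₂
        · rw [if_pos h3]
          by_contra h4
          exact hz2 ⟨h3, h4⟩
        · rw [if_neg h3]
      rw [e1, e2, add_zero]

/-- An elementary first factor, general second factors. -/
theorem free_left (hG : Red (gen (g.prod g'))) (hA : Red (gen g)) (hB : Red (gen g'))
    (eA : Ev g) (eB : Ev g') (hf : HasComp f) (hgg : TwoComp g g')
    (h : Elem f) (hfA : Free2 f g) (hfB : Free2 f g') : Free2 f (g.prod g') := by
  refine goursat hG hfA hfB (eA.prod eB) fun w hw hw' => ?_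
  obtain ⟨w₁, w₂, rfl, h1, h2⟩ := cc_sum hG hA hB eA eB hw'
  obtain ⟨T, a, hT⟩ := h _ hw
  by_contra hne
  rw [hT] at hne hw
  obtain ⟨z, hz, hz0⟩ := ne_zero_of_sum hne
  have hfz := hf _ _ hw z hz hz0
  rcases hgg T a w₁ w₂ h1 h2 hT z hz hz0 with h3 | h3
  · exact z.2.1 (cc_free hfA hfz h3)
  · exact z.2.1 (cc_free hfB hfz h3)

end

end Pool.Agent.Q219.HD
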