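import Pool.Agent.Q219.HG.GMain
import Pool.Agent.Q219.HG.Gour

/-!
# Independence of products
-/

open CategoryTheory AlgebraicGeometry TensorProduct

universe u

namespace Pool.Agent.Q219.HD

open Module
open Pool.Agent.H914 Pool.Agent.H914.VarClass Pool.Agent.H914.VarClass.Obj
  Pool.Agent.H914.WeilCohomology
open Pool.Agent.Y133.Half
open Pool.Agent.Y121
open Pool.Agent.Q50.BL

variable {k : Type u} [Field k] {𝒱 : VarClass k} {ops : CycleOps 𝒱}

section AH

variable {T : AH.HodgeTheory ops} {X Y Z A B P Q : 𝒱.Obj} {c : ℂ ≃ₐ[T.W.K] ℂ}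

theorem red_hg (hT : PolH T c) (hc : ∀ z, c z = (starRingEnd ℂ) z) (X : 𝒱.Obj) :
    Red (gen (hg T X)) := by
  obtain ⟨Q, hQ⟩ := exists_pol hT X
  obtain ⟨l, hl⟩ := exists_lev T X
  obtain ⟨e, he⟩ := exists_dec hl.nod
  exact red_gen hc hQ he

theorem twoComp_hg (hT : PolH T c) (hc : ∀ z, c z = (starRingEnd ℂ) z) (X Y : 𝒱.Obj) :
    TwoComp (hg T X) (hg T Y) := by
  obtain ⟨Q, hQ⟩ := exists_pol hT X
  obtain ⟨l, hl⟩ := exists_lev T X
  obtain ⟨e, he⟩ := exists_dec hl.nod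
  obtain ⟨Q', hQ'⟩ := exists_pol hT Y
  obtain ⟨l', hl'⟩ := exists_lev T Y
  obtain ⟨e', he'⟩ := exists_dec hl'.nod
  exact twoComp hc hQ he hQ' he'

theorem cof_sum {K : Type} [Field K] [CharZero K] [Algebra K ℂ] {V : Type*} [AddCommGroup V]
    [Module K V] {m : ℕ} {z : Fin m → ℂ} {g : Fin m → Module.End K V}
    {h : Module.End ℂ (ℂ ⊗[K] V)} (hz : ∀ x, h x = ∑ i, z i • (g i).baseChange ℂ x)
    (l : ℂ →ₗ[K] K) : cofL h l = ∑ i, l (z i) • g i := by
  apply LinearMap.ext
  intro v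
  rw [cofL_apply, hz, map_sum, LinearMap.sum_apply]
  refine Finset.sum_congr rfl fun i _ => ?_
  rw [LinearMap.baseChange_tmul, TensorProduct.smul_tmul', smul_eq_mul, mul_one, ev_tmul]
  rfl

theorem ev_hg (X : 𝒱.Obj) : Ev (hg T X) := by
  intro φ
  obtain ⟨m, z, l, hexp⟩ := exists_expansion (hop T X)
  refine ⟨∑ i, algebraMap T.W.K ℂ (φ (hg T X (l i))) * z i, fun f => ?_⟩
  have h1 : hg T X f = ∑ i, f (z i) • hg T X (l i) := cof_sum hexp f
  rw [h1, map_sum, map_sum]
  refine Finset.sum_congr rfl fun i _ => ?_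
  rw [map_smul, smul_eq_mul, lin_mul, mul_comm]

theorem two_inj (hA : Nontrivial (T.W.H A)) (hB : Nontrivial (T.W.H B)) :
    ∀ x ∈ gen ((hg T A).prod (hg T B)), two T.W A B x = 0 → x = 0 := by
  rintro ⟨a, b⟩ hab h2
  have ha : a ∈ gen (hg T A) := fst_gen hab
  have hb : b ∈ gen (hg T B) := snd_gen hab
  have ha0 : a = 0 := by
    apply LinearMap.ext
    intro x
    have h3 := two_tmul T.W a b x 1
    rw [h2, LinearMap.zero_apply, gen_one hb, map_zero, mul_zero, add_zero] at h3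
    exact xp_eq_zero_right (one_ne_zero) h3.symm
  have hb0 : b = 0 := by
    apply LinearMap.ext
    intro x
    have h3 := two_tmul T.W a b 1 x
    rw [h2, LinearMap.zero_apply, gen_one ha, map_zero, zero_mul, zero_add] at h3
    exact xp_eq_zero_left (one_ne_zero) h3.symm
  exact Prod.ext ha0 hb0

theorem gen_two : gen (hg T (A.prod B)) =
    (gen ((hg T A).prod (hg T B))).map (two T.W A B) := by
  rw [map_gen (two_isLieMap T.W A B)]
  congr 1
  apply LinearMap.ext
  intro l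
  exact hg_prod l

theorem red_prod (hT : PolH T c) (hc : ∀ z, c z = (starRingEnd ℂ) z)
    (hA : Nontrivial (T.W.H A)) (hB : Nontrivial (T.W.H B)) :
    Red (gen ((hg T A).prod (hg T B))) := by
  refine Red.of_map (two_isLieMap T.W A B) (two_inj hA hB) (gen_isLie _) ?_
  rw [← gen_two]
  exact red_hg hT hc _

theorem free_of_prod {R : Type*} [Ring R] [Algebra T.W.K R] {f : Lam T →ₗ[T.W.K] R}
    (h : Free2 f ((hg T A).prod (hg T B))) : Free2 f (hg T (A.prod B)) := by
  intro x hx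
  rw [gen_two] at hx
  obtain ⟨y, hy, rfl⟩ := hx
  let ψ : R × (EH T A × EH T B) →ₗ[T.W.K] R × EH T (A.prod B) :=
    (LinearMap.id : R →ₗ[T.W.K] R).prodMap (two T.W A B)
  have hψ : IsLieMap ψ := by
    intro p q
    exact Prod.ext rfl (two_isLieMap T.W A B p.2 q.2)
  have h2 := map_gen_mem hψ (h := f.prod ((hg T A).prod (hg T B)))
    (h' := f.prod (hg T (A.prod B))) (fun l => Prod.ext rfl (hg_prod l).symm) (h y hy)
  exact h2

theorem cc_of_prod {w : ℂ} (h : CC (hg T (A.prod B)) w) :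
    CC ((hg T A).prod (hg T B)) w := by
  obtain ⟨φ, h1, h2⟩ := h
  refine ⟨φ ∘ₗ two T.W A B, fun x hx y hy => ?_, fun l => ?_⟩
  · rw [LinearMap.comp_apply, two_isLieMap T.W A B x y]
    refine h1 _ ?_ _ ?_
    · rw [gen_two]
      exact ⟨x, hx, rfl⟩
    · rw [gen_two]
      exact ⟨y, hy, rfl⟩
  · rw [← h2, hg_prod]
    rfl

theorem elem_prod (hT : PolH T c) (hc : ∀ z, c z = (starRingEnd ℂ) z)
    (hA : Nontrivial (T.W.H A)) (hB : Nontrivial (T.W.H B)) (h : Elem (hg T A))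
    (h' : Elem (hg T B)) : Elem (hg T (A.prod B)) := fun w hw =>
  (Elem.prod (red_prod hT hc hA hB) (red_hg hT hc A) (red_hg hT hc B) (ev_hg A) (ev_hg B) h h')
    w (cc_of_prod hw)

theorem elem_times (hT : PolH T c) (hc : ∀ z, c z = (starRingEnd ℂ) z) {X₀ : 𝒱.Obj}
    {l : List 𝒱.Obj} (h : ∀ X ∈ X₀ :: l, Nontrivial (T.W.H X) ∧ Elem (hg T X)) :
    Nontrivial (T.W.H (times X₀ l)) ∧ Elem (hg T (times X₀ l)) := by
  induction l generalizing X₀ with
  | nil => exact h X₀ List.mem_cons_self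
  | cons X l ih =>
    refine ih fun Y hY => ?_
    rcases List.mem_cons.1 hY with rfl | hY
    · obtain ⟨h1, h2⟩ := h X₀ List.mem_cons_self
      obtain ⟨h3, h4⟩ := h X (List.mem_cons_of_mem _ List.mem_cons_self)
      exact ⟨nontrivial_prod, elem_prod hT hc h1 h3 h2 h4⟩
    · exact h Y (List.mem_cons_of_mem _ (List.mem_cons_of_mem _ hY))

/-- A general variety and elementary varieties. -/
theorem free_times (hT : PolH T c) (hc : ∀ z, c z = (starRingEnd ℂ) z) {X₀ : 𝒱.Obj}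
    {l : List 𝒱.Obj} (h : ∀ X ∈ X₀ :: l, Nontrivial (T.W.H X) ∧ Elem (hg T X) ∧
      Free2 (hg T Y) (hg T X)) : Free2 (hg T Y) (hg T (times X₀ l)) := by
  induction l generalizing X₀ with
  | nil => exact (h X₀ List.mem_cons_self).2.2
  | cons X l ih =>
    refine ih fun Y' hY => ?_
    rcases List.mem_cons.1 hY with rfl | hY
    · obtain ⟨h1, h2, h5⟩ := h X₀ List.mem_cons_self
      obtain ⟨h3, h4, h6⟩ := h X (List.mem_cons_of_mem _ List.mem_cons_self)
      exact ⟨nontrivial_prod, elem_prod hT hc h1 h3 h2 h4, free_of_prod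
        (free_right (red_prod hT hc h1 h3) (red_hg hT hc _) (red_hg hT hc _) (ev_hg _) (ev_hg _)
          (hasComp_hg hT hc _) (hasComp_hg hT hc _) (hasComp_hg hT hc _) h2 h4 h5 h6)⟩
    · exact h Y' (List.mem_cons_of_mem _ (List.mem_cons_of_mem _ hY))

/-- An elementary variety and general varieties. -/
theorem free_times' (hT : PolH T c) (hc : ∀ z, c z = (starRingEnd ℂ) z) {Z₀ : 𝒱.Obj}
    {l : List 𝒱.Obj} (hX : Elem (hg T X)) (h : ∀ Z ∈ Z₀ :: l, Nontrivial (T.W.H Z) ∧
      Free2 (hg T X) (hg T Z)) : Free2 (hg T X) (hg T (times Z₀ l)) := by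
  induction l generalizing Z₀ with
  | nil => exact (h Z₀ List.mem_cons_self).2
  | cons Z l ih =>
    refine ih fun Y' hY => ?_
    rcases List.mem_cons.1 hY with rfl | hY
    · obtain ⟨h1, h5⟩ := h Z₀ List.mem_cons_self
      obtain ⟨h3, h6⟩ := h Z (List.mem_cons_of_mem _ List.mem_cons_self)
      exact ⟨nontrivial_prod, free_of_prod
        (free_left (red_prod hT hc h1 h3) (red_hg hT hc _) (red_hg hT hc _) (ev_hg _) (ev_hg _)
          (hasComp_hg hT hc _) (twoComp_hg hT hc _ _) hX h5 h6)⟩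
    · exact h Y' (List.mem_cons_of_mem _ (List.mem_cons_of_mem _ hY))

/-- **Independence of products.** -/
theorem free_main (hT : PolH T c) (hc : ∀ z, c z = (starRingEnd ℂ) z) {Z₀ : 𝒱.Obj}
    {l₁ : List 𝒱.Obj} {X₀ : 𝒱.Obj} {l₂ : List 𝒱.Obj} (h1 : ∀ Z ∈ Z₀ :: l₁, Nontrivial (T.W.H Z))
    (h2 : ∀ X ∈ X₀ :: l₂, Nontrivial (T.W.H X) ∧ Elem (hg T X))
    (h : ∀ X ∈ X₀ :: l₂, ∀ Z ∈ Z₀ :: l₁, Free2 (hg T Z) (hg T X)) :
    Free2 (hg T (times Z₀ l₁)) (hg T (times X₀ l₂)) :=
  free_times hT hc fun X hX => ⟨(h2 X hX).1, (h2 X hX).2,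
    (free_times' hT hc (h2 X hX).2 fun Z hZ => ⟨h1 Z hZ, (h X hX Z hZ).symm⟩).symm⟩

/-- **The Hodge classes on the product of independent varieties.** -/
theorem split_of_free (h : Free2 (hg T P) (hg T Q)) :
    (AH.hodgeSys T).C (P.prod Q) ≤ prods T P Q := by
  intro x hx
  have hP : HasRep (hfam T P fun _ : Unit => Q) P {none} := HasRep.single none
  have hQ : HasRep (hfam T P fun _ : Unit => Q) Q {some ()} := HasRep.single (some ())
  refine hodge_prod hP hQ (fun l => ?_) hx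
  have hf : Free (hfam T P fun _ : Unit => Q) none (some ()) :=
    (free_iff (h := hfam T P fun _ : Unit => Q) (a := none) (i := some ())).2 h
  obtain ⟨r, hr, h1, h2⟩ := hf _ (gen_mem (hfam T P (fun _ : Unit => Q) (some ())) l)
  refine ⟨r, hr, ?_, ?_⟩
  · rintro j rfl
    exact h2
  · rintro j rfl
    exact h1

/-! ### Elementary varieties -/

/-- The operator modulo commutators. -/
theorem elem_of {m m' : ℕ} {z : Fin m → ℂ} {g : Fin m → EH T X}
    {z' : Fin m' → ℂ} {g' : Fin m' → EH T X}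
    (hz : ∀ i, ∃ a : T.W.K, z i * z i = algebraMap T.W.K ℂ a)
    (hg' : ∀ i, g' i ∈ der (gen (hg T X)))
    (h : ∀ x, hop T X x = ∑ i, z i • (g i).baseChange ℂ x +
      ∑ i, z' i • (g' i).baseChange ℂ x) : Elem (hg T X) := by
  classical
  rintro w ⟨φ, h1, h2⟩
  have h3 : ∀ l, hg T X l = ∑ i, l (z i) • g i + ∑ i, l (z' i) • g' i := by
    intro l
    apply LinearMap.ext
    intro v
    rw [hg_apply, h, map_add, map_sum, map_sum, LinearMap.add_apply, LinearMap.sum_apply,
      LinearMap.sum_apply]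
    congr 1
    · refine Finset.sum_congr rfl fun i _ => ?_
      rw [LinearMap.baseChange_tmul, TensorProduct.smul_tmul', smul_eq_mul, mul_one, ev_tmul]
      rfl
    · refine Finset.sum_congr rfl fun i _ => ?_
      rw [LinearMap.baseChange_tmul, TensorProduct.smul_tmul', smul_eq_mul, mul_one, ev_tmul]
      rfl
  have h4 : w = ∑ i, algebraMap T.W.K ℂ (φ (g i)) * z i := by
    refine sep_eq (K := T.W.K) fun l => ?_
    rw [← h2, h3, map_add, map_sum, map_sum, map_sum]
    have h5 : ∑ i, φ (l (z' i) • g' i) = 0 := by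
      refine Finset.sum_eq_zero fun i _ => ?_
      rw [map_smul, kill_der h1 (hg' i), smul_zero]
    rw [h5, add_zero]
    refine Finset.sum_congr rfl fun i _ => ?_
    rw [map_smul, smul_eq_mul, lin_mul, mul_comm]
  -- normalisation of one square root
  have h5 : ∀ (z : ℂ), (∃ a : T.W.K, z * z = algebraMap T.W.K ℂ a) → ∀ r : T.W.K,
      ∃ (S : Finset (SqR T.W.K)) (a : SqR T.W.K → T.W.K), algebraMap T.W.K ℂ r * z =
        ∑ z ∈ S, algebraMap T.W.K ℂ (a z) * z.1 := by
    rintro z ⟨a, ha⟩ r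
    by_cases hz0 : z = 0
    · exact ⟨∅, 0, by rw [hz0, mul_zero, Finset.sum_empty]⟩
    · obtain ⟨s, hs, hsz⟩ := rp_rel (K := T.W.K) z
      have hs' : algebraMap T.W.K ℂ s ≠ 0 := (map_ne_zero _).2 hs
      have hrp : rp T.W.K z = algebraMap T.W.K ℂ s⁻¹ * z := by
        rw [map_inv₀]
        field_simp
        rw [mul_comm]
        exact hsz.symm
      refine ⟨{⟨rp T.W.K z, ?_, ⟨s⁻¹ * s⁻¹ * a, ?_⟩, rp_rp z⟩}, fun _ => r * s, ?_⟩
      · intro e
        rw [e, mul_zero] at hsz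
        exact hz0 hsz
      · rw [hrp, map_mul, map_mul, ← ha]
        ring
      · rw [Finset.sum_singleton, map_mul, mul_assoc]
        congr 1
  rw [h4]
  clear h4 h3 h
  have h6 : ∀ s : Finset (Fin m), ∃ (S : Finset (SqR T.W.K)) (a : SqR T.W.K → T.W.K),
      ∑ i ∈ s, algebraMap T.W.K ℂ (φ (g i)) * z i =
        ∑ z ∈ S, algebraMap T.W.K ℂ (a z) * z.1 := by
    intro s
    induction s using Finset.induction_on with
    | empty => exact ⟨∅, 0, by rw [Finset.sum_empty, Finset.sum_empty]⟩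
    | insert i s hi ih =>
      obtain ⟨S, a, hS⟩ := ih
      obtain ⟨S', a', hS'⟩ := h5 (z i) (hz i) (φ (g i))
      rw [Finset.sum_insert hi, hS, hS', sum_two]
      exact ⟨_, _, rfl⟩
  exact h6 Finset.univ

theorem elem_perfect (hp : IsPerfect (gen (hg T X))) : Elem (hg T X) := by
  obtain ⟨m, z, l, hexp⟩ := exists_expansion (hop T X)
  refine elem_of (m := 0) (z := fun _ => 0) (g := fun _ => 0)
    (fun i => i.elim0) (z' := z) (g' := fun i => hg T X (l i))
    (fun i => hp (gen_mem _ (l i))) fun x => ?_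
  rw [Finset.univ_eq_empty, Finset.sum_empty, zero_add, hexp x]
  rfl

theorem elem_irr (hI : Irr (gen (hg T X))) : Elem (hg T X) := by
  rcases hI.cases (gen_isLie _) with h | h
  · exact elem_perfect h
  · obtain ⟨w, J, h1, h2⟩ := lin_at hI h
    refine elem_of (m := 1) (z := fun _ => w) (g := fun _ => J)
      (fun i => h2) (m' := 0) (z' := fun _ => 0) (g' := fun _ => 0) (fun i => i.elim0)
      fun x => ?_
    have h3 : ∀ v : T.W.H X, hop T X (1 ⊗ₜ[T.W.K] v) = w ⊗ₜ[T.W.K] J v := by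
      intro v
      rw [← sub_eq_zero]
      refine ev_sep (K := T.W.K) fun l => ?_
      rw [map_sub, ← hg_apply, h1, ev_tmul, LinearMap.smul_apply, sub_self]
    have h4 : ∑ i : Fin 0, (0 : ℂ) • (0 : EH T X).baseChange ℂ x = 0 := by
      rw [Finset.univ_eq_empty, Finset.sum_empty]
    rw [Fin.sum_univ_one, h4, add_zero]
    clear h4
    induction x using TensorProduct.induction_on with
    | zero => rw [map_zero, map_zero, smul_zero]
    | add x y hx hy => rw [map_add, map_add, smul_add, hx, hy]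
    | tmul z v =>
      have h5 : (z ⊗ₜ[T.W.K] v : CH T X) = z • (1 ⊗ₜ[T.W.K] v) := by
        rw [TensorProduct.smul_tmul', smul_eq_mul, mul_one]
      rw [h5, map_smul, h3, map_smul, LinearMap.baseChange_tmul, TensorProduct.smul_tmul',
        TensorProduct.smul_tmul', TensorProduct.smul_tmul', smul_eq_mul, smul_eq_mul, smul_eq_mul,
        mul_one, mul_comm]

end AH

end Pool.Agent.Q219.HD
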