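import Pool.Agent.Q219.HG.Rel

/-!
# Pairwise independence implies independence
-/

set_option linter.unusedSectionVars false

namespace Pool.Agent.Q219.HD

open Module

variable {K : Type} [Field K] [CharZero K] [Algebra K ℂ] {ι : Type*} {A : Option ι → Type*}
  [∀ j, Ring (A j)] [∀ j, Algebra K (A j)] [∀ j, FiniteDimensional K (A j)]
  {h : ∀ j, (ℂ →ₗ[K] K) →ₗ[K] A j}

/-- Lifting of sums of commutators. -/
theorem lift_der {j : Option ι} {x : A j} (hx : x ∈ der (gen (h j))) :
    ∃ c ∈ der (fam h), c j = x := by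
  refine Submodule.span_induction (p := fun x _ => ∃ c ∈ der (fam h), c j = x) ?_ ?_ ?_ ?_ hx
  · rintro _ ⟨x, hx, y, hy, rfl⟩
    obtain ⟨X, hX, rfl⟩ := fam_lift hx
    obtain ⟨Y, hY, rfl⟩ := fam_lift hy
    exact ⟨X * Y - Y * X, Submodule.subset_span ⟨X, hX, Y, hY, rfl⟩, rfl⟩
  · exact ⟨0, Submodule.zero_mem _, rfl⟩
  · rintro _ _ _ _ ⟨X, hX, rfl⟩ ⟨Y, hY, rfl⟩
    exact ⟨X + Y, Submodule.add_mem _ hX hY, rfl⟩
  · rintro r _ _ ⟨X, hX, rfl⟩
    exact ⟨r • X, Submodule.smul_mem _ _ hX, rfl⟩

theorem der_eval {j : Option ι} {c : ∀ j, A j} (hc : c ∈ der (fam h)) :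
    c j ∈ der (gen (h j)) := by
  refine Submodule.span_induction (p := fun c _ => c j ∈ der (gen (h j))) ?_ ?_ ?_ ?_ hc
  · rintro _ ⟨x, hx, y, hy, rfl⟩
    exact Submodule.subset_span ⟨x j, fam_eval hx, y j, fam_eval hy, rfl⟩
  · exact Submodule.zero_mem _
  · intro x y _ _ hx hy
    exact Submodule.add_mem _ hx hy
  · intro r x _ hx
    exact Submodule.smul_mem _ _ hx

theorem der_comm {j : Option ι} (hj : Comm (gen (h j))) {c : ∀ j, A j}
    (hc : c ∈ der (fam h)) : c j = 0 := by
  have h1 : der (gen (h j)) ≤ ⊥ := by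
    refine Submodule.span_le.2 ?_
    rintro _ ⟨x, hx, y, hy, rfl⟩
    rw [hj x hx y hy, sub_self]
    exact Submodule.zero_mem _
  exact (Submodule.mem_bot _).1 (h1 (der_eval hc))

theorem not_cc {i : ι} {z : SqR K} {J : A (some i)} (hJ : J ≠ 0)
    (hi : ∀ l, h (some i) l = l z.1 • J) (hf : Free h none (some i)) : ¬ CC (h none) z.1 := by
  rintro ⟨φ, h1, h2⟩
  let M : Submodule K (∀ j, A j) :=
    { carrier := {r | r none ∈ gen (h none) ∧ r (some i) = φ (r none) • J}
      zero_mem' := ⟨Submodule.zero_mem _, by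
        change (0 : A (some i)) = φ 0 • J
        rw [map_zero, zero_smul]⟩
      add_mem' := by
        rintro r r' ⟨h1, h2⟩ ⟨h1', h2'⟩
        exact ⟨Submodule.add_mem _ h1 h1', by
          rw [Pi.add_apply, Pi.add_apply, map_add, add_smul, h2, h2']⟩
      smul_mem' := by
        rintro c r ⟨h1, h2⟩
        exact ⟨Submodule.smul_mem _ _ h1, by
          rw [Pi.smul_apply, Pi.smul_apply, map_smul, smul_eq_mul, mul_smul, h2]⟩ }
  have hM : fam h ≤ M := by
    refine gen_le ?_ fun l => ⟨gen_mem _ l, ?_⟩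
    · rintro r ⟨k1, k2⟩ r' ⟨k1', k2'⟩
      refine ⟨gen_isLie _ _ k1 _ k1', ?_⟩
      change r (some i) * r' (some i) - r' (some i) * r (some i) =
        φ (r none * r' none - r' none * r none) • J
      rw [h1 _ k1 _ k1', zero_smul, k2, k2', smul_mul_smul_comm, smul_mul_smul_comm,
        mul_comm (φ (r none)), sub_self]
    · change h (some i) l = φ (h none l) • J
      rw [hi, h2]
  obtain ⟨l, hl⟩ : ∃ l : ℂ →ₗ[K] K, l z.1 ≠ 0 := by
    by_contra hcon
    push Not at hcon
    exact z.2.1 (sep hcon)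
  obtain ⟨r, hr, e1, e2⟩ := hf _ (gen_mem _ l)
  obtain ⟨-, h4⟩ := hM hr
  rw [e2, map_zero, zero_smul, e1, hi] at h4
  exact (smul_ne_zero hl hJ) h4

theorem gen_le_line {i : ι} {z : SqR K} {J : A (some i)}
    (hi : ∀ l, h (some i) l = l z.1 • J) : gen (h (some i)) ≤ Submodule.span K {J} := by
  refine gen_le ?_ fun l => ?_
  · intro x hx y hy
    obtain ⟨a, rfl⟩ := Submodule.mem_span_singleton.1 hx
    obtain ⟨b, rfl⟩ := Submodule.mem_span_singleton.1 hy
    rw [smul_mul_smul_comm, smul_mul_smul_comm, mul_comm a, sub_self]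
    exact Submodule.zero_mem _
  · rw [hi]
    exact Submodule.smul_mem _ _ (Submodule.mem_span_singleton_self J)

theorem comm_of_line {i : ι} {z : SqR K} {J : A (some i)}
    (hi : ∀ l, h (some i) l = l z.1 • J) : Comm (gen (h (some i))) := by
  intro x hx y hy
  obtain ⟨a, rfl⟩ := Submodule.mem_span_singleton.1 (gen_le_line hi hx)
  obtain ⟨b, rfl⟩ := Submodule.mem_span_singleton.1 (gen_le_line hi hy)
  rw [smul_mul_smul_comm, smul_mul_smul_comm, mul_comm a]

theorem free_of_not_cc (hH : HasComp (h none)) {i : ι} {z : SqR K} {J : A (some i)}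
    (hi : ∀ l, h (some i) l = l z.1 • J) (hcc : ¬ CC (h none) z.1) : Free h none (some i) := by
  obtain ⟨l, h1, h2, -⟩ := hH.coord (T := {z}) (fun t ht => by
    rw [Finset.mem_singleton.1 ht]; exact hcc) (Finset.mem_singleton_self z)
  obtain ⟨c, hc, e1⟩ := lift_der h1
  have hcf : c ∈ fam h := der_le fam_isLie hc
  intro x hx
  obtain ⟨a, rfl⟩ := Submodule.mem_span_singleton.1 (gen_le_line hi hx)
  refine ⟨a • ((fun j => h j l) - c), Submodule.smul_mem _ _
    (Submodule.sub_mem _ (fam_mem l) hcf), ?_, ?_⟩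
  · rw [Pi.smul_apply, Pi.sub_apply, der_comm (comm_of_line hi) hc, sub_zero, hi, h2, one_smul]
  · rw [Pi.smul_apply, Pi.sub_apply, e1, sub_self, smul_zero]

open Classical in
/-- **Pairwise independence implies independence.** -/
theorem pairwise {Pr : ι → Prop} (hI : ∀ i, Pr i → Irr (gen (h (some i))))
    (hcm : ∀ i, Pr i → Comm (gen (h (some i))) → LinAt h i) (hH : HasComp (h none))
    {B : Finset ι} {ε : ι → Prop} (hB : ∀ b ∈ B, Pr b ∧ Free h none (some b))
    (hε : ∀ b ∈ B, ∀ b' ∈ B, ¬ Free h (some b) (some b') → (ε b ↔ ε b'))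
    (l : ℂ →ₗ[K] K) : ∃ r ∈ fam h, r none = 0 ∧
      ∀ b ∈ B, (ε b → r (some b) = h (some b) l) ∧ (¬ ε b → r (some b) = 0) := by
  -- the commutative members
  let Act : ι → Prop := fun i => Pr i ∧ Comm (gen (h (some i))) ∧ gen (h (some i)) ≠ ⊥
  have hz : ∀ i : {i // Act i}, ∃ (z : SqR K) (J : A (some i.1)), J ≠ 0 ∧
      ∀ l, h (some i.1) l = l z.1 • J := fun i => (hcm i.1 i.2.1 i.2.2.1).normal i.2.2.2
  choose zz J hJ0 hJ using hz
  -- the numbers which belong to the members of `B`
  set T : Finset (SqR K) := (B.subtype Act).image zz with hT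
  have hcc : ∀ z ∈ T, ¬ CC (h none) z.1 := by
    intro z hz
    obtain ⟨i, hi, rfl⟩ := Finset.mem_image.1 hz
    rw [Finset.mem_subtype] at hi
    exact not_cc (hJ0 i) (hJ i) (hB i.1 hi).2
  have hex : ∀ z : SqR K, ∃ l : ℂ →ₗ[K] K, z ∈ T → (h none l ∈ der (gen (h none)) ∧
      l z.1 = 1 ∧ ∀ t ∈ T, t ≠ z → l t.1 = 0) := by
    intro z
    by_cases hz : z ∈ T
    · obtain ⟨l, hl⟩ := hH.coord hcc hz
      exact ⟨l, fun _ => hl⟩
    · exact ⟨0, fun h => absurd h hz⟩
  choose lz hlz using hex
  let τ : SqR K → K := fun z => if ∃ i : {i // Act i}, i.1 ∈ B ∧ zz i = z ∧ ε i.1 then l z.1 else 0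
  set l' : ℂ →ₗ[K] K := ∑ z ∈ T, τ z • lz z with hl'
  have e5 : ∀ t ∈ T, l' t.1 = τ t := by
    intro t ht
    rw [hl', LinearMap.sum_apply, Finset.sum_eq_single t]
    · rw [LinearMap.smul_apply, (hlz t ht).2.1, smul_eq_mul, mul_one]
    · intro z hz hne
      rw [LinearMap.smul_apply, (hlz z hz).2.2 t ht hne.symm, smul_zero]
    · intro hn
      exact absurd ht hn
  have hder : h none l' ∈ der (gen (h none)) := by
    rw [hl', map_sum]
    refine Submodule.sum_mem _ fun z hz => ?_
    rw [map_smul]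
    exact Submodule.smul_mem _ _ (hlz z hz).1
  obtain ⟨c', hc', e2⟩ := lift_der hder
  set r₀ : ∀ j, A j := (fun j => h j l') - c' with hr₀
  have hr₀m : r₀ ∈ fam h := Submodule.sub_mem _ (fam_mem l') (der_le fam_isLie hc')
  have hr₀n : r₀ none = 0 := by
    rw [hr₀, Pi.sub_apply, e2, sub_self]
  have hr₀A : ∀ i : {i // Act i}, r₀ (some i.1) = l' (zz i).1 • J i := by
    intro i
    rw [hr₀, Pi.sub_apply, der_comm i.2.2.1 hc', sub_zero, hJ i]
  have hcomm : ∀ b ∈ B, Comm (gen (h (some b))) → (ε b → r₀ (some b) = h (some b) l) ∧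
      (¬ ε b → r₀ (some b) = 0) := by
    intro b hb hbc
    by_cases h0 : gen (h (some b)) = ⊥
    · have h1 : r₀ (some b) ∈ gen (h (some b)) := fam_eval hr₀m
      have h2 : h (some b) l ∈ gen (h (some b)) := gen_mem _ l
      rw [h0, Submodule.mem_bot] at h1 h2
      exact ⟨fun _ => h1.trans h2.symm, fun _ => h1⟩
    · set i : {i // Act i} := ⟨b, (hB b hb).1, hbc, h0⟩ with hi
      have h1 : zz i ∈ T := Finset.mem_image_of_mem _ (Finset.mem_subtype.2 hb)
      have h2 : r₀ (some b) = l' (zz i).1 • J i := hr₀A i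
      have h3 : h (some b) l = l (zz i).1 • J i := hJ i l
      rw [e5 _ h1] at h2
      constructor
      · intro hεb
        have h4 : τ (zz i) = l (zz i).1 := if_pos ⟨i, hb, rfl, hεb⟩
        rw [h2, h3, h4]
      · intro hεb
        have h4 : τ (zz i) = 0 := by
          refine if_neg ?_
          rintro ⟨i', hi'B, he, hε'⟩
          refine hεb ((hε i'.1 hi'B b hb ?_).1 hε')
          refine not_free_of_eq (hJ0 i') (hJ0 i) (hJ i') fun l => ?_
          rw [he]
          exact hJ i l
        rw [h2, h4, zero_smul]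
  -- the other members
  set Ba : Finset ι := B.filter fun b => Comm (gen (h (some b))) with hBa
  set Bn : Finset ι := B.filter fun b => ¬ Comm (gen (h (some b))) with hBn
  have hBn1 : ∀ b ∈ Bn, b ∈ B ∧ ¬ Comm (gen (h (some b))) := fun b hb => Finset.mem_filter.1 hb
  have hBn2 : ∀ b ∈ Bn, IsPerfect (gen (h (some b))) := fun b hb =>
    ((hI b (hB b (hBn1 b hb).1).1).cases (gen_isLie _)).resolve_right (hBn1 b hb).2
  have hBn3 : ∀ b ∈ Bn, gen (h (some b)) ≠ ⊥ := by
    intro b hb h0
    apply (hBn1 b hb).2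
    intro x hx y hy
    rw [h0, Submodule.mem_bot] at hx hy
    rw [hx, hy]
  obtain ⟨R, hR1, hR2, hRmax⟩ := exists_reps Bn
    (P := fun R => ∀ i ∈ R, ∀ j ∈ R, i ≠ j → Free h (some i) (some j))
    (fun i hi => absurd hi (Finset.notMem_empty i))
  have hRd : ∀ b ∈ Bn, ∃ X ∈ R, ¬ Free h (some X) (some b) := by
    intro b hb
    by_contra hcon
    push Not at hcon
    have hbR : b ∉ R := by
      intro hbR
      apply hBn3 b hb
      rw [Submodule.eq_bot_iff]
      intro x hx
      obtain ⟨r, -, h2, h3⟩ := hcon b hbR x hx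
      rw [← h2, h3]
    have h1 : (insert b R).card ≤ R.card := by
      refine hRmax _ (Finset.insert_subset hb hR1) fun i hi j hj hij => ?_
      rcases Finset.mem_insert.1 hi with hi | hi
      · rcases Finset.mem_insert.1 hj with hj | hj
        · exact absurd (hi.trans hj.symm) hij
        · rw [hi]
          exact free_symm (hcon j hj)
      · rcases Finset.mem_insert.1 hj with hj | hj
        · rw [hj]
          exact hcon i hi
        · exact hR2 i hi j hj hij
    rw [Finset.card_insert_of_notMem hbR] at h1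
    omega
  let tg : ∀ i, A (some i) := fun i => if ε i then h (some i) l else 0
  have htg : ∀ i, tg i ∈ gen (h (some i)) := by
    intro i
    by_cases hi : ε i
    · have : tg i = h (some i) l := if_pos hi
      rw [this]
      exact gen_mem _ l
    · have : tg i = 0 := if_neg hi
      rw [this]
      exact Submodule.zero_mem _
  have hq : ∀ X : ι, ∃ q : ∀ j, A j, X ∈ R → q ∈ fam h ∧ q (some X) = tg X - r₀ (some X) ∧
      q none = 0 ∧ (∀ b ∈ Ba, q (some b) = 0) ∧ ∀ X' ∈ R, X' ≠ X → q (some X') = 0 := by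
    intro X
    by_cases hX : X ∈ R
    · have hXB := hBn1 X (hR1 hX)
      have hXP := hB X hXB.1
      obtain ⟨q, hq1, hq2, hq3⟩ := kill (h := h) (i := some X) (hBn2 X (hR1 hX))
        (insert none ((Ba.image some) ∪ ((R.erase X).image some)))
        (fun a ha => by
          rcases Finset.mem_insert.1 ha with rfl | ha
          · exact hXP.2
          · rcases Finset.mem_union.1 ha with ha | ha
            · obtain ⟨b, hb, rfl⟩ := Finset.mem_image.1 ha
              exact free_of_comm (hBn2 X (hR1 hX)) (Finset.mem_filter.1 hb).2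
            · obtain ⟨X', hX', rfl⟩ := Finset.mem_image.1 ha
              exact hR2 X' (Finset.mem_of_mem_erase hX') X hX (Finset.ne_of_mem_erase hX'))
        (tg X - r₀ (some X)) (Submodule.sub_mem _ (htg X) (fam_eval hr₀m))
      refine ⟨q, fun _ => ⟨hq1, hq2, hq3 _ (Finset.mem_insert_self _ _),
        fun b hb => ?_, fun X' hX' hne => ?_⟩⟩
      · exact hq3 _ (Finset.mem_insert_of_mem (Finset.mem_union_left _
          (Finset.mem_image_of_mem _ hb)))
      · exact hq3 _ (Finset.mem_insert_of_mem (Finset.mem_union_right _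
          (Finset.mem_image_of_mem _ (Finset.mem_erase.2 ⟨hne, hX'⟩))))
    · exact ⟨0, fun h => absurd h hX⟩
  choose q hq using hq
  set r : ∀ j, A j := r₀ + ∑ X ∈ R, q X with hr
  have hrm : r ∈ fam h := Submodule.add_mem _ hr₀m (Submodule.sum_mem _ fun X hX => (hq X hX).1)
  refine ⟨r, hrm, ?_, fun b hb => ?_⟩
  · rw [hr, Pi.add_apply, hr₀n, zero_add, Finset.sum_apply]
    exact Finset.sum_eq_zero fun X hX => (hq X hX).2.2.1
  · by_cases hbc : Comm (gen (h (some b)))
    · have h1 : r (some b) = r₀ (some b) := by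
        rw [hr, Pi.add_apply, Finset.sum_apply, Finset.sum_eq_zero, add_zero]
        intro X hX
        exact (hq X hX).2.2.2.1 b (Finset.mem_filter.2 ⟨hb, hbc⟩)
      rw [h1]
      exact hcomm b hb hbc
    · have hbn : b ∈ Bn := Finset.mem_filter.2 ⟨hb, hbc⟩
      obtain ⟨X, hX, hXb⟩ := hRd b hbn
      have h1 : r (some X) = tg X := by
        rw [hr, Pi.add_apply, Finset.sum_apply, Finset.sum_eq_single X]
        · rw [(hq X hX).2.1, add_sub_cancel]
        · intro X' hX' hne
          exact (hq X' hX').2.2.2.2 X hX hne.symm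
        · intro hn
          exact absurd hX hn
      have h2 := hε X (hBn1 X (hR1 hX)).1 b hb hXb
      constructor
      · intro hεb
        have h3 : tg X = h (some X) l := if_pos (h2.2 hεb)
        have h4 : r - (fun j => h j l) ∈ fam h := Submodule.sub_mem _ hrm (fam_mem l)
        have h5 := graph (hI b (hB b hb).1) hXb h4 (by rw [Pi.sub_apply, h1, h3, sub_self])
        rw [Pi.sub_apply] at h5
        exact sub_eq_zero.1 h5
      · intro hεb
        have h3 : tg X = 0 := if_neg fun h => hεb (h2.1 h)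
        exact graph (hI b (hB b hb).1) hXb hrm (h1.trans h3)

/-! ### The number of dependent members -/

theorem range_le_of_ker {D W W' : Type*} [AddCommGroup D] [Module K D] [AddCommGroup W]
    [Module K W] [AddCommGroup W'] [Module K W'] [FiniteDimensional K W]
    [FiniteDimensional K W'] (p : D →ₗ[K] W) (q : D →ₗ[K] W')
    (hk : ∀ x, p x = 0 → q x = 0) :
    finrank K (LinearMap.range q) ≤ finrank K (LinearMap.range p) := by
  obtain ⟨s, hs⟩ := p.rangeRestrict.exists_rightInverse_of_surjective (LinearMap.range_rangeRestrict p)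
  have h1 : ∀ x, q x = (q ∘ₗ s) (p.rangeRestrict x) := by
    intro x
    rw [LinearMap.comp_apply, ← sub_eq_zero, ← map_sub]
    apply hk
    have h2 := LinearMap.congr_fun hs (p.rangeRestrict x)
    rw [map_sub, sub_eq_zero]
    exact (congrArg Subtype.val h2).symm
  have h3 : LinearMap.range q ≤ LinearMap.range (q ∘ₗ s) := by
    rintro _ ⟨x, rfl⟩
    exact ⟨_, (h1 x).symm⟩
  exact (Submodule.finrank_mono h3).trans (LinearMap.finrank_range_le _)

/-- The perfect members which depend on the member `none`. -/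
theorem count_perfect {S : Finset ι}
    (hp : ∀ i ∈ S, IsPerfect (gen (h (some i))) ∧ Irr (gen (h (some i))) ∧
      ¬ Free h none (some i))
    (hS : ∀ i ∈ S, ∀ j ∈ S, i ≠ j → Free h (some i) (some j)) :
    ∑ i ∈ S, finrank K (gen (h (some i))) ≤ finrank K (der (gen (h none))) := by
  classical
  let D : Submodule K (∀ j, A j) := der (fam h)
  let p : D →ₗ[K] A none := (LinearMap.proj none) ∘ₗ D.subtype
  let q : D →ₗ[K] (∀ i : S, A (some i.1)) := LinearMap.pi fun i =>
    (LinearMap.proj (some i.1)) ∘ₗ D.subtype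
  have hk : ∀ x, p x = 0 → q x = 0 := by
    intro x hx
    funext i
    exact graph (hp i.1 i.2).2.1 (hp i.1 i.2).2.2 (der_le fam_isLie x.2) hx
  have h1 := range_le_of_ker p q hk
  have h2 : LinearMap.range p ≤ der (gen (h none)) := by
    rintro _ ⟨x, rfl⟩
    exact der_eval x.2
  have h3 : ∀ i : S, ∀ x ∈ gen (h (some i.1)), (Pi.single i x : ∀ i : S, A (some i.1)) ∈
      LinearMap.range q := by
    intro i x hx
    have hx' : x ∈ der (gen (h (some i.1))) := (hp i.1 i.2).1 hx
    refine Submodule.span_induction (p := fun x _ =>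
      (Pi.single i x : ∀ i : S, A (some i.1)) ∈ LinearMap.range q) ?_ ?_ ?_ ?_ hx'
    · rintro _ ⟨a, ha, b, hb, rfl⟩
      have hkill : ∀ x ∈ gen (h (some i.1)), ∃ X ∈ fam h, X (some i.1) = x ∧
          ∀ a ∈ (S.erase i.1).image some, X a = 0 :=
        kill (h := h) (hp i.1 i.2).1 _ fun a ha => by
          obtain ⟨j, hj, rfl⟩ := Finset.mem_image.1 ha
          exact hS j (Finset.mem_of_mem_erase hj) i.1 i.2 (Finset.ne_of_mem_erase hj)
      obtain ⟨X, hX, rfl, hX'⟩ := hkill a ha
      obtain ⟨Y, hY, rfl, hY'⟩ := hkill b hb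
      refine ⟨⟨X * Y - Y * X, Submodule.subset_span ⟨X, hX, Y, hY, rfl⟩⟩, ?_⟩
      funext j
      change X (some j.1) * Y (some j.1) - Y (some j.1) * X (some j.1) = _
      by_cases hj : j = i
      · subst hj
        rw [Pi.single_eq_same]
      · rw [Pi.single_eq_of_ne hj]
        have h4 : (some j.1) ∈ (S.erase i.1).image some := Finset.mem_image_of_mem _
          (Finset.mem_erase.2 ⟨fun e => hj (Subtype.ext e), j.2⟩)
        rw [hX' _ h4, hY' _ h4, mul_zero, sub_zero]
    · rw [Pi.single_zero]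
      exact Submodule.zero_mem _
    · intro a b _ _ ha hb
      rw [Pi.single_add]
      exact Submodule.add_mem _ ha hb
    · intro r a _ ha
      have h4 : (Pi.single i (r • a) : ∀ i : S, A (some i.1)) = r • Pi.single i a := by
        funext j
        rw [Pi.smul_apply]
        by_cases hj : j = i
        · subst hj
          rw [Pi.single_eq_same, Pi.single_eq_same]
        · rw [Pi.single_eq_of_ne hj, Pi.single_eq_of_ne hj, smul_zero]
      rw [h4]
      exact Submodule.smul_mem _ _ ha
  let E : (∀ i : S, gen (h (some i.1))) →ₗ[K] LinearMap.range q :=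
    LinearMap.codRestrict _ (LinearMap.pi fun i : S =>
      (gen (h (some i.1))).subtype ∘ₗ LinearMap.proj i) (by
      intro x
      have h4 : (LinearMap.pi fun i : S => (gen (h (some i.1))).subtype ∘ₗ LinearMap.proj i) x =
          ∑ i : S, (Pi.single i (x i).1 : ∀ i : S, A (some i.1)) := by
        funext i
        rw [Finset.sum_apply, Finset.sum_eq_single i]
        · rw [Pi.single_eq_same]
          rfl
        · intro j _ hj
          rw [Pi.single_eq_of_ne hj.symm]
        · intro hn
          exact absurd (Finset.mem_univ i) hn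
      rw [h4]
      exact Submodule.sum_mem _ fun i _ => h3 i _ (x i).2)
  have hE : Function.Injective E := by
    intro x y hxy
    funext i
    exact Subtype.ext (congrFun (congrArg Subtype.val hxy) i)
  have h5 := LinearMap.finrank_le_finrank_of_injective hE
  rw [Module.finrank_pi_fintype] at h5
  rw [← Finset.sum_coe_sort S]
  exact h5.trans (h1.trans (Submodule.finrank_mono h2))

/-- The commutative members which depend on the member `none`. -/
theorem count_comm (hH : HasComp (h none)) {S : Finset ι}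
    (hp : ∀ i ∈ S, Comm (gen (h (some i))) ∧ LinAt h i ∧ gen (h (some i)) ≠ ⊥ ∧
      ¬ Free h none (some i))
    (hS : ∀ i ∈ S, ∀ j ∈ S, i ≠ j → Free h (some i) (some j)) :
    ∑ i ∈ S, finrank K (gen (h (some i))) + finrank K (der (gen (h none))) ≤
      finrank K (gen (h none)) := by
  classical
  have hz : ∀ i : S, ∃ (z : SqR K) (J : A (some i.1)), J ≠ 0 ∧
      ∀ l, h (some i.1) l = l z.1 • J := fun i => (hp i.1 i.2).2.1.normal (hp i.1 i.2).2.2.1
  choose zz J hJ0 hJ using hz
  have hcc : ∀ i : S, CC (h none) (zz i).1 := by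
    intro i
    by_contra hcon
    exact (hp i.1 i.2).2.2.2 (free_of_not_cc hH (hJ i) hcon)
  choose φ hφ1 hφ2 using hcc
  have hinj : Function.Injective zz := by
    intro i j hij
    by_contra hne
    refine not_free_of_eq (hJ0 i) (hJ0 j) (hJ i) (fun l => ?_)
      (hS i.1 i.2 j.1 j.2 fun e => hne (Subtype.ext e))
    rw [hij]
    exact hJ j l
  let Θ : gen (h none) →ₗ[K] (S → K) := LinearMap.pi fun i => φ i ∘ₗ (gen (h none)).subtype
  have hsur : LinearMap.range Θ = ⊤ := by
    by_contra hne
    obtain ⟨ψ, hψ0, hψ⟩ := Submodule.exists_le_ker_of_lt_top _ (lt_top_iff_ne_top.2 hne)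
    have h1 : ∀ l : ℂ →ₗ[K] K, l (∑ i : S, algebraMap K ℂ (ψ (Pi.single i 1)) * (zz i).1) = 0 := by
      intro l
      have h2 : ψ (Θ ⟨h none l, gen_mem _ l⟩) = 0 := hψ ⟨_, rfl⟩
      have h3 : Θ ⟨h none l, gen_mem _ l⟩ =
          ∑ i : S, (l (zz i).1) • (Pi.single i (1 : K) : S → K) := by
        funext i
        change φ i (h none l) = _
        rw [hφ2, Finset.sum_apply, Finset.sum_eq_single i]
        · rw [Pi.smul_apply, Pi.single_eq_same, smul_eq_mul, mul_one]
        · intro t' _ hne'
          rw [Pi.smul_apply, Pi.single_eq_of_ne hne'.symm, smul_zero]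
        · intro hn
          exact absurd (Finset.mem_univ i) hn
      rw [h3, map_sum] at h2
      rw [map_sum, ← h2]
      refine Finset.sum_congr rfl fun t _ => ?_
      rw [lin_mul, map_smul, smul_eq_mul, mul_comm]
    have h4 := sep h1
    have h5 : LinearIndependent K fun i : S => (zz i).1 :=
      (sqR_indep (K := K)).comp zz hinj
    have h6 := Fintype.linearIndependent_iff.1 h5 (fun i => ψ (Pi.single i 1))
      ((Finset.sum_congr rfl fun i _ => Algebra.smul_def _ _).trans h4)
    apply hψ0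
    apply (Pi.basisFun K S).ext
    intro t
    rw [Pi.basisFun_apply, h6 t, LinearMap.zero_apply]
  have h1 := LinearMap.finrank_range_add_finrank_ker Θ
  rw [hsur, finrank_top, Module.finrank_fintype_fun_eq_card, Fintype.card_coe] at h1
  have h2 : finrank K (der (gen (h none))) ≤ finrank K (LinearMap.ker Θ) := by
    let E : der (gen (h none)) →ₗ[K] LinearMap.ker Θ :=
      LinearMap.codRestrict _ (Submodule.inclusion (der_le (gen_isLie _))) (by
        intro x
        rw [LinearMap.mem_ker]
        funext i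
        change φ i x.1 = 0
        refine Submodule.span_induction (p := fun x _ => φ i x = 0) ?_ ?_ ?_ ?_ x.2
        · rintro _ ⟨a, ha, b, hb, rfl⟩
          exact hφ1 i a ha b hb
        · exact map_zero _
        · intro a b _ _ ha hb
          rw [map_add, ha, hb, add_zero]
        · intro r a _ ha
          rw [map_smul, ha, smul_zero])
    refine LinearMap.finrank_le_finrank_of_injective (f := E) ?_
    intro x y hxy
    have h3 := congrArg (fun t : LinearMap.ker Θ => t.1.1) hxy
    exact Subtype.ext h3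
  have h3 : ∀ i ∈ S, finrank K (gen (h (some i))) ≤ 1 := by
    intro i hi
    refine (Submodule.finrank_mono (gen_le_line (hJ ⟨i, hi⟩))).trans ?_
    exact (finrank_span_singleton (hJ0 ⟨i, hi⟩)).le
  have h4 : ∑ i ∈ S, finrank K (gen (h (some i))) ≤ S.card := by
    refine (Finset.sum_le_sum h3).trans ?_
    rw [Finset.sum_const, smul_eq_mul, mul_one]
  omega

/-- **The dependent members.** -/
theorem count_all {Pr : ι → Prop} (hI : ∀ i, Pr i → Irr (gen (h (some i))))
    (hcm : ∀ i, Pr i → Comm (gen (h (some i))) → LinAt h i) (hH : HasComp (h none))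
    {S : Finset ι} (hp : ∀ i ∈ S, Pr i ∧ gen (h (some i)) ≠ ⊥ ∧ ¬ Free h none (some i))
    (hS : ∀ i ∈ S, ∀ j ∈ S, i ≠ j → Free h (some i) (some j)) :
    ∑ i ∈ S, finrank K (gen (h (some i))) ≤ finrank K (gen (h none)) := by
  classical
  have h1 := count_comm hH (S := S.filter fun i => Comm (gen (h (some i))))
    (fun i hi => by
      obtain ⟨hi, hc⟩ := Finset.mem_filter.1 hi
      exact ⟨hc, hcm i (hp i hi).1 hc, (hp i hi).2⟩)
    (fun i hi j hj => hS i (Finset.mem_filter.1 hi).1 j (Finset.mem_filter.1 hj).1)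
  have h2 := count_perfect (h := h) (S := S.filter fun i => ¬ Comm (gen (h (some i))))
    (fun i hi => by
      obtain ⟨hi, hc⟩ := Finset.mem_filter.1 hi
      exact ⟨((hI i (hp i hi).1).cases (gen_isLie _)).resolve_right hc, hI i (hp i hi).1,
        (hp i hi).2.2⟩)
    (fun i hi j hj => hS i (Finset.mem_filter.1 hi).1 j (Finset.mem_filter.1 hj).1)
  rw [← Finset.sum_filter_add_sum_filter_not S (fun i => Comm (gen (h (some i))))]
  omega

end Pool.Agent.Q219.HD
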