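import Pool.Agent.Q219.HG.Geo
import Pool.Agent.Q219.HG.Pws

/-!
# Hodge classes on products, pairwise independence
-/

open CategoryTheory AlgebraicGeometry TensorProduct

universe u

namespace Pool.Agent.Q219.HD

open Module
open Pool.Agent.H914 Pool.Agent.H914.VarClass Pool.Agent.H914.VarClass.Obj
  Pool.Agent.H914.WeilCohomology
open Pool.Agent.Y133.Half
open Pool.Agent.Y121
open Pool.Agent.Q50.BL
open Pool.Agent.Q60.HDS (power)

variable {k : Type u} [Field k] {𝒱 : VarClass k} {ops : CycleOps 𝒱}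

section AH

variable {T : AH.HodgeTheory ops} {X Y Z E : 𝒱.Obj} {c : ℂ ≃ₐ[T.W.K] ℂ}

theorem hasComp_hg (hT : PolH T c) (hc : ∀ z, c z = (starRingEnd ℂ) z) (X : 𝒱.Obj) :
    HasComp (hg T X) := by
  obtain ⟨Q, hQ⟩ := exists_pol hT X
  obtain ⟨l, hl⟩ := exists_lev T X
  obtain ⟨e, he⟩ := exists_dec hl.nod
  exact hasComp hc hQ he

theorem linAt_hfam {X : 𝒱.Obj} (hI : Irr (gen (hg T X))) (hC : Comm (gen (hg T X))) :
    LinAt (hfam T Z (id : 𝒱.Obj → 𝒱.Obj)) X := lin_at hI hC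

theorem bot_of_free2 {A : Type*} [Ring A] [Algebra T.W.K A] {f : Lam T →ₗ[T.W.K] A}
    (hf : Free2 f f) : gen f = ⊥ := by
  rw [Submodule.eq_bot_iff]
  intro x hx
  have h1 := hf x hx
  let M : Submodule T.W.K (A × A) :=
    { carrier := {p | p.1 = p.2}
      zero_mem' := rfl
      add_mem' := by
        rintro p q hp hq
        change p.1 + q.1 = p.2 + q.2
        rw [show p.1 = p.2 from hp, show q.1 = q.2 from hq]
      smul_mem' := by
        rintro r p hp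
        change r • p.1 = r • p.2
        rw [show p.1 = p.2 from hp] }
  have hM : gen (f.prod f) ≤ M := by
    refine gen_le ?_ fun l => rfl
    intro p hp q hq
    change p.1 * q.1 - q.1 * p.1 = p.2 * q.2 - q.2 * p.2
    rw [show p.1 = p.2 from hp, show q.1 = q.2 from hq]
  exact (hM h1).symm

theorem hfree {X Y : 𝒱.Obj} : Free (hfam T Z (id : 𝒱.Obj → 𝒱.Obj)) (some X) (some Y) ↔
    Free2 (hg T X) (hg T Y) :=
  free_iff (h := hfam T Z (id : 𝒱.Obj → 𝒱.Obj)) (a := some X) (i := some Y)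

theorem hfree0 {Y : 𝒱.Obj} : Free (hfam T Z (id : 𝒱.Obj → 𝒱.Obj)) none (some Y) ↔
    Free2 (hg T Z) (hg T Y) :=
  free_iff (h := hfam T Z (id : 𝒱.Obj → 𝒱.Obj)) (a := none) (i := some Y)

/-- **Pairwise independence is enough.** -/
theorem split_main (hT : PolH T c) (hc : ∀ z, c z = (starRingEnd ℂ) z) (Z : 𝒱.Obj) (n : ℕ)
    {l₁ : List 𝒱.Obj} {X₀ : 𝒱.Obj} {l₂ : List 𝒱.Obj} (h1 : ∀ Y ∈ l₁, Irr (gen (hg T Y)))
    (h2 : ∀ X ∈ X₀ :: l₂, Irr (gen (hg T X)) ∧ Free2 (hg T Z) (hg T X) ∧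
      ∀ Y ∈ l₁, Free2 (hg T Y) (hg T X)) :
    (AH.hodgeSys T).C ((times (power Z n) l₁).prod (times X₀ l₂)) ≤
      prods T (times (power Z n) l₁) (times X₀ l₂) := by
  classical
  intro x hx
  set h : ∀ j : Option 𝒱.Obj, Lam T →ₗ[T.W.K] EH T (cons Z (id : 𝒱.Obj → 𝒱.Obj) j) :=
    hfam T Z (id : 𝒱.Obj → 𝒱.Obj) with hh
  have hZ : HasRep h Z {none} := HasRep.single none
  have hX : ∀ X : 𝒱.Obj, HasRep h X {some X} := fun X => HasRep.single (some X)
  have hP : HasRep h (times (power Z n) l₁) ({none} ∪ {j | ∃ Y ∈ l₁, j = some Y}) := by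
    refine (hZ.power n).times fun Y hY => (hX Y).mono ?_
    rintro j rfl
    exact ⟨Y, hY, rfl⟩
  have hQ : HasRep h (times X₀ l₂) {j | ∃ X ∈ X₀ :: l₂, j = some X} := by
    have h3 : ∀ X ∈ X₀ :: l₂, HasRep h X {j | ∃ X ∈ X₀ :: l₂, j = some X} := by
      intro X hX'
      refine (hX X).mono ?_
      rintro j rfl
      exact ⟨X, hX', rfl⟩
    have h4 := (h3 X₀ List.mem_cons_self).times (l := l₂)
      (t := {j | ∃ X ∈ X₀ :: l₂, j = some X}) fun X hX' => h3 X (List.mem_cons_of_mem _ hX')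
    rwa [Set.union_self] at h4
  refine hodge_prod hP hQ (fun l => ?_) hx
  set B : Finset 𝒱.Obj := (l₁.toFinset.filter fun Y => Free h none (some Y)) ∪
    (X₀ :: l₂).toFinset with hB
  have hB1 : ∀ b ∈ B, (b ∈ l₁ ∧ Free h none (some b)) ∨ b ∈ X₀ :: l₂ := by
    intro b hb
    rcases Finset.mem_union.1 hb with hb | hb
    · obtain ⟨h3, h4⟩ := Finset.mem_filter.1 hb
      exact Or.inl ⟨List.mem_toFinset.1 h3, h4⟩
    · exact Or.inr (List.mem_toFinset.1 hb)
  obtain ⟨r, hr, hr0, hrb⟩ := pairwise (h := h) (Pr := fun X => Irr (gen (hg T X)))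
    (fun i hi => hi) (fun i hi hc => linAt_hfam hi hc) (hasComp_hg hT hc Z) (B := B)
    (ε := fun b => b ∈ X₀ :: l₂) (fun b hb => by
      rcases hB1 b hb with ⟨h3, h4⟩ | h3
      · exact ⟨h1 b h3, h4⟩
      · exact ⟨(h2 b h3).1, hfree0.2 (h2 b h3).2.1⟩) (fun b hb b' hb' hd => by
      rcases hB1 b hb with ⟨h3, -⟩ | h3
      · rcases hB1 b' hb' with ⟨h4, -⟩ | h4
        · constructor
          · intro h5
            exact absurd (hfree.2 ((h2 b h5).2.2 b' h4).symm) hd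
          · intro h5
            exact absurd (hfree.2 ((h2 b' h5).2.2 b h3)) hd
        · exact absurd (hfree.2 ((h2 b' h4).2.2 b h3)) hd
      · rcases hB1 b' hb' with ⟨h4, -⟩ | h4
        · exact absurd (hfree.2 ((h2 b h3).2.2 b' h4).symm) hd
        · exact ⟨fun _ => h4, fun _ => h3⟩) l
  refine ⟨r, hr, ?_, ?_⟩
  · rintro j (rfl | ⟨Y, hY, rfl⟩)
    · exact hr0
    · by_cases hf : Free h none (some Y)
      · have hYB : Y ∈ B := Finset.mem_union_left _
          (Finset.mem_filter.2 ⟨List.mem_toFinset.2 hY, hf⟩)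
        by_cases hY2 : Y ∈ X₀ :: l₂
        · have h3 : gen (h (some Y)) = ⊥ := bot_of_free2 ((h2 Y hY2).2.2 Y hY)
          have h4 : r (some Y) ∈ gen (h (some Y)) := fam_eval hr
          rw [h3] at h4
          exact (Submodule.mem_bot _).1 h4
        · exact (hrb Y hYB).2 hY2
      · exact graph (h := h) (i := some Y) (h1 Y hY) hf hr hr0
  · rintro j ⟨X, hX', rfl⟩
    exact (hrb X (Finset.mem_union_right _ (List.mem_toFinset.2 hX'))).1 hX'

/-- **The dependent varieties.** -/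
theorem count_geo (hT : PolH T c) (hc : ∀ z, c z = (starRingEnd ℂ) z) (Z : 𝒱.Obj)
    {S : List 𝒱.Obj} (hS : S.Pairwise fun X Y => Free2 (hg T X) (hg T Y))
    (h2 : ∀ X ∈ S, Irr (gen (hg T X)) ∧ gen (hg T X) ≠ ⊥ ∧ ¬ Free2 (hg T Z) (hg T X)) :
    (S.map fun X => finrank T.W.K (gen (hg T X))).sum ≤ finrank T.W.K (gen (hg T Z)) := by
  classical
  set h : ∀ j : Option 𝒱.Obj, Lam T →ₗ[T.W.K] EH T (cons Z (id : 𝒱.Obj → 𝒱.Obj) j) :=
    hfam T Z (id : 𝒱.Obj → 𝒱.Obj) with hh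
  have hnd : S.Nodup := by
    rw [List.nodup_iff_pairwise_ne]
    refine (List.Pairwise.and_mem.1 hS).imp ?_
    rintro X Y ⟨hX, -, hf⟩ rfl
    exact (h2 X hX).2.1 (bot_of_free2 hf)
  have hsym : Std.Symm fun X Y : 𝒱.Obj => Free2 (hg T X) (hg T Y) := ⟨fun X Y h => Free2.symm h⟩
  have h3 := count_all (h := h) (Pr := fun X => Irr (gen (hg T X)))
    (fun i hi => hi) (fun i hi hc => linAt_hfam hi hc) (hasComp_hg hT hc Z) (S := S.toFinset)
    (fun X hX => by
      obtain ⟨e1, e2, e3⟩ := h2 X (List.mem_toFinset.1 hX)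
      exact ⟨e1, e2, fun hf => e3 (hfree0.1 hf)⟩) (fun X hX Y hY hne =>
      hfree.2 (hS.forall (List.mem_toFinset.1 hX) (List.mem_toFinset.1 hY) hne))
  rw [← List.sum_toFinset _ hnd]
  exact h3

end AH

end Pool.Agent.Q219.HD
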