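import Mathlib

/-!
# The projection of the algebraic numbers to the line of a square root
-/

set_option linter.unusedSectionVars false

namespace Pool.Agent.Q219.HD

open Module Polynomial

section Proj

variable {K L : Type*} [Field K] [Field L] [Algebra K L] [FiniteDimensional K L] [CharZero K]

/-- The component of `x` in the line of `w`. -/
noncomputable def prj (w : L) : L →ₗ[K] L where
  toFun x := (Algebra.trace K L (x / w) / (finrank K L : K)) • w
  map_add' x y := by rw [add_div, map_add, add_div, add_smul]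
  map_smul' c x := by
    rw [smul_div_assoc, map_smul, smul_eq_mul, mul_div_assoc, mul_smul, RingHom.id_apply]

omit [CharZero K] in
theorem prj_apply (w x : L) :
    prj (K := K) w x = (Algebra.trace K L (x / w) / (finrank K L : K)) • w := rfl

theorem prj_self {w : L} (hw : w ≠ 0) : prj (K := K) w w = w := by
  have h1 : (finrank K L : K) ≠ 0 := Nat.cast_ne_zero.2 finrank_pos.ne'
  have h2 : Algebra.trace K L 1 = (finrank K L : K) := by
    have h3 := Algebra.trace_algebraMap_of_basis (Module.finBasis K L) (1 : K)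
    rw [map_one, Fintype.card_fin, nsmul_eq_mul, mul_one] at h3
    exact h3
  rw [prj_apply, div_self hw, h2, div_self h1, one_smul]

variable [IsGalois K L]

theorem prj_zero {w w' : L} (hw : w ≠ 0) (hw2 : ∃ a : K, w * w = algebraMap K L a)
    (hw2' : ∃ a : K, w' * w' = algebraMap K L a) (h : ∀ r : K, w' ≠ algebraMap K L r * w) :
    prj (K := K) w w' = 0 := by
  obtain ⟨a, ha⟩ := hw2
  obtain ⟨a', ha'⟩ := hw2'
  have h1 : w' / w ∉ Set.range (algebraMap K L) := by
    rintro ⟨r, hr⟩
    exact h r (by rw [hr, div_mul_cancel₀ _ hw])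
  rw [IsGalois.mem_range_algebraMap_iff_fixed] at h1
  push Not at h1
  obtain ⟨σ, hσ⟩ := h1
  have h2 : w' / w * (w' / w) = algebraMap K L (a' / a) := by
    rw [div_mul_div_comm, ha, ha', map_div₀]
  have h3 : σ (w' / w) * σ (w' / w) = w' / w * (w' / w) := by
    rw [← map_mul, h2, AlgEquiv.commutes]
  have h4 : σ (w' / w) = -(w' / w) := by
    rcases mul_self_eq_mul_self_iff.1 h3 with h | h
    · exact absurd h hσ
    · exact h
  have h5 : Algebra.trace K L (σ (w' / w)) = Algebra.trace K L (w' / w) :=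
    Algebra.trace_eq_of_algEquiv σ _
  rw [h4, map_neg] at h5
  have h6 : Algebra.trace K L (w' / w) = 0 := by
    have h7 : (2 : K) * Algebra.trace K L (w' / w) = 0 := by
      rw [two_mul]
      nth_rewrite 1 [← h5]
      rw [neg_add_cancel]
    exact (mul_eq_zero.1 h7).resolve_left two_ne_zero
  rw [prj_apply, h6, zero_div, zero_smul]

omit [IsGalois K L] in
theorem prj_gal {w : L} (hw : w ≠ 0) (hw2 : ∃ a : K, w * w = algebraMap K L a) (σ : L ≃ₐ[K] L)
    (x : L) : σ (prj (K := K) w x) = prj (K := K) w (σ x) := by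
  obtain ⟨a, ha⟩ := hw2
  have h3 : σ w * σ w = w * w := by
    rw [← map_mul, ha, AlgEquiv.commutes]
  have key : ∀ ε : K, ε * ε = 1 → σ w = ε • w →
      σ (prj (K := K) w x) = prj (K := K) w (σ x) := by
    intro ε hε he
    have hε0 : ε ≠ 0 := by
      rintro rfl
      rw [mul_zero] at hε
      exact zero_ne_one hε
    have h5 : Algebra.trace K L (σ (x / w)) = Algebra.trace K L (x / w) :=
      Algebra.trace_eq_of_algEquiv σ _
    have h6 : σ x / w = ε • σ (x / w) := by
      rw [map_div₀, he, Algebra.smul_def, Algebra.smul_def]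
      have h7 : algebraMap K L ε ≠ 0 := (_root_.map_ne_zero _).2 hε0
      field_simp
    rw [prj_apply, prj_apply, map_smul, he, h6, map_smul, h5, smul_smul, smul_eq_mul]
    congr 1
    ring
  rcases mul_self_eq_mul_self_iff.1 h3 with h | h
  · exact key 1 (one_mul 1) (by rw [one_smul]; exact h)
  · exact key (-1) (by ring) (by rw [neg_smul, one_smul]; exact h)

omit [CharZero K] [FiniteDimensional K L] in
theorem exists_interp' (s : Finset L) (π : L → L) : ∃ P : L[X], (∀ x ∈ s, P.eval x = π x) ∧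
    P.degree < s.card := by
  classical
  refine ⟨Lagrange.interpolate s (fun x => x) π, fun x hx => ?_, ?_⟩
  · exact Lagrange.eval_interpolate_at_node (v := fun x => x) π (Function.injective_id.injOn) hx
  · exact Lagrange.degree_interpolate_lt (v := fun x => x) π (Function.injective_id.injOn)

/-- Interpolation with coefficients in the ground field. -/
theorem exists_interp {s : Finset L} (hs : ∀ (σ : L ≃ₐ[K] L), ∀ x ∈ s, σ x ∈ s) {π : L → L}
    (hπ : ∀ (σ : L ≃ₐ[K] L) (x : L), σ (π x) = π (σ x)) :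
    ∃ Q : K[X], ∀ x ∈ s, aeval x Q = π x := by
  obtain ⟨P, hP1, hP2⟩ := exists_interp' s π
  have h1 : ∀ σ : L ≃ₐ[K] L, P.map (σ : L →+* L) = P := by
    intro σ
    refine Polynomial.eq_of_degrees_lt_of_eval_finset_eq s ?_ hP2 ?_
    · exact lt_of_le_of_lt degree_map_le hP2
    · intro x hx
      have hx' : σ.symm x ∈ s := hs σ.symm x hx
      have h2 : (P.map (σ : L →+* L)).eval ((σ : L →+* L) (σ.symm x)) =
          (σ : L →+* L) (P.eval (σ.symm x)) := eval_map_apply (σ : L →+* L) (σ.symm x)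
      have h4 : (σ : L →+* L) (σ.symm x) = x := AlgEquiv.apply_symm_apply σ x
      rw [h4, hP1 _ hx'] at h2
      rw [h2, hP1 x hx]
      change σ (π (σ.symm x)) = π x
      rw [hπ, AlgEquiv.apply_symm_apply]
  have h2 : P ∈ lifts (algebraMap K L) := by
    rw [lifts_iff_coeff_lifts]
    intro n
    rw [IsGalois.mem_range_algebraMap_iff_fixed]
    intro σ
    have h3 : (P.map (σ : L →+* L)).coeff n = P.coeff n := by rw [h1 σ]
    rw [coeff_map] at h3
    exact h3
  obtain ⟨Q, hQ⟩ := (mem_lifts _).1 h2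
  refine ⟨Q, fun x hx => ?_⟩
  rw [← eval_map_algebraMap, hQ]
  exact hP1 x hx

/-- An element whose images under all equivariant maps are multiples of it. -/
theorem gal_line {w : L} (hw : w ≠ 0) (h : ∀ π : L →ₗ[K] L,
    (∀ (σ : L ≃ₐ[K] L) (x : L), σ (π x) = π (σ x)) → ∃ r : K, π w = r • w) (σ : L ≃ₐ[K] L) :
    ∃ r : K, r ≠ 0 ∧ σ w = r • w := by
  classical
  -- the equivariant maps
  let θ : L → L →ₗ[K] L := fun u =>
    ∑ τ : L ≃ₐ[K] L, (LinearMap.toSpanSingleton K L (τ u)) ∘ₗ
      ((Algebra.trace K L) ∘ₗ (LinearMap.mulLeft K (τ w⁻¹)))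
  have hθ : ∀ u x, θ u x = ∑ τ : L ≃ₐ[K] L, (Algebra.trace K L (τ w⁻¹ * x)) • τ u := by
    intro u x
    rw [LinearMap.sum_apply]
    rfl
  have hequiv : ∀ u (σ : L ≃ₐ[K] L) (x : L), σ (θ u x) = θ u (σ x) := by
    intro u σ x
    rw [hθ, hθ, map_sum]
    symm
    rw [← Equiv.sum_comp (Equiv.mulLeft σ)]
    refine Finset.sum_congr rfl fun τ _ => ?_
    rw [map_smul]
    change Algebra.trace K L ((σ * τ) w⁻¹ * σ x) • σ (τ u) =
      Algebra.trace K L (τ w⁻¹ * x) • σ (τ u)
    have h1 : Algebra.trace K L ((σ * τ) w⁻¹ * σ x) = Algebra.trace K L (τ w⁻¹ * x) := by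
      have h2 : (σ * τ) w⁻¹ * σ x = σ (τ w⁻¹ * x) := by
        rw [map_mul]
        rfl
      rw [h2]
      exact Algebra.trace_eq_of_algEquiv σ _
    rw [h1]
  set lam : (L ≃ₐ[K] L) → K := fun τ => Algebra.trace K L (τ w⁻¹ * w) with hlam
  have h1 : ∀ u, ∃ r : K, ∑ τ : L ≃ₐ[K] L, lam τ • τ u = r • w := by
    intro u
    obtain ⟨r, hr⟩ := h (θ u) (hequiv u)
    exact ⟨r, by rw [← hr, hθ]⟩
  have h2 : ∀ u, σ w * ∑ τ : L ≃ₐ[K] L, lam τ • τ u =
      w * ∑ τ : L ≃ₐ[K] L, lam (σ⁻¹ * τ) • τ u := by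
    intro u
    obtain ⟨r, hr⟩ := h1 u
    have h3 := congrArg σ hr
    rw [map_sum, map_smul] at h3
    have h4 : ∑ τ : L ≃ₐ[K] L, lam (σ⁻¹ * τ) • τ u = r • σ w := by
      rw [← h3, ← Equiv.sum_comp (Equiv.mulLeft σ)]
      refine Finset.sum_congr rfl fun τ _ => ?_
      rw [map_smul]
      change lam (σ⁻¹ * (σ * τ)) • σ (τ u) = lam τ • σ (τ u)
      rw [inv_mul_cancel_left]
    rw [hr, h4, mul_smul_comm, mul_smul_comm, mul_comm]
  have hind : LinearIndependent L (fun τ : L ≃ₐ[K] L => (τ : L →ₐ[K] L).toLinearMap) :=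
    (linearIndependent_algHom_toLinearMap K L L).comp _ (fun τ τ' h => by
      apply AlgEquiv.ext
      intro x
      exact congrArg (fun f : L →ₐ[K] L => f x) h)
  have h5 := Fintype.linearIndependent_iff.1 hind
    (fun τ => σ w * algebraMap K L (lam τ) - w * algebraMap K L (lam (σ⁻¹ * τ))) (by
      apply LinearMap.ext
      intro u
      rw [LinearMap.sum_apply, LinearMap.zero_apply]
      have h6 := h2 u
      rw [Finset.mul_sum, Finset.mul_sum, ← sub_eq_zero, ← Finset.sum_sub_distrib] at h6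
      rw [← h6]
      refine Finset.sum_congr rfl fun τ _ => ?_
      rw [LinearMap.smul_apply, smul_eq_mul, Algebra.smul_def, Algebra.smul_def, sub_mul,
        mul_assoc, mul_assoc]
      rfl) σ
  have h6 : lam 1 = (finrank K L : K) := by
    have h7 : (1 : L ≃ₐ[K] L) w⁻¹ * w = 1 := by
      change w⁻¹ * w = 1
      exact inv_mul_cancel₀ hw
    have h3 := Algebra.trace_algebraMap_of_basis (Module.finBasis K L) (1 : K)
    rw [map_one, Fintype.card_fin, nsmul_eq_mul, mul_one] at h3
    rw [hlam]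
    change Algebra.trace K L ((1 : L ≃ₐ[K] L) w⁻¹ * w) = _
    rw [h7, h3]
  rw [inv_mul_cancel, sub_eq_zero] at h5
  have hn : (finrank K L : K) ≠ 0 := Nat.cast_ne_zero.2 finrank_pos.ne'
  have h7 : lam σ ≠ 0 := by
    intro h8
    rw [h8, map_zero, mul_zero, h6] at h5
    exact (mul_ne_zero hw ((_root_.map_ne_zero _).2 hn)) h5.symm
  refine ⟨lam 1 / lam σ, div_ne_zero (by rw [h6]; exact hn) h7, ?_⟩
  have h8 : algebraMap K L (lam σ) ≠ 0 := (_root_.map_ne_zero _).2 h7
  rw [Algebra.smul_def, map_div₀, div_mul_eq_mul_div, eq_div_iff h8, h5, mul_comm]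

/-- The square of such an element belongs to the ground field. -/
theorem sq_of_line (hK : ∀ (r : K) (n : ℕ), n ≠ 0 → r ^ n = 1 → r = 1 ∨ r = -1) {w : L}
    (hw : w ≠ 0) (h : ∀ π : L →ₗ[K] L,
    (∀ (σ : L ≃ₐ[K] L) (x : L), σ (π x) = π (σ x)) → ∃ r : K, π w = r • w) :
    ∃ a : K, w * w = algebraMap K L a := by
  have h1 : w * w ∈ Set.range (algebraMap K L) := by
    rw [IsGalois.mem_range_algebraMap_iff_fixed]
    intro σ
    obtain ⟨r, -, hr⟩ := gal_line hw h σ
    have h2 : ∀ n : ℕ, (σ ^ n) w = r ^ n • w := by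
      intro n
      induction n with
      | zero => rw [pow_zero, pow_zero, one_smul]; rfl
      | succ n ih =>
        rw [pow_succ', AlgEquiv.mul_apply, ih, map_smul, hr, smul_smul, pow_succ]
    have h3 := h2 (orderOf σ)
    rw [pow_orderOf_eq_one] at h3
    have h4 : (r ^ orderOf σ) • w = (1 : K) • w := by
      rw [← h3, one_smul]
      rfl
    have h5 : r ^ orderOf σ = 1 := smul_left_injective K hw h4
    rcases hK r _ (orderOf_pos σ).ne' h5 with h6 | h6
    · rw [map_mul, hr, h6, one_smul]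
    · rw [map_mul, hr, h6, neg_smul, one_smul, neg_mul_neg]
  obtain ⟨a, ha⟩ := h1
  exact ⟨a, ha.symm⟩

end Proj

end Pool.Agent.Q219.HD
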