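import Mathlib
import Pool.Agent.Q219.HD.Count

/-!
# Irreducible Lie algebras
-/

set_option autoImplicit false
set_option linter.unusedSectionVars false

open Module

namespace Pool.Agent.Q219.HD

variable {K : Type*} [Field K]

section

variable {R : Type*} [Ring R] [Algebra K R]

/-- There are no proper nonzero ideals. -/
def Irr (G : Submodule K R) : Prop := ∀ P, IsIdeal P G → P = ⊥ ∨ P = G

/-- The elements commute. -/
def Comm (G : Submodule K R) : Prop := ∀ x ∈ G, ∀ y ∈ G, x * y = y * x

theorem Irr.cases {G : Submodule K R} (hI : Irr G) (hL : IsLie G) : IsPerfect G ∨ Comm G := by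
  set P : Submodule K R := Submodule.span K {z : R | ∃ x ∈ G, ∃ y ∈ G, z = x * y - y * x} with hP
  have h1 : P ≤ G := by
    refine Submodule.span_le.2 ?_
    rintro _ ⟨x, hx, y, hy, rfl⟩
    exact hL x hx y hy
  rcases hI P ⟨h1, fun x hx y hy => Submodule.subset_span ⟨x, hx, y, h1 hy, rfl⟩⟩ with h | h
  · right
    intro x hx y hy
    have h2 : x * y - y * x ∈ P := Submodule.subset_span ⟨x, hx, y, hy, rfl⟩
    rw [h, Submodule.mem_bot] at h2
    exact sub_eq_zero.1 h2
  · left
    rw [IsPerfect, ← hP, h]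

theorem Irr.line {G : Submodule K R} (hI : Irr G) (hC : Comm G) :
    ∃ J ∈ G, G = Submodule.span K {J} := by
  by_cases h0 : ∃ J ∈ G, J ≠ 0
  · obtain ⟨J, hJ, hJ0⟩ := h0
    have hle : Submodule.span K {J} ≤ G := (Submodule.span_singleton_le_iff_mem J G).2 hJ
    refine ⟨J, hJ, ?_⟩
    rcases hI (Submodule.span K {J}) ⟨hle, fun x hx y hy => by
      rw [hC x hx y (hle hy), sub_self]
      exact Submodule.zero_mem _⟩ with h | h
    · exact absurd ((Submodule.span_singleton_eq_bot).1 h) hJ0
    · exact h.symm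
  · push Not at h0
    refine ⟨0, G.zero_mem, ?_⟩
    rw [Submodule.span_zero_singleton, Submodule.eq_bot_iff]
    exact h0

end

section

variable {Λ : Type*} [AddCommGroup Λ] [Module K Λ] {J : Type*} {A : J → Type*}
  [∀ j, Ring (A j)] [∀ j, Algebra K (A j)] {h : ∀ j, Λ →ₗ[K] A j}

/-- **The lemma of Goursat.** If the component with index `i` can not be moved independently of the
component with index `a` then it is determined by it. -/
theorem graph {a i : J} (hI : Irr (gen (h i))) (hd : ¬ Free h a i) {r : ∀ j, A j}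
    (hr : r ∈ fam h) (ha : r a = 0) : r i = 0 := by
  let N : Submodule K (∀ j, A j) := fam h ⊓
    LinearMap.ker (LinearMap.proj a : (∀ j, A j) →ₗ[K] A a)
  let P : Submodule K (A i) := N.map (LinearMap.proj i : (∀ j, A j) →ₗ[K] A i)
  have hP : IsIdeal P (gen (h i)) := by
    constructor
    · rintro _ ⟨X, hX, rfl⟩
      exact fam_eval hX.1
    · rintro x hx _ ⟨Y, hY, rfl⟩
      obtain ⟨X, hX, rfl⟩ := fam_lift hx
      refine ⟨X * Y - Y * X, ⟨fam_isLie _ hX _ hY.1, ?_⟩, rfl⟩
      have h1 : Y a = 0 := hY.2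
      change X a * Y a - Y a * X a = 0
      rw [h1, mul_zero, zero_mul, sub_zero]
  rcases hI P hP with h | h
  · have h1 : r i ∈ P := ⟨r, ⟨hr, ha⟩, rfl⟩
    rw [h, Submodule.mem_bot] at h1
    exact h1
  · exfalso
    apply hd
    intro x hx
    rw [← h] at hx
    obtain ⟨X, hX, rfl⟩ := hx
    exact ⟨X, hX.1, rfl, hX.2⟩

theorem free_symm {a i : J} (hf : Free h a i) : Free h i a :=
  free_iff.2 (Free2.symm (free_iff.1 hf))

theorem free_of_bot {a i : J} (hi : gen (h i) = ⊥) : Free h a i := by
  intro x hx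
  rw [hi, Submodule.mem_bot] at hx
  exact ⟨0, Submodule.zero_mem _, hx.symm, rfl⟩

/-- Dependence is transitive. -/
theorem free_trans {s b i : J} (hb : Irr (gen (h b))) (hi : Irr (gen (h i)))
    (hsb : ¬ Free h s b) (hsi : Free h s i) : Free h b i := by
  by_contra hbi
  apply hbi
  apply free_of_bot
  rw [Submodule.eq_bot_iff]
  intro x hx
  obtain ⟨r, hr, rfl, hr0⟩ := hsi x hx
  exact graph hi hbi hr (graph hb hsb hr hr0)

end

section

variable {Λ : Type*} [AddCommGroup Λ] [Module K Λ] {ι : Type*} {A : Option ι → Type*}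
  [∀ j, Ring (A j)] [∀ j, Algebra K (A j)] [∀ j, FiniteDimensional K (A j)]
  {h : ∀ j, Λ →ₗ[K] A j}

/-- The members which depend on the member `none`. -/
def Bad (h : ∀ j, Λ →ₗ[K] A j) (Pr : ι → Prop) (S : Finset ι) : Prop :=
  (∀ i ∈ S, Pr i ∧ IsPerfect (gen (h (some i))) ∧ gen (h (some i)) ≠ ⊥ ∧
    ¬ Free h none (some i)) ∧
  ∀ i ∈ S, ∀ j ∈ S, i ≠ j → Free h (some i) (some j)

theorem Bad.count {Pr : ι → Prop} (hI : ∀ i, Pr i → Irr (gen (h (some i)))) {S : Finset ι}
    (hS : Bad h Pr S) : ∑ i ∈ S, finrank K (gen (h (some i))) ≤ finrank K (gen (h none)) := by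
  classical
  have h1 := count_bad (B := S) (A := fun j => A (j.map Subtype.val))
    (h := fun j : Option S => h (j.map Subtype.val))
    (fun b => (hS.1 b.1 b.2).2.1)
    (fun b b' hbb' => free_iff.2 (free_iff.1 (hS.2 b'.1 b'.2 b.1 b.2
      fun e => hbb' (Subtype.ext e.symm))))
    (fun b hb => (hS.1 b.1 b.2).2.2.2 (free_iff.2
      (free_iff (h := fun j : Option S => h (j.map Subtype.val)) (a := none) (i := some b) |>.1 hb)))
    (fun b => finrank K (gen (h (some b.1))))
    (fun b P hP hne => by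
      rcases hI b.1 (hS.1 b.1 b.2).1 P hP with h2 | h2
      · rw [h2, finrank_bot, zero_add]
        exact le_refl _
      · exact absurd h2 hne)
  rw [Finset.sum_coe_sort S (fun i => finrank K (gen (h (some i))))] at h1
  exact h1

open Classical in
/-- **The exceptional set**, noncommutative members. -/
theorem exists_bad (h : ∀ j, Λ →ₗ[K] A j) {Pr : ι → Prop}
    (hI : ∀ i, Pr i → Irr (gen (h (some i)))) : ∃ S : Finset ι, Bad h Pr S ∧
      ∀ i, Pr i → IsPerfect (gen (h (some i))) → (∀ s ∈ S, Free h (some s) (some i)) →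
        Free h none (some i) := by
  let M : Set ℕ := {n | ∃ S : Finset ι, Bad h Pr S ∧ S.card = n}
  have hne : M.Nonempty := ⟨0, ∅, ⟨fun i hi => absurd hi (Finset.notMem_empty i),
    fun i hi => absurd hi (Finset.notMem_empty i)⟩, Finset.card_empty⟩
  have hbd : BddAbove M := by
    refine ⟨finrank K (gen (h none)), ?_⟩
    rintro _ ⟨S, hS, rfl⟩
    refine le_trans ?_ (hS.count hI)
    rw [Finset.card_eq_sum_ones]
    refine Finset.sum_le_sum fun i hi => ?_
    exact Nat.one_le_iff_ne_zero.2 fun h0 => (hS.1 i hi).2.2.1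
      (Submodule.finrank_eq_zero.1 h0)
  obtain ⟨S, hS, hSc⟩ := Nat.sSup_mem hne hbd
  refine ⟨S, hS, fun i hi hp hf => ?_⟩
  by_contra hcon
  have h0 : gen (h (some i)) ≠ ⊥ := fun h0 => hcon (free_of_bot h0)
  have hiS : i ∉ S := by
    intro hiS
    have h1 := hf i hiS
    apply h0
    rw [Submodule.eq_bot_iff]
    intro x hx
    obtain ⟨r, -, h2, h3⟩ := h1 x hx
    rw [← h2, h3]
  have hB : Bad h Pr (insert i S) := by
    constructor
    · intro j hj
      rcases Finset.mem_insert.1 hj with rfl | hj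
      · exact ⟨hi, hp, h0, hcon⟩
      · exact hS.1 j hj
    · intro j hj j' hj' hjj'
      rcases Finset.mem_insert.1 hj with h1 | hj
      · rcases Finset.mem_insert.1 hj' with h2 | hj'
        · exact absurd (h1.trans h2.symm) hjj'
        · rw [h1]
          exact free_symm (hf j' hj')
      · rcases Finset.mem_insert.1 hj' with h2 | hj'
        · rw [h2]
          exact hf j hj
        · exact hS.2 j hj j' hj' hjj'
  have h1 : (insert i S).card ≤ sSup M := le_csSup hbd ⟨_, hB, rfl⟩
  rw [Finset.card_insert_of_notMem hiS, hSc] at h1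
  omega

end

end Pool.Agent.Q219.HD
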