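import Mathlib
import Pool.Agent.Q219.HG.Irr
import Pool.Agent.Q219.HD.Dec
import Pool.Agent.Q219.HD.CMat

/-!
# The exceptional set for families with irreducible Lie algebras
-/

set_option autoImplicit false
set_option linter.unusedSectionVars false

open Module

namespace Pool.Agent.Q219.HD

/-! ### Square roots up to rational factors -/

section Rep

variable (K : Type) [Field K] [CharZero K] [Algebra K ℂ]

/-- Equality up to a factor in `K`. -/
def propSetoid : Setoid ℂ where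
  r z z' := ∃ c : K, c ≠ 0 ∧ z = algebraMap K ℂ c * z'
  iseqv :=
    { refl := fun z => ⟨1, one_ne_zero, by rw [map_one, one_mul]⟩
      symm := by
        rintro z z' ⟨c, hc, h⟩
        refine ⟨c⁻¹, inv_ne_zero hc, ?_⟩
        have h1 : algebraMap K ℂ c ≠ 0 := (map_ne_zero _).2 hc
        rw [h, ← mul_assoc, map_inv₀, inv_mul_cancel₀ h1, one_mul]
      trans := by
        rintro z z' z'' ⟨c, hc, h⟩ ⟨d, hd, h'⟩
        exact ⟨c * d, mul_ne_zero hc hd, by rw [h, h', map_mul, mul_assoc]⟩ }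

/-- The representative of the class of a number. -/
noncomputable def rp (z : ℂ) : ℂ := Quotient.out (Quotient.mk (propSetoid K) z)

variable {K}

theorem rp_rel (z : ℂ) : ∃ c : K, c ≠ 0 ∧ z = algebraMap K ℂ c * rp K z :=
  (propSetoid K).symm (Quotient.mk_out (s := propSetoid K) z)

theorem rp_eq {z z' : ℂ} {c : K} (hc : c ≠ 0) (h : z = algebraMap K ℂ c * z') :
    rp K z = rp K z' := by
  have h1 : Quotient.mk (propSetoid K) z = Quotient.mk (propSetoid K) z' :=
    Quotient.sound (s := propSetoid K) ⟨c, hc, h⟩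
  rw [rp, h1]
  rfl

theorem rp_rp (z : ℂ) : rp K (rp K z) = rp K z := by
  obtain ⟨c, hc, h⟩ := rp_rel (K := K) z
  exact (rp_eq hc h).symm

variable (K)

/-- The representatives of the square roots of the elements of `K`. -/
def SqR : Type := {z : ℂ // z ≠ 0 ∧ (∃ a : K, z * z = algebraMap K ℂ a) ∧ rp K z = z}

variable {K}

theorem sqR_indep : LinearIndependent K fun z : SqR K => z.1 := by
  refine sqrt_independent (fun z => z.2.1) (fun z => z.2.2.1) fun z z' hne r hr => hne ?_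
  have h0 : r ≠ 0 := by
    rintro rfl
    rw [map_zero, zero_mul] at hr
    exact z.2.1 hr
  apply Subtype.ext
  rw [← z.2.2.2, ← z'.2.2.2]
  exact rp_eq h0 hr

theorem ev_indep : LinearIndependent K fun z : SqR K => Module.Dual.eval K ℂ z.1 :=
  sqR_indep.map' (Module.Dual.eval K ℂ) (Module.eval_ker K ℂ)

end Rep

variable {K : Type} [Field K] [CharZero K] [Algebra K ℂ] {ι : Type*} {A : Option ι → Type*}
  [∀ j, Ring (A j)] [∀ j, Algebra K (A j)] [∀ j, FiniteDimensional K (A j)]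

/-- The commutative members which are not exceptional can be moved independently. -/
def Sel (h : ∀ j, (ℂ →ₗ[K] K) →ₗ[K] A j) (S : Finset ι) (V : Finset (SqR K)) : Prop :=
  ∀ T : Finset (SqR K), Disjoint V T → ∀ z ∈ T, ∃ l : ℂ →ₗ[K] K, ∃ c ∈ fam h,
    (∀ i, Comm (gen (h (some i))) → c (some i) = 0) ∧ h none l = c none ∧
    (∀ s ∈ S, h (some s) l = c (some s)) ∧ (∀ v ∈ V, l v.1 = 0) ∧ l z.1 = 1 ∧
    ∀ t ∈ T, t ≠ z → l t.1 = 0

variable {h : ∀ j, (ℂ →ₗ[K] K) →ₗ[K] A j}

theorem exists_sel (h : ∀ j, (ℂ →ₗ[K] K) →ₗ[K] A j) (S : Finset ι) : ∃ V, Sel h S V := by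
  classical
  let f' : (ℂ →ₗ[K] K) →ₗ[K] (A none × (∀ s : S, A (some s.1))) :=
    (h none).prod (LinearMap.pi fun s : S => h (some s.1))
  obtain ⟨V, hV⟩ := exists_set_strong (ev_indep (K := K)) f'
  refine ⟨V, fun T hT z hz => ?_⟩
  obtain ⟨l, e1, e2, e3, e4⟩ := hV T hT z hz
  refine ⟨l, 0, Submodule.zero_mem _, fun _ _ => rfl, congrArg Prod.fst e1, fun s hs => ?_, e2,
    e3, e4⟩
  exact congrFun (congrArg Prod.snd e1) ⟨s, hs⟩

theorem Sel.comb {S : Finset ι} {V : Finset (SqR K)} (hV : Sel h S V) {T : Finset (SqR K)}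
    (hT : Disjoint V T) (τ : SqR K → K) : ∃ l : ℂ →ₗ[K] K, ∃ c ∈ fam h,
    (∀ i, Comm (gen (h (some i))) → c (some i) = 0) ∧ h none l = c none ∧
    (∀ s ∈ S, h (some s) l = c (some s)) ∧ (∀ v ∈ V, l v.1 = 0) ∧ ∀ t ∈ T, l t.1 = τ t := by
  classical
  have h1 : ∀ z : SqR K, ∃ l : ℂ →ₗ[K] K, ∃ c : ∀ j, A j, z ∈ T → (c ∈ fam h ∧
    (∀ i, Comm (gen (h (some i))) → c (some i) = 0) ∧ h none l = c none ∧
    (∀ s ∈ S, h (some s) l = c (some s)) ∧ (∀ v ∈ V, l v.1 = 0) ∧ l z.1 = 1 ∧
    ∀ t ∈ T, t ≠ z → l t.1 = 0) := by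
    intro z
    by_cases hz : z ∈ T
    · obtain ⟨l, c, hc⟩ := hV T hT z hz
      exact ⟨l, c, fun _ => hc⟩
    · exact ⟨0, 0, fun h => absurd h hz⟩
  choose l c hlc using h1
  refine ⟨∑ z ∈ T, τ z • l z, ∑ z ∈ T, τ z • c z,
    Submodule.sum_mem _ fun z hz => Submodule.smul_mem _ _ (hlc z hz).1, fun i hi => ?_, ?_,
    fun s hs => ?_, fun v hv => ?_, fun t ht => ?_⟩
  · rw [Finset.sum_apply]
    refine Finset.sum_eq_zero fun z hz => ?_
    rw [Pi.smul_apply, (hlc z hz).2.1 i hi, smul_zero]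
  · rw [map_sum, Finset.sum_apply]
    refine Finset.sum_congr rfl fun z hz => ?_
    rw [map_smul, Pi.smul_apply, (hlc z hz).2.2.1]
  · rw [map_sum, Finset.sum_apply]
    refine Finset.sum_congr rfl fun z hz => ?_
    rw [map_smul, Pi.smul_apply, (hlc z hz).2.2.2.1 s hs]
  · rw [LinearMap.sum_apply]
    refine Finset.sum_eq_zero fun z hz => ?_
    rw [LinearMap.smul_apply, (hlc z hz).2.2.2.2.1 v hv, smul_zero]
  · rw [LinearMap.sum_apply, Finset.sum_eq_single t]
    · rw [LinearMap.smul_apply, (hlc t ht).2.2.2.2.2.1, smul_eq_mul, mul_one]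
    · intro z hz hne
      rw [LinearMap.smul_apply, (hlc z hz).2.2.2.2.2.2 t ht hne.symm, smul_zero]
    · intro hn
      exact absurd ht hn

/-- The description of a commutative member. -/
def LinAt (h : ∀ j, (ℂ →ₗ[K] K) →ₗ[K] A j) (i : ι) : Prop :=
  ∃ (w : ℂ) (J : A (some i)), (∀ l, h (some i) l = l w • J) ∧ ∃ a : K, w * w = algebraMap K ℂ a

theorem LinAt.normal {i : ι} (hi : LinAt h i) (h0 : gen (h (some i)) ≠ ⊥) :
    ∃ (z : SqR K) (J : A (some i)), J ≠ 0 ∧ ∀ l, h (some i) l = l z.1 • J := by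
  obtain ⟨w, J, h1, a, ha⟩ := hi
  have hne : ∃ l, h (some i) l ≠ 0 := by
    by_contra hcon
    push Not at hcon
    apply h0
    rw [eq_bot_iff]
    refine gen_le ?_ fun l => by rw [hcon l]; exact Submodule.zero_mem _
    intro x hx y hy
    rw [(Submodule.mem_bot _).1 hx, zero_mul, mul_zero, sub_zero]
    exact Submodule.zero_mem _
  obtain ⟨l, hl⟩ := hne
  rw [h1] at hl
  have hJ : J ≠ 0 := fun e => hl (by rw [e, smul_zero])
  have hw : w ≠ 0 := fun e => hl (by rw [e, map_zero, zero_smul])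
  obtain ⟨c, hc, hcw⟩ := rp_rel (K := K) w
  have hc' : algebraMap K ℂ c ≠ 0 := (map_ne_zero _).2 hc
  have hrp : rp K w = algebraMap K ℂ c⁻¹ * w := by
    rw [map_inv₀]
    field_simp
    rw [mul_comm]
    exact hcw.symm
  refine ⟨⟨rp K w, ?_, ⟨c⁻¹ * c⁻¹ * a, ?_⟩, rp_rp w⟩, c • J, ?_, fun l => ?_⟩
  · intro e
    rw [e, mul_zero] at hcw
    exact hw hcw
  · rw [hrp, map_mul, map_mul, ← ha]
    ring
  · exact smul_ne_zero hc hJ
  · rw [h1, smul_smul]
    congr 1
    conv_lhs => rw [hcw]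
    rw [lin_mul, mul_comm]

theorem not_free_of_eq {i j : ι} {z : SqR K} {J : A (some i)} {J' : A (some j)} (hJ : J ≠ 0)
    (hJ' : J' ≠ 0) (hi : ∀ l, h (some i) l = l z.1 • J) (hj : ∀ l, h (some j) l = l z.1 • J') :
    ¬ Free h (some i) (some j) := by
  intro hf
  let M : Submodule K (∀ j, A j) :=
    { carrier := {r | ∃ x : K, r (some i) = x • J ∧ r (some j) = x • J'}
      zero_mem' := ⟨0, (zero_smul K J).symm, (zero_smul K J').symm⟩
      add_mem' := by
        rintro r r' ⟨x, h1, h2⟩ ⟨x', h1', h2'⟩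
        exact ⟨x + x', by rw [Pi.add_apply, h1, h1', add_smul], by
          rw [Pi.add_apply, h2, h2', add_smul]⟩
      smul_mem' := by
        rintro c r ⟨x, h1, h2⟩
        exact ⟨c * x, by rw [Pi.smul_apply, h1, smul_smul], by
          rw [Pi.smul_apply, h2, smul_smul]⟩ }
  have hM : fam h ≤ M := by
    refine gen_le ?_ fun l => ⟨l z.1, hi l, hj l⟩
    rintro r ⟨x, h1, h2⟩ r' ⟨x', h1', h2'⟩
    refine ⟨0, ?_, ?_⟩
    · change r (some i) * r' (some i) - r' (some i) * r (some i) = _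
      rw [h1, h1', smul_mul_smul_comm, smul_mul_smul_comm, mul_comm x x', sub_self, zero_smul]
    · change r (some j) * r' (some j) - r' (some j) * r (some j) = _
      rw [h2, h2', smul_mul_smul_comm, smul_mul_smul_comm, mul_comm x x', sub_self, zero_smul]
  obtain ⟨l, hl⟩ : ∃ l : ℂ →ₗ[K] K, l z.1 ≠ 0 := by
    by_contra hcon
    push Not at hcon
    exact z.2.1 (sep hcon)
  obtain ⟨r, hr, h1, h2⟩ := hf _ (gen_mem _ l)
  obtain ⟨x, h3, h4⟩ := hM hr
  rw [h2] at h3
  have hx : x = 0 := (smul_eq_zero.1 h3.symm).resolve_right hJ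
  rw [h4, hx, zero_smul, hj] at h1
  exact (smul_ne_zero hl hJ') h1.symm

theorem exists_reps {ι : Type*} (B : Finset ι) {P : Finset ι → Prop} (h0 : P ∅) :
    ∃ R ⊆ B, P R ∧ ∀ R' ⊆ B, P R' → R'.card ≤ R.card := by
  classical
  obtain ⟨R, hR, hRmax⟩ := Finset.exists_max_image (B.powerset.filter P) Finset.card
    ⟨∅, Finset.mem_filter.2 ⟨Finset.empty_mem_powerset _, h0⟩⟩
  obtain ⟨hR1, hR2⟩ := Finset.mem_filter.1 hR
  exact ⟨R, Finset.mem_powerset.1 hR1, hR2, fun R' h1 h2 =>
    hRmax _ (Finset.mem_filter.2 ⟨Finset.mem_powerset.2 h1, h2⟩)⟩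

open Classical in
/-- **The exceptional set.** -/
theorem select {Pr : ι → Prop} (hI : ∀ i, Pr i → Irr (gen (h (some i))))
    (hcm : ∀ i, Pr i → Comm (gen (h (some i))) → LinAt h i) {S1 : Finset ι}
    (hS1' : ∀ i, Pr i → IsPerfect (gen (h (some i))) → (∀ s ∈ S1, Free h (some s) (some i)) →
      Free h none (some i)) {V : Finset (SqR K)} (hV : Sel h S1 V) :
    ∃ S2 : Finset ι, (∀ i ∈ S2, Pr i ∧ Comm (gen (h (some i))) ∧ gen (h (some i)) ≠ ⊥) ∧
      S2.card ≤ V.card ∧ ∀ (B : Finset ι) (ε : ι → Prop),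
        (∀ b ∈ B, Pr b ∧ ∀ s ∈ S1 ∪ S2, Free h (some s) (some b)) →
        (∀ b ∈ B, ∀ b' ∈ B, ¬ Free h (some b) (some b') → (ε b ↔ ε b')) →
        ∀ l, ∃ r ∈ fam h, r none = 0 ∧ (∀ s ∈ S1 ∪ S2, r (some s) = 0) ∧
          ∀ b ∈ B, (ε b → r (some b) = h (some b) l) ∧ (¬ ε b → r (some b) = 0) := by
  -- the commutative members
  let Act : ι → Prop := fun i => Pr i ∧ Comm (gen (h (some i))) ∧ gen (h (some i)) ≠ ⊥
  have hz : ∀ i : {i // Act i}, ∃ (z : SqR K) (J : A (some i.1)), J ≠ 0 ∧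
      ∀ l, h (some i.1) l = l z.1 • J := fun i => (hcm i.1 i.2.1 i.2.2.1).normal i.2.2.2
  choose zz J hJ0 hJ using hz
  let F : Finset (SqR K) := V.filter fun v => ∃ i, zz i = v
  have hF : ∀ v : F, ∃ i, zz i = v.1 := fun v => (Finset.mem_filter.1 v.2).2
  choose pk hpk using hF
  refine ⟨F.attach.image fun v => (pk v).1, ?_, ?_, ?_⟩
  · intro i hi
    obtain ⟨v, -, rfl⟩ := Finset.mem_image.1 hi
    exact (pk v).2
  · refine Finset.card_image_le.trans ?_
    rw [Finset.card_attach]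
    exact Finset.card_filter_le _ _
  set S2 : Finset ι := F.attach.image fun v => (pk v).1 with hS2
  have hS2a : ∀ s ∈ S2, ∃ i : {i // Act i}, i.1 = s ∧ zz i ∈ V := by
    intro s hs
    obtain ⟨v, -, rfl⟩ := Finset.mem_image.1 hs
    exact ⟨pk v, rfl, by rw [hpk v]; exact (Finset.mem_filter.1 v.2).1⟩
  have hS2b : ∀ i : {i // Act i}, zz i ∈ V → ∃ i' : {i // Act i}, i'.1 ∈ S2 ∧ zz i' = zz i := by
    intro i hi
    have h1 : zz i ∈ F := Finset.mem_filter.2 ⟨hi, i, rfl⟩
    exact ⟨pk ⟨zz i, h1⟩, Finset.mem_image_of_mem _ (Finset.mem_attach _ _), hpk ⟨zz i, h1⟩⟩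
  intro B ε hB hε l
  -- the numbers which belong to the members of `B`
  set T : Finset (SqR K) := (B.subtype Act).image zz with hT
  have hVT : Disjoint V T := by
    rw [Finset.disjoint_left]
    intro z hz hz'
    obtain ⟨i, hi, rfl⟩ := Finset.mem_image.1 hz'
    rw [Finset.mem_subtype] at hi
    obtain ⟨i', hi', he⟩ := hS2b i hz
    refine not_free_of_eq (hJ0 i') (hJ0 i) (hJ i') (fun l => ?_)
      ((hB i.1 hi).2 i'.1 (Finset.mem_union_right _ hi'))
    rw [he]
    exact hJ i l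
  let τ : SqR K → K := fun z => if ∃ i : {i // Act i}, i.1 ∈ B ∧ zz i = z ∧ ε i.1 then l z.1 else 0
  obtain ⟨l', c', hc', e1, e2, e3, e4, e5⟩ := hV.comb hVT τ
  set r₀ : ∀ j, A j := (fun j => h j l') - c' with hr₀
  have hr₀m : r₀ ∈ fam h := Submodule.sub_mem _ (fam_mem l') hc'
  have hr₀n : r₀ none = 0 := by
    rw [hr₀, Pi.sub_apply, e2, sub_self]
  have hr₀S1 : ∀ s ∈ S1, r₀ (some s) = 0 := by
    intro s hs
    rw [hr₀, Pi.sub_apply, e3 s hs, sub_self]
  have hr₀A : ∀ i : {i // Act i}, r₀ (some i.1) = l' (zz i).1 • J i := by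
    intro i
    rw [hr₀, Pi.sub_apply, e1 i.1 i.2.2.1, sub_zero, hJ i]
  have hr₀S2 : ∀ s ∈ S2, r₀ (some s) = 0 := by
    intro s hs
    obtain ⟨i, rfl, hi⟩ := hS2a s hs
    rw [hr₀A, e4 _ hi, zero_smul]
  have hr₀S : ∀ s ∈ S1 ∪ S2, r₀ (some s) = 0 := by
    intro s hs
    rcases Finset.mem_union.1 hs with hs | hs
    · exact hr₀S1 s hs
    · exact hr₀S2 s hs
  have hcomm : ∀ b ∈ B, Comm (gen (h (some b))) → (ε b → r₀ (some b) = h (some b) l) ∧
      (¬ ε b → r₀ (some b) = 0) := by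
    intro b hb hbc
    by_cases h0 : gen (h (some b)) = ⊥
    · have h1 : r₀ (some b) ∈ gen (h (some b)) := fam_eval hr₀m
      have h2 : h (some b) l ∈ gen (h (some b)) := gen_mem _ l
      rw [h0, Submodule.mem_bot] at h1 h2
      exact ⟨fun _ => h1.trans h2.symm, fun _ => h1⟩
    · set i : {i // Act i} := ⟨b, (hB b hb).1, hbc, h0⟩ with hi
      have h1 : zz i ∈ T := Finset.mem_image_of_mem _ (Finset.mem_subtype.2 hb)
      have h2 : r₀ (some b) = l' (zz i).1 • J i := hr₀A i
      have h3 : h (some b) l = l (zz i).1 • J i := hJ i l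
      rw [e5 _ h1] at h2
      constructor
      · intro hεb
        have h4 : τ (zz i) = l (zz i).1 := if_pos ⟨i, hb, rfl, hεb⟩
        rw [h2, h3, h4]
      · intro hεb
        have h4 : τ (zz i) = 0 := by
          refine if_neg ?_
          rintro ⟨i', hi'B, he, hε'⟩
          refine hεb ((hε i'.1 hi'B b hb ?_).1 hε')
          refine not_free_of_eq (hJ0 i') (hJ0 i) (hJ i') fun l => ?_
          rw [he]
          exact hJ i l
        rw [h2, h4, zero_smul]
  -- the other members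
  set Ba : Finset ι := B.filter fun b => Comm (gen (h (some b))) with hBa
  set Bn : Finset ι := B.filter fun b => ¬ Comm (gen (h (some b))) with hBn
  have hBn1 : ∀ b ∈ Bn, b ∈ B ∧ ¬ Comm (gen (h (some b))) := fun b hb => Finset.mem_filter.1 hb
  have hBn2 : ∀ b ∈ Bn, IsPerfect (gen (h (some b))) := fun b hb =>
    ((hI b (hB b (hBn1 b hb).1).1).cases (gen_isLie _)).resolve_right (hBn1 b hb).2
  have hBn3 : ∀ b ∈ Bn, gen (h (some b)) ≠ ⊥ := by
    intro b hb h0
    apply (hBn1 b hb).2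
    intro x hx y hy
    rw [h0, Submodule.mem_bot] at hx hy
    rw [hx, hy]
  obtain ⟨R, hR1, hR2, hRmax⟩ := exists_reps Bn
    (P := fun R => ∀ i ∈ R, ∀ j ∈ R, i ≠ j → Free h (some i) (some j))
    (fun i hi => absurd hi (Finset.notMem_empty i))
  have hRd : ∀ b ∈ Bn, ∃ X ∈ R, ¬ Free h (some X) (some b) := by
    intro b hb
    by_contra hcon
    push Not at hcon
    have hbR : b ∉ R := by
      intro hbR
      apply hBn3 b hb
      rw [Submodule.eq_bot_iff]
      intro x hx
      obtain ⟨r, -, h2, h3⟩ := hcon b hbR x hx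
      rw [← h2, h3]
    have h1 : (insert b R).card ≤ R.card := by
      refine hRmax _ (Finset.insert_subset hb hR1) fun i hi j hj hij => ?_
      rcases Finset.mem_insert.1 hi with hi | hi
      · rcases Finset.mem_insert.1 hj with hj | hj
        · exact absurd (hi.trans hj.symm) hij
        · rw [hi]
          exact free_symm (hcon j hj)
      · rcases Finset.mem_insert.1 hj with hj | hj
        · rw [hj]
          exact hcon i hi
        · exact hR2 i hi j hj hij
    rw [Finset.card_insert_of_notMem hbR] at h1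
    omega
  let tg : ∀ i, A (some i) := fun i => if ε i then h (some i) l else 0
  have htg : ∀ i, tg i ∈ gen (h (some i)) := by
    intro i
    by_cases hi : ε i
    · have : tg i = h (some i) l := if_pos hi
      rw [this]
      exact gen_mem _ l
    · have : tg i = 0 := if_neg hi
      rw [this]
      exact Submodule.zero_mem _
  have hq : ∀ X : ι, ∃ q : ∀ j, A j, X ∈ R → q ∈ fam h ∧ q (some X) = tg X - r₀ (some X) ∧
      q none = 0 ∧ (∀ s ∈ S1 ∪ S2, q (some s) = 0) ∧ (∀ b ∈ Ba, q (some b) = 0) ∧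
      ∀ X' ∈ R, X' ≠ X → q (some X') = 0 := by
    intro X
    by_cases hX : X ∈ R
    · have hXB := hBn1 X (hR1 hX)
      have hXP := hB X hXB.1
      obtain ⟨q, hq1, hq2, hq3⟩ := kill (h := h) (i := some X) (hBn2 X (hR1 hX))
        (insert none (((S1 ∪ S2).image some) ∪ (Ba.image some) ∪ ((R.erase X).image some)))
        (fun a ha => by
          rcases Finset.mem_insert.1 ha with rfl | ha
          · exact hS1' X hXP.1 (hBn2 X (hR1 hX)) fun s hs => hXP.2 s (Finset.mem_union_left _ hs)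
          · rcases Finset.mem_union.1 ha with ha | ha
            · rcases Finset.mem_union.1 ha with ha | ha
              · obtain ⟨s, hs, rfl⟩ := Finset.mem_image.1 ha
                exact hXP.2 s hs
              · obtain ⟨b, hb, rfl⟩ := Finset.mem_image.1 ha
                exact free_of_comm (hBn2 X (hR1 hX)) (Finset.mem_filter.1 hb).2
            · obtain ⟨X', hX', rfl⟩ := Finset.mem_image.1 ha
              exact hR2 X' (Finset.mem_of_mem_erase hX') X hX (Finset.ne_of_mem_erase hX'))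
        (tg X - r₀ (some X)) (Submodule.sub_mem _ (htg X) (fam_eval hr₀m))
      refine ⟨q, fun _ => ⟨hq1, hq2, hq3 _ (Finset.mem_insert_self _ _), fun s hs => ?_,
        fun b hb => ?_, fun X' hX' hne => ?_⟩⟩
      · exact hq3 _ (Finset.mem_insert_of_mem (Finset.mem_union_left _ (Finset.mem_union_left _
          (Finset.mem_image_of_mem _ hs))))
      · exact hq3 _ (Finset.mem_insert_of_mem (Finset.mem_union_left _ (Finset.mem_union_right _
          (Finset.mem_image_of_mem _ hb))))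
      · exact hq3 _ (Finset.mem_insert_of_mem (Finset.mem_union_right _
          (Finset.mem_image_of_mem _ (Finset.mem_erase.2 ⟨hne, hX'⟩))))
    · exact ⟨0, fun h => absurd h hX⟩
  choose q hq using hq
  set r : ∀ j, A j := r₀ + ∑ X ∈ R, q X with hr
  have hrm : r ∈ fam h := Submodule.add_mem _ hr₀m (Submodule.sum_mem _ fun X hX => (hq X hX).1)
  refine ⟨r, hrm, ?_, fun s hs => ?_, fun b hb => ?_⟩
  · rw [hr, Pi.add_apply, hr₀n, zero_add, Finset.sum_apply]
    exact Finset.sum_eq_zero fun X hX => (hq X hX).2.2.1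
  · rw [hr, Pi.add_apply, hr₀S s hs, zero_add, Finset.sum_apply]
    exact Finset.sum_eq_zero fun X hX => (hq X hX).2.2.2.1 s hs
  · by_cases hbc : Comm (gen (h (some b)))
    · have h1 : r (some b) = r₀ (some b) := by
        rw [hr, Pi.add_apply, Finset.sum_apply, Finset.sum_eq_zero, add_zero]
        intro X hX
        exact (hq X hX).2.2.2.2.1 b (Finset.mem_filter.2 ⟨hb, hbc⟩)
      rw [h1]
      exact hcomm b hb hbc
    · have hbn : b ∈ Bn := Finset.mem_filter.2 ⟨hb, hbc⟩
      obtain ⟨X, hX, hXb⟩ := hRd b hbn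
      have h1 : r (some X) = tg X := by
        rw [hr, Pi.add_apply, Finset.sum_apply, Finset.sum_eq_single X]
        · rw [(hq X hX).2.1, add_sub_cancel]
        · intro X' hX' hne
          exact (hq X' hX').2.2.2.2.2 X hX hne.symm
        · intro hn
          exact absurd hX hn
      have h2 := hε X (hBn1 X (hR1 hX)).1 b hb hXb
      constructor
      · intro hεb
        have h3 : tg X = h (some X) l := if_pos (h2.2 hεb)
        have h4 : r - (fun j => h j l) ∈ fam h := Submodule.sub_mem _ hrm (fam_mem l)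
        have h5 := graph (hI b (hB b hb).1) hXb h4 (by rw [Pi.sub_apply, h1, h3, sub_self])
        rw [Pi.sub_apply] at h5
        exact sub_eq_zero.1 h5
      · intro hεb
        have h3 : tg X = 0 := if_neg fun h => hεb (h2.1 h)
        exact graph (hI b (hB b hb).1) hXb hrm (h1.trans h3)

end Pool.Agent.Q219.HD
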