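import Pool.Agent.Q219.HD.HMain
import Pool.Agent.Q219.HG.Sel
import Pool.Agent.Q219.HG.Exp

/-!
# The Lie algebra of the Hodge group of a product, irreducible Lie algebras
-/

open CategoryTheory AlgebraicGeometry TensorProduct

universe u

namespace Pool.Agent.Q219.HD

open Module
open Pool.Agent.H914 Pool.Agent.H914.VarClass Pool.Agent.H914.VarClass.Obj
  Pool.Agent.H914.WeilCohomology
open Pool.Agent.Y133.Half
open Pool.Agent.Y121
open Pool.Agent.Q50.BL

section Pair

variable {K : Type*} [Field K] {Λ : Type*} [AddCommGroup Λ] [Module K Λ]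
  {R R' : Type*} [Ring R] [Algebra K R] [Ring R'] [Algebra K R'] [FiniteDimensional K R]
  [FiniteDimensional K R']

/-- Independence in terms of dimensions. -/
theorem free2_iff_finrank (f : Λ →ₗ[K] R) (g : Λ →ₗ[K] R') :
    Free2 f g ↔ finrank K (gen (f.prod g)) = finrank K (gen f) + finrank K (gen g) := by
  have hfst : IsLieMap (LinearMap.fst K R R') := fun _ _ => rfl
  have hsnd : IsLieMap (LinearMap.snd K R R') := fun _ _ => rfl
  set P := gen (f.prod g) with hP
  set Q : Submodule K R' := P.comap (LinearMap.inr K R R') with hQ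
  have hQg : Q ≤ gen g := fun x hx => map_gen_mem hsnd (h := f.prod g) (h' := g)
    (fun _ => rfl) hx
  let φ : P →ₗ[K] R := (LinearMap.fst K R R') ∘ₗ P.subtype
  have h1 := LinearMap.finrank_range_add_finrank_ker φ
  have h2 : LinearMap.range φ = gen f := by
    rw [LinearMap.range_comp, Submodule.range_subtype, hP, map_gen hfst]
    rfl
  have h3 : finrank K (LinearMap.ker φ) = finrank K Q := by
    let e : LinearMap.ker φ ≃ₗ[K] Q :=
      { toFun := fun x => ⟨x.1.1.2, by
          have hx : x.1.1.1 = 0 := x.2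
          have : ((0, x.1.1.2) : R × R') = x.1.1 := Prod.ext hx.symm rfl
          change ((0, x.1.1.2) : R × R') ∈ P
          rw [this]
          exact x.1.2⟩
        map_add' := fun x y => rfl
        map_smul' := fun c x => rfl
        invFun := fun y => ⟨⟨((0, y.1) : R × R'), y.2⟩, rfl⟩
        left_inv := fun x => by
          have hx : x.1.1.1 = 0 := x.2
          exact Subtype.ext (Subtype.ext (Prod.ext hx.symm rfl))
        right_inv := fun y => rfl }
    exact e.finrank_eq
  rw [h2, h3] at h1
  rw [← h1]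
  constructor
  · intro H
    have : Q = gen g := le_antisymm hQg fun x hx => H x hx
    rw [this]
  · intro H x hx
    have h4 : Q = gen g := Submodule.eq_of_le_of_finrank_eq hQg (by omega)
    have h5 : x ∈ Q := by rw [h4]; exact hx
    exact h5

theorem finrank_map_of {V V' : Type*} [AddCommGroup V] [Module K V] [AddCommGroup V']
    [Module K V'] (f : V →ₗ[K] V') (P : Submodule K V) (h : ∀ x ∈ P, f x = 0 → x = 0) :
    finrank K (P.map f) = finrank K P := by
  have h1 : Function.Injective (f ∘ₗ P.subtype) := by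
    rw [injective_iff_map_eq_zero]
    intro x hx
    exact Subtype.ext (h x.1 x.2 hx)
  have h2 := LinearMap.finrank_range_of_inj h1
  have h3 : LinearMap.range (f ∘ₗ P.subtype) = P.map f := by
    rw [LinearMap.range_comp, Submodule.range_subtype]
  rw [← h2, h3]

end Pair

variable {k : Type u} [Field k] {𝒱 : VarClass k} {ops : CycleOps 𝒱}

section AH

variable {T : AH.HodgeTheory ops} {X Y Z E : 𝒱.Obj}

theorem gen_one {g : EH T X} (hg' : g ∈ gen (hg T X)) : g 1 = 0 :=
  kill_hodge hg' ((AH.hodgeSys T).one X)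

theorem finrank_gen_prod' (hX : Nontrivial (T.W.H X)) (hY : Nontrivial (T.W.H Y)) :
    finrank T.W.K (gen (hg T (X.prod Y))) = finrank T.W.K (gen ((hg T X).prod (hg T Y))) := by
  have h1 : gen (hg T (X.prod Y)) = (gen ((hg T X).prod (hg T Y))).map (two T.W X Y) := by
    rw [map_gen (two_isLieMap T.W X Y)]
    congr 1
    apply LinearMap.ext
    intro l
    exact hg_prod l
  rw [h1]
  refine finrank_map_of _ _ ?_
  rintro ⟨a, b⟩ hab h2
  have ha : a ∈ gen (hg T X) := map_gen_mem (f := LinearMap.fst T.W.K _ _) (fun _ _ => rfl)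
    (h := (hg T X).prod (hg T Y)) (h' := hg T X) (fun _ => rfl) hab
  have hb : b ∈ gen (hg T Y) := map_gen_mem (f := LinearMap.snd T.W.K _ _) (fun _ _ => rfl)
    (h := (hg T X).prod (hg T Y)) (h' := hg T Y) (fun _ => rfl) hab
  have ha0 : a = 0 := by
    apply LinearMap.ext
    intro x
    have h3 := two_tmul T.W a b x 1
    rw [h2, LinearMap.zero_apply, gen_one hb, map_zero, mul_zero, add_zero] at h3
    exact xp_eq_zero_right (one_ne_zero) h3.symm
  have hb0 : b = 0 := by
    apply LinearMap.ext
    intro x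
    have h3 := two_tmul T.W a b 1 x
    rw [h2, LinearMap.zero_apply, gen_one ha, map_zero, zero_mul, zero_add] at h3
    exact xp_eq_zero_left (one_ne_zero) h3.symm
  exact Prod.ext ha0 hb0

/-- Independence of two varieties in terms of the dimensions of the Lie algebras. -/
theorem indep_iff (hX : Nontrivial (T.W.H X)) (hY : Nontrivial (T.W.H Y)) :
    Free2 (hg T X) (hg T Y) ↔ finrank T.W.K (gen (hg T (X.prod Y))) =
      finrank T.W.K (gen (hg T X)) + finrank T.W.K (gen (hg T Y)) := by
  rw [finrank_gen_prod' hX hY]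
  exact free2_iff_finrank _ _

/-- The commutative irreducible case. -/
theorem lin_at (hI : Irr (gen (hg T X))) (hC : Comm (gen (hg T X))) :
    ∃ (w : ℂ) (J : EH T X), (∀ l, hg T X l = l w • J) ∧
      ∃ a : T.W.K, w * w = algebraMap T.W.K ℂ a := by
  obtain ⟨J, -, hJ⟩ := hI.line hC
  have h1 : ∀ l, ∃ c : T.W.K, hg T X l = c • J := by
    intro l
    have h2 : hg T X l ∈ gen (hg T X) := gen_mem _ l
    rw [hJ] at h2
    obtain ⟨c, hc⟩ := Submodule.mem_span_singleton.1 h2
    exact ⟨c, hc.symm⟩
  choose c hc using h1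
  obtain ⟨m, z, l, hexp⟩ := exists_expansion (hop T X)
  set w : ℂ := ∑ i, z i * algebraMap T.W.K ℂ (c (l i)) with hw
  have h2 : ∀ x : CH T X, hop T X x = w • J.baseChange ℂ x := by
    intro x
    rw [hexp x, hw, Finset.sum_smul]
    refine Finset.sum_congr rfl fun i _ => ?_
    have h3 : cofL (hop T X) (l i) = c (l i) • J := hc (l i)
    rw [h3, LinearMap.baseChange_smul, LinearMap.smul_apply, mul_smul, algebraMap_smul]
  have h2' : hop T X = w • (J.baseChange ℂ : Module.End ℂ (CH T X)) := LinearMap.ext h2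
  have h4 : ∀ l, hg T X l = l w • J := by
    intro l
    apply LinearMap.ext
    intro v
    rw [hg_apply, h2, LinearMap.baseChange_tmul, TensorProduct.smul_tmul', smul_eq_mul, mul_one,
      ev_tmul]
    rfl
  obtain ⟨n, hn, hn0⟩ := trace_sq (hop T X) (by
    intro x _
    refine ch_ind (p := fun x => x ∈ Submodule.span ℂ
      {x : CH T X | ∃ m : ℤ, hop T X x = (m : ℂ) • x}) ?_ ?_ ?_ x
    · intro _ p q _ x hx
      exact Submodule.subset_span ⟨p - q, hop_pq hx⟩
    · intro a b ha hb
      exact Submodule.add_mem _ ha hb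
    · exact Submodule.zero_mem _)
  by_cases h0 : n = 0
  · have h5 : hop T X = 0 := hn0 h0
    refine ⟨0, J, fun l => ?_, 0, ?_⟩
    · rw [map_zero, zero_smul]
      apply LinearMap.ext
      intro v
      rw [hg_apply, h5, LinearMap.zero_apply, map_zero, LinearMap.zero_apply]
    · rw [mul_zero, map_zero]
  · refine ⟨w, J, h4, (n : T.W.K) / LinearMap.trace T.W.K (T.W.H X) (J * J), ?_⟩
    have h5 : (n : ℂ) = w * w * algebraMap T.W.K ℂ (LinearMap.trace T.W.K (T.W.H X) (J * J)) := by
      rw [← hn, h2', ← LinearMap.trace_baseChange]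
      have h6 : (w • (J.baseChange ℂ : Module.End ℂ (CH T X))) *
          (w • (J.baseChange ℂ : Module.End ℂ (CH T X))) =
          (w * w) • ((J * J).baseChange ℂ : Module.End ℂ (CH T X)) := by
        rw [smul_mul_smul_comm]
        congr 1
        exact (LinearMap.baseChange_comp (A := ℂ) J J).symm
      rw [h6, map_smul, smul_eq_mul]
    have h7 : algebraMap T.W.K ℂ (LinearMap.trace T.W.K (T.W.H X) (J * J)) ≠ 0 := by
      intro h8
      rw [h8, mul_zero] at h5
      exact h0 (by exact_mod_cast h5)
    rw [map_div₀, map_intCast, h5]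
    field_simp

end AH

end Pool.Agent.Q219.HD
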