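import Pool.Agent.Q219.HG.Conv

/-!
# Independence of Hodge groups and the Hodge conjecture for products: the main theorem
-/

open CategoryTheory AlgebraicGeometry TensorProduct

universe u

namespace Pool.Agent.Q219.HD

open Module
open Pool.Agent.H914 Pool.Agent.H914.VarClass Pool.Agent.H914.VarClass.Obj
  Pool.Agent.H914.WeilCohomology
open Pool.Agent.Y133.Half
open Pool.Agent.Y121
open Pool.Agent.Q50.BL

variable {k : Type u} [Field k] {𝒱 : VarClass k} {ops : CycleOps 𝒱}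

section AH

variable {T : AH.HodgeTheory ops} {X Y Z E E' P Q : 𝒱.Obj} {c : ℂ ≃ₐ[T.W.K] ℂ}

theorem pw_eq (Z : 𝒱.Obj) (n : ℕ) : pw Z n = times Z (List.replicate n Z) := by
  induction n with
  | zero => rfl
  | succ n ih =>
    have h1 : pw Z (n + 1) = (pw Z n).prod Z := rfl
    rw [h1, ih, ← times_concat, ← List.replicate_succ']

/-- Powers of the first factor. -/
theorem free_pw (hT : PolH T c) (hc : ∀ z, c z = (starRingEnd ℂ) z) (hX : Elem (hg T X))
    (hZ : Nontrivial (T.W.H Z)) (hf : Free2 (hg T X) (hg T Z)) (n : ℕ) :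
    Nontrivial (T.W.H (pw Z n)) ∧ Free2 (hg T X) (hg T (pw Z n)) := by
  rw [pw_eq]
  have hmem : ∀ Y ∈ Z :: List.replicate n Z, Y = Z := by
    intro Y hY
    rcases List.mem_cons.1 hY with h | h
    · exact h
    · exact List.eq_of_mem_replicate h
  refine ⟨nontrivial_times _ fun Y hY => ?_, free_times' hT hc hX fun Y hY => ?_⟩
  · rw [hmem Y hY]
    exact hZ
  · rw [hmem Y hY]
    exact ⟨hZ, hf⟩

/-- Powers of the second factor. -/
theorem free_pw' (hT : PolH T c) (hc : ∀ z, c z = (starRingEnd ℂ) z) (hX : Elem (hg T X))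
    (hX' : Nontrivial (T.W.H X)) (hf : Free2 (hg T Y) (hg T X)) (n : ℕ) :
    Nontrivial (T.W.H (pw X n)) ∧ Free2 (hg T Y) (hg T (pw X n)) := by
  rw [pw_eq]
  have hmem : ∀ Y ∈ X :: List.replicate n X, Y = X := by
    intro Y hY
    rcases List.mem_cons.1 hY with h | h
    · exact h
    · exact List.eq_of_mem_replicate h
  refine ⟨nontrivial_times _ fun Y hY => ?_, free_times hT hc fun Y hY => ?_⟩
  · rw [hmem Y hY]
    exact hX'
  · rw [hmem Y hY]
    exact ⟨hX', hX, hf⟩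

theorem full_iff_of_free (h : Free2 (hg T P) (hg T Q)) (hP : Nontrivial (T.W.H P))
    (hQ : Nontrivial (T.W.H Q)) : Full T (P.prod Q) ↔ Full T P ∧ Full T Q :=
  ⟨fun h1 => ⟨full_fst h1, full_snd hP h1⟩, fun h1 => full_prod (split_of_free h) h1.1 h1.2⟩

/-- **Products of powers of pairwise independent varieties.** -/
theorem full_powers (hT : PolH T c) (hc : ∀ z, c z = (starRingEnd ℂ) z)
    (hZ : Nontrivial (T.W.H Z)) (n : ℕ) {l : List (𝒱.Obj × ℕ)}
    (h1 : ∀ p ∈ l, Nontrivial (T.W.H p.1) ∧ Elem (hg T p.1) ∧ Free2 (hg T Z) (hg T p.1))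
    (h2 : l.Pairwise fun p q => Free2 (hg T p.1) (hg T q.1)) :
    Nontrivial (T.W.H (times (pw Z n) (l.map fun p => pw p.1 (p.2 - 1)))) ∧
    (∀ X, Elem (hg T X) → Free2 (hg T X) (hg T Z) → (∀ p ∈ l, Free2 (hg T X) (hg T p.1)) →
      Free2 (hg T X) (hg T (times (pw Z n) (l.map fun p => pw p.1 (p.2 - 1))))) ∧
    (Full T (times (pw Z n) (l.map fun p => pw p.1 (p.2 - 1))) ↔
      Full T (pw Z n) ∧ ∀ p ∈ l, Full T (pw p.1 (p.2 - 1))) := by
  have hfree : ∀ (l : List (𝒱.Obj × ℕ)), (∀ p ∈ l, Nontrivial (T.W.H p.1)) → ∀ X,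
      Elem (hg T X) → Free2 (hg T X) (hg T Z) → (∀ p ∈ l, Free2 (hg T X) (hg T p.1)) →
      Free2 (hg T X) (hg T (times (pw Z n) (l.map fun p => pw p.1 (p.2 - 1)))) := by
    intro l hl X hX hXZ hXl
    refine free_times' hT hc hX fun Y hY => ?_
    rcases List.mem_cons.1 hY with rfl | hY
    · exact free_pw hT hc hX hZ hXZ n
    · obtain ⟨p, hp, rfl⟩ := List.mem_map.1 hY
      exact free_pw hT hc hX (hl p hp) (hXl p hp) _
  have hnt : ∀ (l : List (𝒱.Obj × ℕ)), (∀ p ∈ l, Nontrivial (T.W.H p.1)) →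
      Nontrivial (T.W.H (times (pw Z n) (l.map fun p => pw p.1 (p.2 - 1)))) := by
    have hpw : ∀ (X : 𝒱.Obj) (m : ℕ), Nontrivial (T.W.H X) → Nontrivial (T.W.H (pw X m)) := by
      intro X m hX
      rw [pw_eq]
      refine nontrivial_times _ fun Y hY => ?_
      rcases List.mem_cons.1 hY with rfl | hY
      · exact hX
      · rw [List.eq_of_mem_replicate hY]
        exact hX
    intro l hl
    refine nontrivial_times _ fun Y hY => ?_
    rcases List.mem_cons.1 hY with rfl | hY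
    · exact hpw Z n hZ
    · obtain ⟨p, hp, rfl⟩ := List.mem_map.1 hY
      exact hpw _ _ (hl p hp)
  refine ⟨hnt l fun p hp => (h1 p hp).1, hfree l fun p hp => (h1 p hp).1, ?_⟩
  induction l using List.reverseRecOn with
  | nil => exact ⟨fun h => ⟨h, fun p hp => absurd hp List.not_mem_nil⟩, fun h => h.1⟩
  | append_singleton l p ih =>
    have hl : ∀ q ∈ l, q ∈ l ++ [p] := fun q hq => List.mem_append_left _ hq
    have hp : p ∈ l ++ [p] := List.mem_append_right _ (List.mem_singleton_self p)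
    rw [List.pairwise_append] at h2
    have h3 := ih (fun q hq => h1 q (hl q hq)) h2.1
    obtain ⟨e1, e2, e3⟩ := h1 p hp
    have h4 : Free2 (hg T p.1)
        (hg T (times (pw Z n) (l.map fun p => pw p.1 (p.2 - 1)))) :=
      hfree l (fun q hq => (h1 q (hl q hq)).1) p.1 e2 e3.symm fun q hq =>
        (h2.2.2 q hq p (List.mem_singleton_self p)).symm
    obtain ⟨h5, h6⟩ := free_pw' hT hc e2 e1 h4.symm (p.2 - 1)
    have h7 := full_iff_of_free h6 (hnt l fun q hq => (h1 q (hl q hq)).1) h5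
    rw [List.map_append, List.map_singleton, times_concat, h7, h3]
    constructor
    · rintro ⟨⟨k1, k2⟩, k3⟩
      refine ⟨k1, fun q hq => ?_⟩
      rcases List.mem_append.1 hq with hq | hq
      · exact k2 q hq
      · rw [List.mem_singleton.1 hq]
        exact k3
    · rintro ⟨k1, k2⟩
      exact ⟨⟨k1, fun q hq => k2 q (hl q hq)⟩, k2 p hp⟩

theorem isog_symm (hE : IsEll T c E) (hE' : IsEll T c E') (h : Isog T E E') : Isog T E' E := by
  obtain ⟨mtx, -, h2⟩ := exists_mtx T c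
  exact (h2 _ _ hE' hE).1 ((h2 _ _ hE hE').2 h).symm

theorem isog_trans {E'' : 𝒱.Obj} (hE : IsEll T c E) (hE' : IsEll T c E') (hE'' : IsEll T c E'')
    (h : Isog T E E') (h' : Isog T E' E'') : Isog T E E'' := by
  obtain ⟨mtx, -, h2⟩ := exists_mtx T c
  exact (h2 _ _ hE hE'').1 (((h2 _ _ hE hE').2 h).trans ((h2 _ _ hE' hE'').2 h'))

/-- The curves which are not independent of `Z`. -/
theorem exists_curves (hT : PolH T c) (hc : ∀ z, c z = (starRingEnd ℂ) z) {Pr : 𝒱.Obj → Prop}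
    (hPr : ∀ E, Pr E → IsEll T c E) (Z : 𝒱.Obj) : ∃ S : List 𝒱.Obj, (∀ E ∈ S, Pr E) ∧
      (S.map fun X => finrank T.W.K (gen (hg T X))).sum ≤ finrank T.W.K (gen (hg T Z)) ∧
      ∀ E, Pr E → (∀ E' ∈ S, ¬ Isog T E' E) → Free2 (hg T Z) (hg T E) := by
  classical
  set R : List 𝒱.Obj → Prop := fun S => (∀ E ∈ S, Pr E ∧ ¬ Free2 (hg T Z) (hg T E)) ∧
    S.Pairwise fun X Y => Free2 (hg T X) (hg T Y) with hR
  have hsum : ∀ S, R S → (S.map fun X => finrank T.W.K (gen (hg T X))).sum ≤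
      finrank T.W.K (gen (hg T Z)) := by
    rintro S ⟨h1, h2⟩
    refine count_geo hT hc Z h2 fun X hX => ?_
    obtain ⟨e1, e2⟩ := h1 X hX
    obtain ⟨k1, k2⟩ := ell_irr (hPr X e1)
    refine ⟨k1, fun h0 => ?_, e2⟩
    rw [h0, finrank_bot] at k2
    omega
  have hlen : ∀ S, R S → S.length ≤ finrank T.W.K (gen (hg T Z)) := by
    intro S hS
    refine le_trans ?_ (hsum S hS)
    have h1 : ∀ l : List 𝒱.Obj, (∀ E ∈ l, Pr E) →
        l.length ≤ (l.map fun X => finrank T.W.K (gen (hg T X))).sum := by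
      intro l hl
      induction l with
      | nil => exact Nat.zero_le _
      | cons E l ih =>
        obtain ⟨k1, k2⟩ := ell_irr (hPr E (hl E List.mem_cons_self))
        have h3 := ih fun F hF => hl F (List.mem_cons_of_mem _ hF)
        rw [List.length_cons, List.map_cons, List.sum_cons]
        omega
    exact h1 S fun E hE => (hS.1 E hE).1
  have hmax : ∀ m, (∀ S, R S → S.length ≤ m) → ∃ S, R S ∧ ∀ S', R S' → S'.length ≤ S.length := by
    intro m
    induction m with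
    | zero =>
      intro h
      refine ⟨[], ⟨fun E hE => absurd hE List.not_mem_nil, List.Pairwise.nil⟩, fun S' hS' => ?_⟩
      rw [List.length_nil]
      exact h S' hS'
    | succ m ih =>
      intro h
      by_cases h1 : ∃ S, R S ∧ S.length = m + 1
      · obtain ⟨S, hS, he⟩ := h1
        exact ⟨S, hS, fun S' hS' => by rw [he]; exact h S' hS'⟩
      · refine ih fun S hS => ?_
        have h2 := h S hS
        have h3 : S.length ≠ m + 1 := fun he => h1 ⟨S, hS, he⟩
        omega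
  obtain ⟨S, hS, hSm⟩ := hmax _ hlen
  refine ⟨S, fun E hE => (hS.1 E hE).1, hsum S hS, fun E hE hni => ?_⟩
  by_contra hnf
  have h1 : R (E :: S) := by
    refine ⟨fun F hF => ?_, List.pairwise_cons.2 ⟨fun F hF => ?_, hS.2⟩⟩
    · rcases List.mem_cons.1 hF with rfl | hF
      · exact ⟨hE, hnf⟩
      · exact hS.1 F hF
    · exact ((ell_free (hPr F (hS.1 F hF).1) (hPr E hE)).2 (hni F hF)).symm
  have h2 := hSm _ h1
  rw [List.length_cons] at h2
  omega

end AH

open Pool.Agent.Q219.HG.St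

variable {T : HG.St.PolHodgeTheory ops} {X Y Z E E' P Q : 𝒱.Obj}

theorem splits_of (hP : Nontrivial ((nH T).W.H P)) (hQ : Nontrivial ((nH T).W.H Q))
    (h : Free2 (hg (nH T) P) (hg (nH T) Q)) : HG.St.Splits T P Q := by
  refine ⟨indep_of.2 ⟨hP, hQ, h⟩, decN (split_of_free h), ?_⟩
  rw [hcN, hcN, hcN]
  exact full_iff_of_free h hP hQ

theorem centres_iff (hP : Nontrivial ((nH T).W.H P)) (hQ : Nontrivial ((nH T).W.H Q)) :
    HG.St.CentresIndependent T P Q ↔
      ∀ w, CC (hg (nH T) P) w → CC (hg (nH T) Q) w → w = 0 := by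
  rw [HG.St.CentresIndependent, cen_eq, cen_eq, cen_eq]
  exact cen_add_iff (T := nH T) (polN T) nc_conj hP hQ

theorem part_split {Z₀ : 𝒱.Obj} {l₁ : List 𝒱.Obj} {X₀ : 𝒱.Obj} {l₂ : List 𝒱.Obj}
    (h2 : HG.St.AllIndependent T (Z₀ :: l₁) (X₀ :: l₂)) :
    (HG.St.Splits T (HG.St.times Z₀ l₁) (HG.St.times X₀ l₂) ↔
      HG.St.CentresIndependent T (HG.St.times Z₀ l₁) (HG.St.times X₀ l₂)) ∧
    (HG.St.AllElementary T (X₀ :: l₂) →
      HG.St.Splits T (HG.St.times Z₀ l₁) (HG.St.times X₀ l₂)) := by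
  have h3 : ∀ Z ∈ Z₀ :: l₁, Nontrivial ((nH T).W.H Z) := fun Z hZ =>
    (indep_of.1 (h2 X₀ List.mem_cons_self Z hZ)).1
  have h4 : ∀ X ∈ X₀ :: l₂, Nontrivial ((nH T).W.H X) := fun X hX =>
    (indep_of.1 (h2 X hX Z₀ List.mem_cons_self)).2.1
  have h6 : ∀ X ∈ X₀ :: l₂, ∀ Z ∈ Z₀ :: l₁, Free2 (hg (nH T) Z) (hg (nH T) X) :=
    fun X hX Z hZ => (indep_of.1 (h2 X hX Z hZ)).2.2
  have hP : Nontrivial ((nH T).W.H (times Z₀ l₁)) := nontrivial_times _ h3
  have hQ : Nontrivial ((nH T).W.H (times X₀ l₂)) := nontrivial_times _ h4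
  refine ⟨⟨fun h => (centres_iff (P := times Z₀ l₁) (Q := times X₀ l₂) hP hQ).2 ?_,
    fun h => ?_⟩, fun h => ?_⟩
  · intro w hw hw'
    exact cc_free (indep_of.1 h.1).2.2 hw hw'
  · exact splits_of (P := times Z₀ l₁) (Q := times X₀ l₂) hP hQ
      (free_main_cc (polN T) nc_conj h3 h4 h6
        ((centres_iff (P := times Z₀ l₁) (Q := times X₀ l₂) hP hQ).1 h))
  · exact splits_of (P := times Z₀ l₁) (Q := times X₀ l₂) hP hQ
      (free_main (polN T) nc_conj h3 (fun X hX => elem_of_elementary (h X hX)) h6)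

theorem part_squares (hZ : Nontrivial ((nH T).W.H Z)) (hX : Nontrivial ((nH T).W.H X))
    (hcen : HG.St.hodgeCentreDim T X = 0) :
    HG.St.Independent T Z X ↔ HG.St.Decoupled T (Z.prod Z) (X.prod X) := by
  rw [indep_of]
  have h1 : finrank (nH T).W.K (cen (gen (hg (nH T) X))) = 0 := by
    rw [← cen_eq]
    exact hcen
  constructor
  · rintro ⟨-, -, hf⟩
    have hE : Elem (hg (nH T) X) := elem_cen (polN T) nc_conj X (by rw [h1]; exact Nat.zero_le _)
    have h2 := (free_pw (polN T) nc_conj hE hZ hf.symm 1).2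
    have h3 := (free_pw' (polN T) nc_conj hE hX h2.symm 1).2
    exact decN (P := Z.prod Z) (Q := X.prod X) (split_of_free h3)
  · intro h
    exact ⟨hZ, hX, free_of_squares (polN T) nc_conj hZ hX (Submodule.finrank_eq_zero.1 h1)
      (of_decN h)⟩

theorem part_powers {n : ℕ} {l : List (𝒱.Obj × ℕ)} (h1 : HG.St.AllElementary T (l.map Prod.fst))
    (h2 : HG.St.PairwiseIndependent T (Z :: l.map Prod.fst)) (hZ : Nontrivial ((nH T).W.H Z)) :
    HG.St.HC T (HG.St.times (HG.St.power Z n) (HG.St.powers l)) ↔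
      HG.St.HC T (HG.St.power Z n) ∧ ∀ p ∈ l, HG.St.HC T (HG.St.power p.1 p.2) := by
  have h2' : (Z :: l.map Prod.fst).Pairwise (HG.St.Independent T) := h2
  rw [List.pairwise_cons] at h2'
  obtain ⟨h3, h4⟩ := h2'
  rw [List.pairwise_map] at h4
  have h5 : ∀ p ∈ l, p.1 ∈ l.map Prod.fst := fun p hp => List.mem_map.2 ⟨p, hp, rfl⟩
  have h6 := (full_powers (polN T) nc_conj hZ (n - 1) (l := l)
    (fun p hp => ⟨(elem_of_elementary (h1 _ (h5 p hp))).1,
      (elem_of_elementary (h1 _ (h5 p hp))).2, (indep_of.1 (h3 _ (h5 p hp))).2.2⟩)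
    (h4.imp fun h => (indep_of.1 h).2.2)).2.2
  rw [hcN, hcN]
  refine Iff.trans h6 (and_congr_right fun _ => forall₂_congr fun p _ => ?_)
  rw [hcN]
  exact Iff.rfl

theorem part_overlap {S : List 𝒱.Obj} (hZ : Nontrivial (T.W.H Z))
    (h1 : HG.St.AllElementary T S) (h2 : HG.St.PairwiseIndependent T S) :
    HG.St.sumOverlap T Z S ≤ HG.St.hodgeLieDim T Z := by
  cases S with
  | nil => exact Nat.zero_le _
  | cons X₀ l =>
    have h3 : ∀ X ∈ X₀ :: l, Nontrivial ((nH T).W.H X) ∧ Elem (hg (nH T) X) := fun X hX =>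
      elem_of_elementary (h1 X hX)
    have h4 : (X₀ :: l).Pairwise fun X Y => Free2 (hg (nH T) X) (hg (nH T) Y) :=
      List.Pairwise.imp (fun h => (indep_of.1 h).2.2) h2
    have h5 := sum_ov (polN T) nc_conj (Z := Z) hZ h3 h4
    have h6 : ov (nH T) Z (times X₀ l) ≤ finrank (nH T).W.K (gen (hg (nH T) Z)) :=
      ov_le hZ (nontrivial_times _ fun X hX => (h3 X hX).1)
    have h7 : HG.St.sumOverlap T Z (X₀ :: l) = ((X₀ :: l).map (ov (nH T) Z)).sum := by
      rw [HG.St.sumOverlap]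
      exact congrArg List.sum (List.map_congr_left fun X _ => overlap_eq)
    rw [h7, dim_eq]
    exact h5.trans h6

theorem part_elliptic (hE : HG.St.IsEllipticCurve T E) : HG.St.IsElementary T E ∧
    ∀ E' : 𝒱.Obj, HG.St.IsEllipticCurve T E' →
      (HG.St.Independent T E E' ↔ ¬ HG.St.Isogenous T E E') := by
  have h1 := nontrivial_ell (ell_of hE)
  refine ⟨⟨h1, ?_⟩, fun E' hE' => ?_⟩
  · rw [cen_eq]
    exact cen_irr (ell_irr (ell_of hE)).1
  · have h2 := nontrivial_ell (ell_of hE')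
    rw [indep_of, isogN]
    exact ⟨fun h => (ell_free (ell_of hE) (ell_of hE')).1 h.2.2, fun h =>
      ⟨h1, h2, (ell_free (ell_of hE) (ell_of hE')).2 h⟩⟩

theorem full_ellN (h11 : HG.St.LefschetzOneOne T) {E₀ : 𝒱.Obj} {l₂ : List 𝒱.Obj}
    (h : HG.St.AllElliptic T (E₀ :: l₂)) : Full (nH T) (times E₀ l₂) :=
  full_ell (nH T) (nc T) (h11N h11) (fun E hE => ell_of (h E hE))
    fun E hE => even_curve (h11N h11) (ell_of (h E hE)) (h E hE).1

theorem all_elementary {l : List 𝒱.Obj} (h : HG.St.AllElliptic T l) :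
    HG.St.AllElementary T l := fun E hE => (part_elliptic (h E hE)).1

theorem part_determination (h11 : HG.St.LefschetzOneOne T) (Z : 𝒱.Obj) :
    ∃ S : List 𝒱.Obj, HG.St.AllElliptic T S ∧ HG.St.sumDim T S ≤ HG.St.hodgeLieDim T Z ∧
      (HG.St.HC T (HG.St.largePower T (HG.St.times Z S)) ↔ HG.St.HCForAll T Z) := by
  classical
  obtain ⟨S, hS1, hS2, hS3⟩ := exists_curves (polN T) nc_conj
    (Pr := fun E => HG.St.IsEllipticCurve T E) (fun E hE => ell_of hE) Z
  refine ⟨S, hS1, ?_, fun h n l hl => hcN.2 ?_, fun h => hcN.2 ?_⟩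
  · have h1 : HG.St.sumDim T S =
        (S.map fun X => finrank (nH T).W.K (gen (hg (nH T) X))).sum := by
      rw [HG.St.sumDim]
      exact congrArg List.sum (List.map_congr_left fun X _ => dim_eq)
    rw [h1, dim_eq]
    exact hS2
  · change Full (nH T) (times (pw Z (n - 1)) l)
    rcases subsingleton_or_nontrivial ((nH T).W.H Z) with hs | hs
    · exact full_of_subsingleton (subsingleton_times (subsingleton_pw hs _) _)
    have hSn : ∀ E ∈ S, Nontrivial ((nH T).W.H E) := fun E hE => nontrivial_ell (ell_of (hS1 E hE))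
    have hWn : Nontrivial ((nH T).W.H (times Z S)) := nontrivial_times' hSn
    have hW : ∀ m, Full (nH T) (pw (times Z S) m) := fun m =>
      hC_iff.1 (hC_iff'.2 (Pool.Agent.Q60.HDS.determination (T := oT T)
        (X := times Z S) ((hC_iff' (T := oT T)).1 h) (m + 1)))
    set p : 𝒱.Obj → Bool := fun E => decide (∃ E' ∈ S, HG.St.Isogenous T E' E) with hp
    have hperm : (l.filter p ++ l.filter fun E => !p E).Perm l := List.filter_append_perm p l
    have hin : ∀ E ∈ l.filter p, HG.St.IsEllipticCurve T E ∧ ∃ E' ∈ S, Isog (nH T) E' E := by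
      intro E hE
      rw [List.mem_filter] at hE
      exact ⟨hl E hE.1, of_decide_eq_true hE.2⟩
    have hout : ∀ E ∈ l.filter fun E => !p E, HG.St.IsEllipticCurve T E ∧
        ∀ E' ∈ S, ¬ Isog (nH T) E' E := by
      intro E hE
      rw [List.mem_filter] at hE
      refine ⟨hl E hE.1, fun E' hE' hi => ?_⟩
      have h3 : p E = true := decide_eq_true ⟨E', hE', hi⟩
      have h4 := hE.2
      rw [h3] at h4
      exact absurd h4 (by decide)
    have hfin : Full (nH T) (times (pw Z (n - 1)) (l.filter p)) := by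
      refine full_sub hW (sub_times hSn) (n - 1) fun E hE => ?_
      obtain ⟨h3, E', hE', h4⟩ := hin E hE
      have h5 := hS1 E' hE'
      exact (sub_mem hSn hE').trans (sub_isog (h11N h11) (ell_of h5) (ell_of h3) h5.1 h3.1 h4)
    refine (Eqv.perm hperm (pw Z (n - 1))).full ?_
    generalize hlo : l.filter (fun E => !p E) = lo at hout
    clear hlo hperm
    cases lo with
    | nil => rw [List.append_nil]; exact hfin
    | cons E₀ l₂ =>
      have hell : HG.St.AllElliptic T (E₀ :: l₂) := fun E hE => (hout E hE).1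
      have h5 : Free2 (hg (nH T) (times (pw Z (n - 1)) (l.filter p)))
          (hg (nH T) (times E₀ l₂)) := by
        refine free_times (polN T) nc_conj fun E hE => ?_
        obtain ⟨k1, k2⟩ := elem_of_elementary (all_elementary hell E hE)
        refine ⟨k1, k2, (free_times' (polN T) nc_conj k2 fun Y hY => ?_).symm⟩
        rcases List.mem_cons.1 hY with rfl | hY
        · exact free_pw (polN T) nc_conj k2 hs (hS3 E (hell E hE) (hout E hE).2).symm _
        · obtain ⟨h3, E', hE', h4⟩ := hin Y hY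
          refine ⟨nontrivial_ell (ell_of h3), (ell_free (ell_of (hell E hE)) (ell_of h3)).2
            fun h6 => (hout E hE).2 E' hE' ?_⟩
          exact isog_trans (ell_of (hS1 E' hE')) (ell_of h3) (ell_of (hell E hE)) h4
            (isog_symm (ell_of (hell E hE)) (ell_of h3) h6)
      have h6 : Full (nH T) ((times (pw Z (n - 1)) (l.filter p)).prod (times E₀ l₂)) :=
        full_prod (split_of_free h5) hfin (full_ellN h11 hell)
      have h7 := (Eqv.prod_times (times (pw Z (n - 1)) (l.filter p)) E₀ l₂).full h6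
      rw [times_append]
      exact h7
  · obtain ⟨l, hl, he⟩ := pw_times Z S
      ((2 * HG.St.totalBetti T (times Z S)) ^ (3 * HG.St.totalBetti T (times Z S) ^ 2) - 1)
    refine he.full ?_
    exact hcN.1 (h (_ + 1) l fun E hE => hS1 E (hl E hE))

/-- **The main theorem.** -/
theorem main_theorem (T : HG.St.PolHodgeTheory ops) :
    (∀ (Z₀ : 𝒱.Obj) (l₁ : List 𝒱.Obj) (X₀ : 𝒱.Obj) (l₂ : List 𝒱.Obj),
      HG.St.AllIndependent T (Z₀ :: l₁) (X₀ :: l₂) →
      (HG.St.Splits T (HG.St.times Z₀ l₁) (HG.St.times X₀ l₂) ↔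
        HG.St.CentresIndependent T (HG.St.times Z₀ l₁) (HG.St.times X₀ l₂)) ∧
      (HG.St.AllElementary T (X₀ :: l₂) →
        HG.St.Splits T (HG.St.times Z₀ l₁) (HG.St.times X₀ l₂))) ∧
    (∀ (Z : 𝒱.Obj) (n : ℕ) (l : List (𝒱.Obj × ℕ)), Nontrivial (T.W.H Z) →
      HG.St.AllElementary T (l.map Prod.fst) →
      HG.St.PairwiseIndependent T (Z :: l.map Prod.fst) →
      (HG.St.HC T (HG.St.times (HG.St.power Z n) (HG.St.powers l)) ↔
        HG.St.HC T (HG.St.power Z n) ∧ ∀ p ∈ l, HG.St.HC T (HG.St.power p.1 p.2))) ∧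
    (∀ (Z : 𝒱.Obj) (S : List 𝒱.Obj), Nontrivial (T.W.H Z) → HG.St.AllElementary T S →
      HG.St.PairwiseIndependent T S → HG.St.sumOverlap T Z S ≤ HG.St.hodgeLieDim T Z) ∧
    (∀ Z X : 𝒱.Obj, Nontrivial (T.W.H Z) → Nontrivial (T.W.H X) →
      HG.St.hodgeCentreDim T X = 0 →
      (HG.St.Independent T Z X ↔ HG.St.Decoupled T (Z.prod Z) (X.prod X))) ∧
    (∀ E : 𝒱.Obj, HG.St.IsEllipticCurve T E → HG.St.IsElementary T E ∧
      ∀ E' : 𝒱.Obj, HG.St.IsEllipticCurve T E' →
        (HG.St.Independent T E E' ↔ ¬ HG.St.Isogenous T E E')) ∧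
    (HG.St.LefschetzOneOne T →
      (∀ (Z : 𝒱.Obj) (l : List 𝒱.Obj), (∀ X ∈ Z :: l, X.dim ≤ 3) →
        HG.St.AllElementary T l → HG.St.PairwiseIndependent T (Z :: l) →
        HG.St.HC T (HG.St.times Z l)) ∧
      (∀ (Z₀ : 𝒱.Obj) (l₁ : List 𝒱.Obj) (E₀ : 𝒱.Obj) (l₂ : List 𝒱.Obj),
        HG.St.AllElliptic T (E₀ :: l₂) → HG.St.AllIndependent T (Z₀ :: l₁) (E₀ :: l₂) →
        (HG.St.HC T ((HG.St.times Z₀ l₁).prod (HG.St.times E₀ l₂)) ↔
          HG.St.HC T (HG.St.times Z₀ l₁))) ∧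
      ∀ Z : 𝒱.Obj, ∃ S : List 𝒱.Obj, HG.St.AllElliptic T S ∧
        HG.St.sumDim T S ≤ HG.St.hodgeLieDim T Z ∧
        (HG.St.HC T (HG.St.largePower T (HG.St.times Z S)) ↔ HG.St.HCForAll T Z)) := by
  refine ⟨fun Z₀ l₁ X₀ l₂ h2 => part_split h2, fun Z n l hZ h1 h2 =>
    part_powers h1 h2 hZ, fun Z S hZ h1 h2 => part_overlap hZ h1 h2,
    fun Z X hZ hX h => part_squares hZ hX h,
    fun E hE => part_elliptic hE, fun h11 => ⟨fun Z l hd h1 h2 => ?_,
    fun Z₀ l₁ E₀ l₂ h1 h2 => ?_, fun Z => part_determination h11 Z⟩⟩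
  · have hfull : ∀ X ∈ Z :: l, Full (nH T) X := fun X hX => full_le_three (h11N h11) (hd X hX)
    cases l with
    | nil => exact hcN.2 (hfull Z List.mem_cons_self)
    | cons X l =>
      have h2' : (Z :: X :: l).Pairwise (HG.St.Independent T) := h2
      have hZ : Nontrivial ((nH T).W.H Z) :=
        (indep_of.1 ((List.pairwise_cons.1 h2').1 X List.mem_cons_self)).1
      have h3 : ∀ l : List 𝒱.Obj, (l.map fun X => (X, 1)).map Prod.fst = l := by
        intro l
        rw [List.map_map]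
        exact List.map_id l
      have h4 : ∀ l : List 𝒱.Obj, HG.St.powers (l.map fun X => (X, 1)) = l := by
        intro l
        rw [HG.St.powers, List.map_map]
        exact List.map_id l
      have h5 := part_powers (T := T) (Z := Z) (n := 1) (l := (X :: l).map fun X => (X, 1))
        (by rw [h3]; exact h1) (by rw [h3]; exact h2) hZ
      rw [h4] at h5
      refine h5.2 ⟨hcN.2 (hfull Z List.mem_cons_self), fun p hp => hcN.2 ?_⟩
      obtain ⟨Y, hY, rfl⟩ := List.mem_map.1 hp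
      exact hfull Y (List.mem_cons_of_mem _ hY)
  · have h3 := ((part_split h2).2 (all_elementary h1)).2.2
    refine h3.trans ⟨fun h => h.1, fun h => ⟨h, hcN.2 (full_ellN h11 h1)⟩⟩

end Pool.Agent.Q219.HD
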