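import Pool.Agent.Q219.HG.Irr
import Pool.Agent.Q219.HG.Exp
import Pool.Agent.Q219.HD.CMat
import Pool.Agent.Q50.BL.Pol

/-!
# The trace form on the Lie algebra of the Hodge group is nondegenerate
-/

set_option linter.unusedSectionVars false

open TensorProduct

namespace Pool.Agent.Q219.HD

open Module Polynomial
open Pool.Agent.Q50.BL

section Herm

variable {M : Type*} [AddCommGroup M] [Module ℂ M] [FiniteDimensional ℂ M]

/-- An operator for which the trace of its product with its adjoint is zero. -/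
theorem adj_zero {H : M → M → ℂ} (hadd : ∀ x y z, H (x + y) z = H x z + H y z)
    (hsmul : ∀ (a : ℂ) x y, H (a • x) y = a * H x y)
    (hadd' : ∀ x y z, H x (y + z) = H x y + H x z)
    (hsmul' : ∀ (a : ℂ) x y, H x (a • y) = (starRingEnd ℂ) a * H x y)
    (hpos : ∀ x, x ≠ 0 → ∃ r : ℝ, 0 < r ∧ H x x = r) {f g : Module.End ℂ M}
    (hadj : ∀ x y, H (f x) y = H x (g y)) (htr : LinearMap.trace ℂ M (f * g) = 0) : f = 0 := by
  have h0 : ∀ x, H x 0 = 0 := fun x => by
    have := hsmul' 0 x 0
    rw [zero_smul, map_zero, zero_mul] at this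
    exact this
  have hnn : ∀ x, ∃ r : ℝ, 0 ≤ r ∧ (x ≠ 0 → 0 < r) ∧ H x x = r := by
    intro x
    by_cases hx : x = 0
    · exact ⟨0, le_rfl, fun h => absurd hx h, by rw [hx, h0, Complex.ofReal_zero]⟩
    · obtain ⟨r, h1, h2⟩ := hpos x hx
      exact ⟨r, h1.le, fun _ => h1, h2⟩
  choose r hr0 hr1 hr2 using hnn
  have hreal : ∀ x, (H x x).im = 0 := fun x => by rw [hr2, Complex.ofReal_im]
  have hsym : ∀ x y, (starRingEnd ℂ) (H x y) = H y x := by
    intro x y
    have e1 := hreal (x + y)
    have e2 := hreal (x + Complex.I • y)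
    rw [hadd, hadd', hadd', Complex.add_im, Complex.add_im, Complex.add_im, hreal x, hreal y] at e1
    rw [hadd, hadd', hadd', hsmul, hsmul, hsmul', hsmul', Complex.conj_I, Complex.add_im,
      Complex.add_im, Complex.add_im, hreal x] at e2
    simp only [Complex.mul_im, Complex.mul_re, Complex.neg_re, Complex.neg_im, Complex.I_re,
      Complex.I_im, hreal y] at e2
    apply Complex.ext
    · rw [Complex.conj_re]
      linarith
    · rw [Complex.conj_im]
      linarith
  let core : InnerProductSpace.Core ℂ M :=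
    { inner := fun x y => H y x
      conj_inner_symm := fun x y => hsym x y
      re_inner_nonneg := fun x => by
        change 0 ≤ (H x x).re
        rw [hr2, Complex.ofReal_re]
        exact hr0 x
      add_left := fun x y z => hadd' z x y
      smul_left := fun x y a => hsmul' a y x
      definite := fun x hx => by
        by_contra hne
        have h1 := hr1 x hne
        have h2 : H x x = 0 := hx
        rw [hr2, Complex.ofReal_eq_zero] at h2
        exact h1.ne' h2 }
  let _ : NormedAddCommGroup M := @InnerProductSpace.Core.toNormedAddCommGroup ℂ M _ _ _ core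
  let _ : InnerProductSpace ℂ M := InnerProductSpace.ofCore core.toCore
  have h1 := LinearMap.trace_eq_sum_inner (f * g) (stdOrthonormalBasis ℂ M)
  rw [htr] at h1
  have h2 : ∀ i, inner ℂ (stdOrthonormalBasis ℂ M i) ((f * g) (stdOrthonormalBasis ℂ M i)) =
      ((r (g (stdOrthonormalBasis ℂ M i)) : ℝ) : ℂ) := by
    intro i
    change H (f (g (stdOrthonormalBasis ℂ M i))) (stdOrthonormalBasis ℂ M i) = _
    rw [hadj, hr2]
  simp only [h2] at h1
  rw [← Complex.ofReal_sum] at h1
  have h3 : ∑ i, r (g (stdOrthonormalBasis ℂ M i)) = 0 := by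
    exact_mod_cast h1.symm
  have h4 := (Finset.sum_eq_zero_iff_of_nonneg (fun i _ => hr0 _)).1 h3
  have h5 : g = 0 := by
    apply (stdOrthonormalBasis ℂ M).toBasis.ext
    intro i
    rw [OrthonormalBasis.coe_toBasis, LinearMap.zero_apply]
    by_contra hne
    exact (hr1 _ hne).ne' (h4 i (Finset.mem_univ i))
  apply LinearMap.ext
  intro x
  rw [LinearMap.zero_apply]
  by_contra hne
  have h6 := hr1 _ hne
  have h7 := hr2 (f x)
  rw [hadj, h5, LinearMap.zero_apply, h0] at h7
  exact h6.ne' (by exact_mod_cast h7.symm)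

end Herm

section Pol

variable {K : Type} [Field K] [CharZero K] [Algebra K ℂ] {V : Type*} [AddCommGroup V]
  [Module K V] [FiniteDimensional K V]

/-- The complexification of a space of operators. -/
def GC (G : Submodule K (Module.End K V)) : Submodule ℂ (Module.End ℂ (ℂ ⊗[K] V)) :=
  Submodule.span ℂ {f | ∃ g ∈ G, f = g.baseChange ℂ}

theorem GC_mem {G : Submodule K (Module.End K V)} {g : Module.End K V} (hg : g ∈ G) :
    (g.baseChange ℂ : Module.End ℂ (ℂ ⊗[K] V)) ∈ GC G :=
  Submodule.subset_span ⟨g, hg, rfl⟩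

theorem GC_cjg {G : Submodule K (Module.End K V)} {f : Module.End ℂ (ℂ ⊗[K] V)} (hf : f ∈ GC G)
    (σ : ℂ ≃ₐ[K] ℂ) : cjg σ f ∈ GC G := by
  refine Submodule.span_induction (p := fun f _ => cjg σ f ∈ GC G) ?_ ?_ ?_ ?_ hf
  · rintro _ ⟨g, hg, rfl⟩
    rw [cjg_baseChange]
    exact GC_mem hg
  · rw [cjg_zero]
    exact Submodule.zero_mem _
  · intro x y _ _ hx hy
    rw [cjg_add]
    exact Submodule.add_mem _ hx hy
  · intro a x _ hx
    rw [cjg_smul]
    exact Submodule.smul_mem _ _ hx

theorem GC_ideal {G I : Submodule K (Module.End K V)}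
    (hG : ∀ x ∈ G, ∀ y ∈ I, x * y - y * x ∈ I) {x y : Module.End ℂ (ℂ ⊗[K] V)} (hx : x ∈ GC G)
    (hy : y ∈ GC I) : x * y - y * x ∈ GC I := by
  refine Submodule.span_induction (p := fun x _ => x * y - y * x ∈ GC I) ?_ ?_ ?_ ?_ hx
  · rintro _ ⟨g, hg, rfl⟩
    refine Submodule.span_induction
      (p := fun y _ => (g.baseChange ℂ : Module.End ℂ (ℂ ⊗[K] V)) * y -
        y * (g.baseChange ℂ : Module.End ℂ (ℂ ⊗[K] V)) ∈ GC I) ?_ ?_ ?_ ?_ hy
    · rintro _ ⟨g', hg', rfl⟩
      have h1 : (g.baseChange ℂ : Module.End ℂ (ℂ ⊗[K] V)) * g'.baseChange ℂ -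
          g'.baseChange ℂ * g.baseChange ℂ =
          ((g * g' - g' * g : Module.End K V).baseChange ℂ : Module.End ℂ (ℂ ⊗[K] V)) := by
        rw [LinearMap.baseChange_sub]
        congr 1
        · exact (LinearMap.baseChange_comp (A := ℂ) g' g).symm
        · exact (LinearMap.baseChange_comp (A := ℂ) g g').symm
      rw [h1]
      exact GC_mem (hG g hg g' hg')
    · rw [mul_zero, zero_mul, sub_zero]
      exact Submodule.zero_mem _
    · intro a b _ _ ha hb
      rw [mul_add, add_mul, add_sub_add_comm]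
      exact Submodule.add_mem _ ha hb
    · intro r a _ ha
      rw [mul_smul_comm, smul_mul_assoc, ← smul_sub]
      exact Submodule.smul_mem _ _ ha
  · rw [mul_zero, zero_mul, sub_zero]
    exact Submodule.zero_mem _
  · intro a b _ _ ha hb
    rw [mul_add, add_mul, add_sub_add_comm]
    exact Submodule.add_mem _ ha hb
  · intro r a _ ha
    rw [mul_smul_comm, smul_mul_assoc, ← smul_sub]
    exact Submodule.smul_mem _ _ ha

theorem op_mem {h : Module.End ℂ (ℂ ⊗[K] V)} : h ∈ GC (gen (cofL h)) := by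
  obtain ⟨m, z, l, hexp⟩ := exists_expansion h
  have h1 : h = ∑ i, z i • ((cofL h (l i)).baseChange ℂ : Module.End ℂ (ℂ ⊗[K] V)) := by
    apply LinearMap.ext
    intro x
    rw [LinearMap.sum_apply]
    exact hexp x
  have h2 : ∑ i, z i • ((cofL h (l i)).baseChange ℂ : Module.End ℂ (ℂ ⊗[K] V)) ∈
      GC (gen (cofL h)) :=
    Submodule.sum_mem _ fun i _ => Submodule.smul_mem _ _ (GC_mem (gen_mem (cofL h) (l i)))
  rw [← h1] at h2
  exact h2

variable {c : ℂ ≃ₐ[K] ℂ} {l : ℕ} {h : Module.End ℂ (ℂ ⊗[K] V)} {Q : LinearMap.BilinForm K V}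
  {e : ℤ → Module.End ℂ (ℂ ⊗[K] V)}

theorem QC_ev_left (f : ℂ →ₗ[K] K) (y : ℂ ⊗[K] V) (v : V) :
    Q (ev f y) v = f (QC Q y (1 ⊗ₜ[K] v)) := by
  induction y using TensorProduct.induction_on with
  | zero => simp
  | add x y hx hy => rw [map_add, map_add, map_add, LinearMap.add_apply, LinearMap.add_apply,
      map_add, hx, hy]
  | tmul z w =>
    rw [ev_tmul, map_smul, LinearMap.smul_apply, QC_tmul, mul_one, lin_mul, smul_eq_mul, mul_comm]

theorem QC_ev_right (f : ℂ →ₗ[K] K) (y : ℂ ⊗[K] V) (v : V) :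
    Q v (ev f y) = f (QC Q (1 ⊗ₜ[K] v) y) := by
  induction y using TensorProduct.induction_on with
  | zero => simp
  | add x y hx hy => rw [map_add, map_add, map_add, map_add, hx, hy]
  | tmul z w =>
    rw [ev_tmul, map_smul, QC_tmul, one_mul, lin_mul, smul_eq_mul, mul_comm]

theorem skew_gen (hp : IsPol c h Q) {x : Module.End K V} (hx : x ∈ gen (cofL h)) (u v : V) :
    Q (x u) v + Q u (x v) = 0 := by
  let S : Submodule K (Module.End K V) :=
    { carrier := {x | ∀ u v : V, Q (x u) v + Q u (x v) = 0}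
      zero_mem' := by
        intro u v
        rw [LinearMap.zero_apply, LinearMap.zero_apply, map_zero, map_zero, LinearMap.zero_apply,
          add_zero]
      add_mem' := by
        intro x y hx hy u v
        have h1 := hx u v
        have h2 := hy u v
        rw [LinearMap.add_apply, LinearMap.add_apply, map_add, map_add, LinearMap.add_apply]
        linear_combination h1 + h2
      smul_mem' := by
        intro r x hx u v
        have h1 := hx u v
        rw [LinearMap.smul_apply, LinearMap.smul_apply, map_smul, map_smul, LinearMap.smul_apply,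
          ← smul_add, h1, smul_zero] }
  have hS : gen (cofL h) ≤ S := by
    refine gen_le ?_ fun f u v => ?_
    · intro x hx y hy u v
      have h1 := hx (y u) v
      have h2 := hy (x u) v
      have h3 := hx u (y v)
      have h4 := hy u (x v)
      simp only [LinearMap.sub_apply, Module.End.mul_apply, map_sub]
      linear_combination h1 - h2 + h3 - h4
    · rw [cofL_apply, cofL_apply, QC_ev_left, QC_ev_right, ← map_add, hp.skew, map_zero]
  exact hS hx u v

theorem skew_base {x : Module.End K V} (hx : ∀ u v : V, Q (x u) v + Q u (x v) = 0)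
    (u v : ℂ ⊗[K] V) :
    QC Q (x.baseChange ℂ u) v + QC Q u (x.baseChange ℂ v) = 0 := by
  induction u using TensorProduct.induction_on with
  | zero => simp
  | add a b ha hb =>
    rw [map_add, map_add, map_add, LinearMap.add_apply, LinearMap.add_apply]
    linear_combination ha + hb
  | tmul z w =>
    induction v using TensorProduct.induction_on with
    | zero => simp
    | add a b ha hb =>
      rw [map_add, map_add, map_add]
      linear_combination ha + hb
    | tmul z' w' =>
      rw [LinearMap.baseChange_tmul, LinearMap.baseChange_tmul, QC_tmul, QC_tmul, ← add_mul,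
        ← map_add, hx, map_zero, zero_mul]

/-- **The trace form is nondegenerate on the ideals.** -/
theorem trace_nondeg (hc : ∀ z, c z = (starRingEnd ℂ) z) (hp : IsPol c h Q) (hd : Dec ℂ l h e)
    {I : Submodule K (Module.End K V)} (hI' : IsIdeal I (gen (cofL h)))
    {x : Module.End K V} (hx : x ∈ I)
    (hx0 : ∀ y ∈ I, LinearMap.trace K V (x * y) = 0) : x = 0 := by
  have hI : Complex.I ≠ 0 := Complex.I_ne_zero
  set W : Module.End ℂ (ℂ ⊗[K] V) := aeval h (wl l) with hW
  have hWu : W = Dec.u ℂ l e Complex.I⁻¹ := by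
    rw [hW, hd.aeval_eq, Dec.u]
    refine Finset.sum_congr rfl fun j hj => ?_
    rw [wl_eval hj, inv_zpow, zpow_neg]
  set W' : Module.End ℂ (ℂ ⊗[K] V) := Dec.u ℂ l e Complex.I with hW'
  have hWW' : W * W' = 1 := by
    rw [hWu]
    exact hd.inv_u hI
  set y0 : Module.End ℂ (ℂ ⊗[K] V) := W' * x.baseChange ℂ * W with hy0
  have hy0m : y0 ∈ GC I := by
    rw [hy0, hWu]
    exact hd.conj_mem (fun y hy => GC_ideal hI'.2 op_mem hy) hI (GC_mem hx)
  have hgm : -cjg c⁻¹ y0 ∈ GC I := Submodule.neg_mem _ (GC_cjg hy0m _)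
  have htr : ∀ f ∈ GC I,
      LinearMap.trace ℂ (ℂ ⊗[K] V) (x.baseChange ℂ * f) = 0 := by
    intro f hf
    refine Submodule.span_induction (p := fun f _ =>
      LinearMap.trace ℂ (ℂ ⊗[K] V) (x.baseChange ℂ * f) = 0) ?_ ?_ ?_ ?_ hf
    · rintro _ ⟨g, hg, rfl⟩
      have h1 : (x.baseChange ℂ : Module.End ℂ (ℂ ⊗[K] V)) * g.baseChange ℂ =
          (x * g : Module.End K V).baseChange ℂ := (LinearMap.baseChange_comp (A := ℂ) g x).symm
      rw [h1, LinearMap.trace_baseChange, hx0 g hg, map_zero]
    · rw [mul_zero, map_zero]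
    · intro a b _ _ ha hb
      rw [mul_add, map_add, ha, hb, add_zero]
    · intro r a _ ha
      rw [mul_smul_comm, map_smul, ha, smul_zero]
  have h1 : (x.baseChange ℂ : Module.End ℂ (ℂ ⊗[K] V)) = 0 := by
    refine adj_zero (H := fun u v => QC Q u (W (sg V c v))) ?_ ?_ ?_ ?_ ?_
      (g := -cjg c⁻¹ y0) ?_ (htr _ hgm)
    · intro a b v
      rw [map_add, LinearMap.add_apply]
    · intro a u v
      rw [map_smul, LinearMap.smul_apply, smul_eq_mul]
    · intro u a b
      rw [map_add, map_add, map_add]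
    · intro a u v
      rw [sg_smul, map_smul, map_smul, smul_eq_mul, hc]
    · intro u hu
      exact hp.weil_pos hd hu
    · intro u v
      have h2 := skew_base (skew_gen hp (hI'.1 hx)) u (W (sg V c v))
      have h3 : sg V c ((-cjg c⁻¹ y0) v) = - y0 (sg V c v) := by
        rw [LinearMap.neg_apply, map_neg, cjg_apply, sg_inv, inv_inv]
      have h4 : W (y0 (sg V c v)) = x.baseChange ℂ (W (sg V c v)) := by
        have h5 : W * y0 = x.baseChange ℂ * W := by
          rw [hy0, ← mul_assoc, ← mul_assoc, hWW', one_mul]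
        have h6 := congrArg (fun f : Module.End ℂ (ℂ ⊗[K] V) => f (sg V c v)) h5
        exact h6
      change QC Q (x.baseChange ℂ u) (W (sg V c v)) = QC Q u (W (sg V c ((-cjg c⁻¹ y0) v)))
      rw [h3, map_neg, map_neg, h4]
      linear_combination h2
  apply LinearMap.ext
  intro v
  rw [LinearMap.zero_apply]
  apply one_tmul_inj (K := K)
  rw [tmul_zero]
  have h2 := congrArg (fun f : Module.End ℂ (ℂ ⊗[K] V) => f (1 ⊗ₜ[K] v)) h1
  exact h2

theorem self_ideal {R : Type*} [Ring R] [Algebra K R] {G : Submodule K R} (hG : IsLie G) :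
    IsIdeal G G := ⟨le_refl _, hG⟩

/-- The functionals are given by the trace form. -/
theorem exists_repr (hc : ∀ z, c z = (starRingEnd ℂ) z) (hp : IsPol c h Q) (hd : Dec ℂ l h e)
    {I : Submodule K (Module.End K V)} (hI : IsIdeal I (gen (cofL h)))
    (f : Module.End K V →ₗ[K] K) : ∃ b ∈ I, ∀ x ∈ I, f x = LinearMap.trace K V (x * b) := by
  let Φ : I →ₗ[K] Module.Dual K I :=
    { toFun := fun b =>
        { toFun := fun x => LinearMap.trace K V (x.1 * b.1)
          map_add' := fun x y => by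
            rw [Submodule.coe_add, add_mul, map_add]
          map_smul' := fun r x => by
            rw [Submodule.coe_smul, smul_mul_assoc, map_smul, RingHom.id_apply] }
      map_add' := fun b b' => LinearMap.ext fun x => by
        change LinearMap.trace K V (x.1 * (b.1 + b'.1)) = _
        rw [mul_add, map_add]
        rfl
      map_smul' := fun r b => LinearMap.ext fun x => by
        change LinearMap.trace K V (x.1 * (r • b.1)) = _
        rw [mul_smul_comm, map_smul]
        rfl }
  have hinj : Function.Injective Φ := by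
    rw [injective_iff_map_eq_zero]
    intro b hb
    apply Subtype.ext
    refine trace_nondeg hc hp hd hI b.2 fun y hy => ?_
    have h1 : Φ b ⟨y, hy⟩ = 0 := by rw [hb]; rfl
    change LinearMap.trace K V (y * b.1) = 0 at h1
    rw [LinearMap.trace_mul_comm]
    exact h1
  have hsur : Function.Surjective Φ :=
    (LinearMap.injective_iff_surjective_of_finrank_eq_finrank
      (Subspace.dual_finrank_eq (K := K) (V := I)).symm).1 hinj
  obtain ⟨b, hb⟩ := hsur (f ∘ₗ I.subtype)
  refine ⟨b.1, b.2, fun x hx => ?_⟩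
  have h2 : Φ b ⟨x, hx⟩ = (f ∘ₗ I.subtype) ⟨x, hx⟩ := by rw [hb]
  exact h2.symm

/-- The functionals which are zero on commutators. -/
theorem exists_central (hc : ∀ z, c z = (starRingEnd ℂ) z) (hp : IsPol c h Q) (hd : Dec ℂ l h e)
    {f : Module.End K V →ₗ[K] K} (hf : ∀ x ∈ gen (cofL h), ∀ y ∈ gen (cofL h),
      f (x * y - y * x) = 0) : ∃ b ∈ gen (cofL h), (∀ y ∈ gen (cofL h), b * y = y * b) ∧
      ∀ x ∈ gen (cofL h), f x = LinearMap.trace K V (x * b) := by
  have hG : IsIdeal (gen (cofL h)) (gen (cofL h)) := self_ideal (gen_isLie _)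
  obtain ⟨b, hb, h1⟩ := exists_repr hc hp hd hG f
  refine ⟨b, hb, fun y hy => ?_, h1⟩
  rw [← sub_eq_zero]
  refine trace_nondeg hc hp hd hG (gen_isLie _ _ hb _ hy) fun x hx => ?_
  have h2 := hf y hy x hx
  rw [h1 _ (gen_isLie _ _ hy _ hx), sub_mul, map_sub] at h2
  have h3 : LinearMap.trace K V (b * y * x) = LinearMap.trace K V (y * x * b) := by
    rw [mul_assoc, LinearMap.trace_mul_comm]
  have h4 : LinearMap.trace K V (y * b * x) = LinearMap.trace K V (x * y * b) := by
    rw [mul_assoc, LinearMap.trace_mul_comm, mul_assoc, LinearMap.trace_mul_comm]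
  rw [sub_mul, map_sub, h3, h4]
  exact h2

/-- Every ideal has a complement. -/
def Red {R : Type*} [Ring R] [Algebra K R] (G : Submodule K R) : Prop :=
  ∀ I, IsIdeal I G → ∃ I', IsIdeal I' G ∧ I ⊓ I' = ⊥ ∧ I ⊔ I' = G

/-- **The Lie algebra is reductive.** -/
theorem red_gen (hc : ∀ z, c z = (starRingEnd ℂ) z) (hp : IsPol c h Q) (hd : Dec ℂ l h e) :
    Red (gen (cofL h)) := by
  intro I hI
  let I' : Submodule K (Module.End K V) :=
    { carrier := {x | x ∈ gen (cofL h) ∧ ∀ y ∈ I, LinearMap.trace K V (y * x) = 0}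
      zero_mem' := ⟨Submodule.zero_mem _, fun y _ => by rw [mul_zero, map_zero]⟩
      add_mem' := by
        rintro x x' ⟨h1, h2⟩ ⟨h1', h2'⟩
        exact ⟨Submodule.add_mem _ h1 h1', fun y hy => by
          rw [mul_add, map_add, h2 y hy, h2' y hy, add_zero]⟩
      smul_mem' := by
        rintro r x ⟨h1, h2⟩
        exact ⟨Submodule.smul_mem _ _ h1, fun y hy => by
          rw [mul_smul_comm, map_smul, h2 y hy, smul_zero]⟩ }
  have hI'1 : I' ≤ gen (cofL h) := fun x hx => hx.1
  refine ⟨I', ⟨hI'1, ?_⟩, ?_, ?_⟩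
  · rintro x hx y ⟨h1, h2⟩
    refine ⟨gen_isLie _ _ hx _ h1, fun a ha => ?_⟩
    have h3 := h2 _ (hI.2 x hx a ha)
    have h4 : LinearMap.trace K V (a * (x * y)) = LinearMap.trace K V (a * x * y) := by
      rw [mul_assoc]
    have h5 : LinearMap.trace K V (a * (y * x)) = LinearMap.trace K V (x * a * y) := by
      rw [← mul_assoc, LinearMap.trace_mul_comm, mul_assoc]
    rw [mul_sub, map_sub, h4, h5]
    rw [sub_mul, map_sub] at h3
    rw [← neg_eq_zero, neg_sub]
    exact h3
  · rw [Submodule.eq_bot_iff]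
    rintro x ⟨hx, hx'⟩
    refine trace_nondeg hc hp hd hI hx fun y hy => ?_
    rw [LinearMap.trace_mul_comm]
    exact hx'.2 y hy
  · refine le_antisymm (sup_le hI.1 hI'1) fun x hx => ?_
    obtain ⟨b, hb, hbt⟩ := exists_repr hc hp hd hI (LinearMap.trace K V ∘ₗ LinearMap.mulRight K x)
    rw [Submodule.mem_sup]
    refine ⟨b, hb, x - b, ⟨Submodule.sub_mem _ hx (hI.1 hb), fun y hy => ?_⟩, by abel⟩
    have h1 := hbt y hy
    rw [LinearMap.comp_apply, LinearMap.mulRight_apply] at h1
    rw [mul_sub, map_sub, h1, sub_self]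

end Pol

end Pool.Agent.Q219.HD
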