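import Pool.Agent.Q219.HG.GM2
import Pool.Agent.Q219.HG.Cod
import Pool.Agent.Q219.HG.EllF
import Pool.Agent.Q219.HD.Dom2

/-!
# The overlap of two varieties
-/

open CategoryTheory AlgebraicGeometry TensorProduct

universe u

namespace Pool.Agent.Q219.HD

open Module
open Pool.Agent.H914 Pool.Agent.H914.VarClass Pool.Agent.H914.VarClass.Obj
  Pool.Agent.H914.WeilCohomology
open Pool.Agent.Y133.Half
open Pool.Agent.Y121
open Pool.Agent.Q50.BL

section Pair

set_option linter.unusedSectionVars false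

variable {K : Type*} [Field K] {Λ : Type*} [AddCommGroup Λ] [Module K Λ]
  {R A B : Type*} [Ring R] [Algebra K R] [Ring A] [Algebra K A] [Ring B] [Algebra K B]
  [FiniteDimensional K R] [FiniteDimensional K A] [FiniteDimensional K B]

/-- The elements of the second factor. -/
def fib (f : Λ →ₗ[K] R) (g : Λ →ₗ[K] A) : Submodule K A :=
  (gen (f.prod g)).comap (LinearMap.inr K R A)

omit [FiniteDimensional K R] [FiniteDimensional K A] in
theorem mem_fib {f : Λ →ₗ[K] R} {g : Λ →ₗ[K] A} {x : A} :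
    x ∈ fib f g ↔ ((0, x) : R × A) ∈ gen (f.prod g) := Iff.rfl

theorem finrank_fib (f : Λ →ₗ[K] R) (g : Λ →ₗ[K] A) :
    finrank K (gen (f.prod g)) = finrank K (gen f) + finrank K (fib f g) := by
  have hfst : IsLieMap (LinearMap.fst K R A) := fun _ _ => rfl
  let φ : gen (f.prod g) →ₗ[K] R := (LinearMap.fst K R A) ∘ₗ (gen (f.prod g)).subtype
  have h1 := LinearMap.finrank_range_add_finrank_ker φ
  have h2 : LinearMap.range φ = gen f := by
    rw [LinearMap.range_comp, Submodule.range_subtype, map_gen hfst]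
    rfl
  have h3 : finrank K (LinearMap.ker φ) = finrank K (fib f g) := by
    let e : LinearMap.ker φ ≃ₗ[K] fib f g :=
      { toFun := fun x => ⟨x.1.1.2, by
          have hx : x.1.1.1 = 0 := x.2
          have : ((0, x.1.1.2) : R × A) = x.1.1 := Prod.ext hx.symm rfl
          change ((0, x.1.1.2) : R × A) ∈ gen (f.prod g)
          rw [this]
          exact x.1.2⟩
        map_add' := fun x y => rfl
        map_smul' := fun c x => rfl
        invFun := fun y => ⟨⟨((0, y.1) : R × A), y.2⟩, rfl⟩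
        left_inv := fun x => by
          have hx : x.1.1.1 = 0 := x.2
          exact Subtype.ext (Subtype.ext (Prod.ext hx.symm rfl))
        right_inv := fun y => rfl }
    exact e.finrank_eq
  rw [h2, h3] at h1
  exact h1.symm

theorem fib_prod_le (f : Λ →ₗ[K] R) (g : Λ →ₗ[K] A) (g' : Λ →ₗ[K] B) :
    finrank K (fib f (g.prod g')) ≤ finrank K (fib f g) + finrank K (fib f g') := by
  have h1 : ∀ x ∈ fib f (g.prod g'), x.1 ∈ fib f g := by
    intro x hx
    exact map_gen_mem (f := (LinearMap.id : R →ₗ[K] R).prodMap (LinearMap.fst K A B))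
      (fun _ _ => rfl) (h := f.prod (g.prod g')) (h' := f.prod g) (fun _ => rfl) hx
  have h2 : ∀ x ∈ fib f (g.prod g'), x.2 ∈ fib f g' := by
    intro x hx
    exact map_gen_mem (f := (LinearMap.id : R →ₗ[K] R).prodMap (LinearMap.snd K A B))
      (fun _ _ => rfl) (h := f.prod (g.prod g')) (h' := f.prod g') (fun _ => rfl) hx
  let φ : fib f (g.prod g') →ₗ[K] fib f g × fib f g' :=
    { toFun := fun x => (⟨x.1.1, h1 x.1 x.2⟩, ⟨x.1.2, h2 x.1 x.2⟩)
      map_add' := fun _ _ => rfl
      map_smul' := fun _ _ => rfl }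
  have h3 : Function.Injective φ := by
    intro x y hxy
    have e1 := congrArg (fun p => (p.1 : A)) hxy
    have e2 := congrArg (fun p => (p.2 : B)) hxy
    exact Subtype.ext (Prod.ext e1 e2)
  have h4 := LinearMap.finrank_le_finrank_of_injective h3
  rwa [Module.finrank_prod] at h4

/-- The overlap. -/
noncomputable def ovl (f : Λ →ₗ[K] R) (g : Λ →ₗ[K] A) : ℕ :=
  finrank K (gen f) + finrank K (gen g) - finrank K (gen (f.prod g))

theorem fib_le (f : Λ →ₗ[K] R) (g : Λ →ₗ[K] A) : finrank K (fib f g) ≤ finrank K (gen g) := by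
  refine Submodule.finrank_mono fun x hx => ?_
  exact map_gen_mem (f := LinearMap.snd K R A) (fun _ _ => rfl) (h := f.prod g) (h' := g)
    (fun _ => rfl) hx

theorem ovl_add {f : Λ →ₗ[K] R} {g : Λ →ₗ[K] A} {g' : Λ →ₗ[K] B} (h : Free2 g g') :
    ovl f g + ovl f g' ≤ ovl f (g.prod g') := by
  have h1 := fib_prod_le f g g'
  have h2 := (free2_iff_finrank g g').1 h
  rw [ovl, ovl, ovl, h2, finrank_fib f g, finrank_fib f g', finrank_fib f (g.prod g')]
  have h3 := fib_le f g
  have h4 := fib_le f g'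
  omega

theorem ovl_le (f : Λ →ₗ[K] R) (g : Λ →ₗ[K] A) : ovl f g ≤ finrank K (gen f) := by
  have h1 : finrank K (gen g) ≤ finrank K (gen (f.prod g)) := by
    have h2 : gen g = (gen (f.prod g)).map (LinearMap.snd K R A) := by
      rw [map_gen (fun _ _ => rfl)]
      rfl
    rw [h2]
    exact Submodule.finrank_map_le _ _
  rw [ovl]
  omega

end Pair

variable {k : Type u} [Field k] {𝒱 : VarClass k} {ops : CycleOps 𝒱}

section AH

variable {T : AH.HodgeTheory ops} {X Y Z A B P Q : 𝒱.Obj} {c : ℂ ≃ₐ[T.W.K] ℂ}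

theorem elem_codim (hT : PolH T c) (hc : ∀ z, c z = (starRingEnd ℂ) z) (X : 𝒱.Obj)
    (hcod : finrank T.W.K (gen (hg T X)) ≤ finrank T.W.K (der (gen (hg T X))) + 1) :
    Elem (hg T X) := by
  obtain ⟨Q, hQ⟩ := exists_pol hT X
  obtain ⟨l, hl⟩ := exists_lev T X
  obtain ⟨e, he⟩ := exists_dec hl.nod
  exact elem_of_codim hc hQ he hcod

theorem elem_cen (hT : PolH T c) (hc : ∀ z, c z = (starRingEnd ℂ) z) (X : 𝒱.Obj)
    (hcen : finrank T.W.K (cen (gen (hg T X))) ≤ 1) : Elem (hg T X) := by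
  refine elem_codim hT hc X ?_
  have h1 : gen (hg T X) ≤ der (gen (hg T X)) ⊔ cen (gen (hg T X)) := by
    intro x hx
    obtain ⟨y, hy, z, hz, rfl⟩ := (red_hg hT hc X).split (gen_isLie _) hx
    exact Submodule.add_mem_sup hy hz
  have h2 := Submodule.finrank_mono h1
  have h3 := Submodule.finrank_add_le_finrank_add_finrank (der (gen (hg T X)))
    (cen (gen (hg T X)))
  omega

/-- Irreducible Lie algebras have a centre of dimension at most one. -/
theorem cen_irr (hI : Irr (gen (hg T X))) : finrank T.W.K (cen (gen (hg T X))) ≤ 1 := by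
  rcases hI _ cen_ideal with h | h
  · rw [h, finrank_bot]
    exact Nat.zero_le _
  · have h1 : Comm (gen (hg T X)) := by
      intro x hx y hy
      rw [← h] at hx
      exact hx.2 y hy
    obtain ⟨J, -, hJ⟩ := hI.line h1
    rw [h, hJ]
    refine (finrank_span_le_card (R := T.W.K) ({J} : Set (EH T X))).trans ?_
    rw [Set.toFinset_singleton, Finset.card_singleton]

/-- The overlap of two varieties. -/
noncomputable def ov (T : AH.HodgeTheory ops) (X Y : 𝒱.Obj) : ℕ :=
  finrank T.W.K (gen (hg T X)) + finrank T.W.K (gen (hg T Y)) -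
    finrank T.W.K (gen (hg T (X.prod Y)))

theorem ov_eq (hX : Nontrivial (T.W.H X)) (hY : Nontrivial (T.W.H Y)) :
    ov T X Y = ovl (hg T X) (hg T Y) := by
  rw [ov, ovl, finrank_gen_prod' hX hY]

theorem ov_le (hX : Nontrivial (T.W.H X)) (hY : Nontrivial (T.W.H Y)) :
    ov T X Y ≤ finrank T.W.K (gen (hg T X)) := by
  rw [ov_eq hX hY]
  exact ovl_le _ _

theorem ov_add (hZ : Nontrivial (T.W.H Z)) (hX : Nontrivial (T.W.H X))
    (hY : Nontrivial (T.W.H Y)) (hf : Free2 (hg T X) (hg T Y)) :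
    ov T Z X + ov T Z Y ≤ ov T Z (X.prod Y) := by
  have h1 : finrank T.W.K (gen ((hg T Z).prod (hg T (X.prod Y)))) =
      finrank T.W.K (gen ((hg T Z).prod ((hg T X).prod (hg T Y)))) := by
    let ψ : EH T Z × (EH T X × EH T Y) →ₗ[T.W.K] EH T Z × EH T (X.prod Y) :=
      (LinearMap.id : EH T Z →ₗ[T.W.K] EH T Z).prodMap (two T.W X Y)
    have hψ : IsLieMap ψ := by
      intro p q
      exact Prod.ext rfl (two_isLieMap T.W X Y p.2 q.2)
    have h2 : gen ((hg T Z).prod (hg T (X.prod Y))) =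
        (gen ((hg T Z).prod ((hg T X).prod (hg T Y)))).map ψ := by
      rw [map_gen hψ]
      congr 1
      apply LinearMap.ext
      intro l
      exact Prod.ext rfl (hg_prod l)
    rw [h2]
    refine finrank_map_of _ _ ?_
    rintro ⟨a, b⟩ hab h3
    have h4 : b ∈ gen ((hg T X).prod (hg T Y)) := snd_gen hab
    have h5 : two T.W X Y b = 0 := congrArg Prod.snd h3
    have h6 : a = 0 := congrArg Prod.fst h3
    exact Prod.ext h6 (two_inj hX hY b h4 h5)
  rw [ov_eq hZ hX, ov_eq hZ hY, ov_eq hZ nontrivial_prod]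
  have h3 : ovl (hg T Z) (hg T (X.prod Y)) = ovl (hg T Z) ((hg T X).prod (hg T Y)) := by
    rw [ovl, ovl, h1, finrank_gen_prod' hX hY]
  rw [h3]
  exact ovl_add hf

/-- **The sum of the overlaps.** -/
theorem sum_ov (hT : PolH T c) (hc : ∀ z, c z = (starRingEnd ℂ) z) (hZ : Nontrivial (T.W.H Z))
    {X₀ : 𝒱.Obj} {l : List 𝒱.Obj} (h : ∀ X ∈ X₀ :: l, Nontrivial (T.W.H X) ∧ Elem (hg T X))
    (hp : (X₀ :: l).Pairwise fun X Y => Free2 (hg T X) (hg T Y)) :
    ((X₀ :: l).map (ov T Z)).sum ≤ ov T Z (times X₀ l) := by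
  induction l generalizing X₀ with
  | nil =>
    rw [List.map_singleton, List.sum_singleton]
    exact le_rfl
  | cons X l ih =>
    obtain ⟨h1, h2⟩ := h X₀ List.mem_cons_self
    obtain ⟨h3, h4⟩ := h X (List.mem_cons_of_mem _ List.mem_cons_self)
    rw [List.pairwise_cons, List.pairwise_cons] at hp
    obtain ⟨hp1, hp2, hp3⟩ := hp
    have h5 : ((X₀.prod X :: l).map (ov T Z)).sum ≤ ov T Z (times (X₀.prod X) l) := by
      refine ih (fun Y hY => ?_) (List.pairwise_cons.2 ⟨fun Y hY => ?_, hp3⟩)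
      · rcases List.mem_cons.1 hY with rfl | hY
        · exact ⟨nontrivial_prod, elem_prod hT hc h1 h3 h2 h4⟩
        · exact h Y (List.mem_cons_of_mem _ (List.mem_cons_of_mem _ hY))
      · have h6 : Free2 (hg T Y) (hg T (times X₀ [X])) := by
          refine free_times hT hc fun X' hX' => ?_
          rcases List.mem_cons.1 hX' with rfl | hX'
          · exact ⟨h1, h2, (hp1 Y (List.mem_cons_of_mem _ hY)).symm⟩
          · rw [List.mem_singleton.1 hX']
            exact ⟨h3, h4, (hp2 Y hY).symm⟩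
        exact h6.symm
    have h6 := ov_add hZ h1 h3 (hp1 X List.mem_cons_self)
    rw [List.map_cons, List.sum_cons] at h5
    rw [List.map_cons, List.sum_cons, List.map_cons, List.sum_cons]
    change _ ≤ ov T Z (times (X₀.prod X) l)
    omega

theorem full_snd (hP : Nontrivial (T.W.H P)) (h : Full T (P.prod Q)) : Full T Q := h.of_prod

end AH

end Pool.Agent.Q219.HD
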