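import Pool.Agent.Q219.HG.Trp
import Pool.Agent.Q219.HG.Neg
import Pool.Agent.Q219.HG.Sel

/-!
# Relations between the Hodge operator modulo commutators and square roots
-/

set_option linter.unusedSectionVars false

open TensorProduct

namespace Pool.Agent.Q219.HD

open Module Polynomial
open Pool.Agent.Q50.BL

section Cof

variable {K : Type} [Field K] [CharZero K] [Algebra K ℂ] {V : Type*} [AddCommGroup V]
  [Module K V] [FiniteDimensional K V]

theorem repr_ev {ι : Type*} (b : Basis ι K V) (f : ℂ →ₗ[K] K) (y : ℂ ⊗[K] V) (i : ι) :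
    b.repr (ev f y) i = f ((b.baseChange ℂ).repr y i) := by
  induction y using TensorProduct.induction_on with
  | zero => rw [map_zero, map_zero, map_zero, Finsupp.zero_apply, Finsupp.zero_apply, map_zero]
  | add x y hx hy =>
    rw [map_add, map_add, map_add, Finsupp.add_apply, Finsupp.add_apply, map_add, hx, hy]
  | tmul z v =>
    rw [ev_tmul, map_smul, Finsupp.smul_apply, smul_eq_mul, Basis.baseChange_repr_tmul,
      map_smul, smul_eq_mul, mul_comm]

/-- The trace of the coefficients. -/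
theorem trace_cof (g : Module.End ℂ (ℂ ⊗[K] V)) (f : ℂ →ₗ[K] K) :
    LinearMap.trace K V (cofL g f) = f (LinearMap.trace ℂ (ℂ ⊗[K] V) g) := by
  let b := Module.finBasis K V
  rw [LinearMap.trace_eq_matrix_trace K b, LinearMap.trace_eq_matrix_trace ℂ (b.baseChange ℂ),
    Matrix.trace, Matrix.trace, map_sum]
  refine Finset.sum_congr rfl fun i _ => ?_
  rw [Matrix.diag_apply, Matrix.diag_apply, LinearMap.toMatrix_apply, LinearMap.toMatrix_apply,
    cofL_apply, repr_ev, Basis.baseChange_apply]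

theorem cof_mul (g : Module.End ℂ (ℂ ⊗[K] V)) (b : Module.End K V) (f : ℂ →ₗ[K] K) :
    cofL (g * b.baseChange ℂ) f = cofL g f * b := by
  apply LinearMap.ext
  intro v
  rw [Module.End.mul_apply, cofL_apply, cofL_apply, Module.End.mul_apply,
    LinearMap.baseChange_tmul]

theorem commute_GC {G : Submodule K (Module.End K V)} {b : Module.End K V}
    (hb : ∀ y ∈ G, b * y = y * b) {f : Module.End ℂ (ℂ ⊗[K] V)} (hf : f ∈ GC G) :
    Commute (b.baseChange ℂ : Module.End ℂ (ℂ ⊗[K] V)) f := by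
  refine Submodule.span_induction
    (p := fun f _ => Commute (b.baseChange ℂ : Module.End ℂ (ℂ ⊗[K] V)) f) ?_ ?_ ?_ ?_ hf
  · rintro _ ⟨g, hg, rfl⟩
    change (b.baseChange ℂ : Module.End ℂ (ℂ ⊗[K] V)) * g.baseChange ℂ =
      g.baseChange ℂ * b.baseChange ℂ
    have h1 : (b.baseChange ℂ : Module.End ℂ (ℂ ⊗[K] V)) * g.baseChange ℂ =
        (b * g : Module.End K V).baseChange ℂ := (LinearMap.baseChange_comp (A := ℂ) g b).symm
    have h2 : (g.baseChange ℂ : Module.End ℂ (ℂ ⊗[K] V)) * b.baseChange ℂ =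
        (g * b : Module.End K V).baseChange ℂ := (LinearMap.baseChange_comp (A := ℂ) b g).symm
    rw [h1, h2, hb g hg]
  · exact Commute.zero_right _
  · intro x y _ _ hx hy
    exact hx.add_right hy
  · intro r x _ hx
    exact hx.smul_right r

end Cof

section

variable {K : Type} [Field K] [CharZero K] [Algebra K ℂ]

/-- The functional `f ↦ f w` factors through `h` and is zero on commutators. -/
def CC {A : Type*} [Ring A] [Algebra K A] (h : (ℂ →ₗ[K] K) →ₗ[K] A) (w : ℂ) : Prop :=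
  ∃ φ : A →ₗ[K] K, (∀ x ∈ gen h, ∀ y ∈ gen h, φ (x * y - y * x) = 0) ∧ ∀ f, φ (h f) = f w

variable {V : Type*} [AddCommGroup V] [Module K V] [FiniteDimensional K V]
  {c : ℂ ≃ₐ[K] ℂ} {l : ℕ} {h : Module.End ℂ (ℂ ⊗[K] V)} {Q : LinearMap.BilinForm K V}
  {e : ℤ → Module.End ℂ (ℂ ⊗[K] V)}

theorem CC_of_poly {b : Module.End K V} (hbc : ∀ y ∈ gen (cofL h), b * y = y * b) {P : K[X]}
    {r : K} {z : ℂ} (hr : r ≠ 0) (hP : LinearMap.trace ℂ (ℂ ⊗[K] V)
      (h * (aeval b P).baseChange ℂ) = algebraMap K ℂ r * z) : CC (cofL h) z := by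
  set b' := aeval b P with hb'
  have hbc' : ∀ y ∈ gen (cofL h), b' * y = y * b' := by
    intro y hy
    have h4 : Commute b' y := by
      rw [hb']
      have h5 : Commute b y := hbc y hy
      clear hP hb'
      induction P using Polynomial.induction_on with
      | C r =>
        rw [aeval_C]
        exact Algebra.commute_algebraMap_left r y
      | add p q hp hq =>
        rw [map_add]
        exact hp.add_left hq
      | monomial n r ih =>
        rw [pow_succ, ← mul_assoc, map_mul, aeval_X]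
        exact ih.mul_left h5
    exact h4
  refine ⟨r⁻¹ • (LinearMap.trace K V ∘ₗ LinearMap.mulRight K b'), ?_, ?_⟩
  · intro x _ y hy
    rw [LinearMap.smul_apply, LinearMap.comp_apply, LinearMap.mulRight_apply, sub_mul, map_sub]
    have h5 : LinearMap.trace K V (x * y * b') = LinearMap.trace K V (y * x * b') := by
      rw [mul_assoc, ← hbc' y hy, ← mul_assoc, LinearMap.trace_mul_comm, mul_assoc]
    rw [h5, sub_self, smul_zero]
  · intro f
    rw [LinearMap.smul_apply, LinearMap.comp_apply, LinearMap.mulRight_apply, ← cof_mul,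
      trace_cof, hP, lin_mul, smul_eq_mul, ← mul_assoc, inv_mul_cancel₀ hr, one_mul]

theorem exists_cop (hc : ∀ z, c z = (starRingEnd ℂ) z) (hp : IsPol c h Q) (hd : Dec ℂ l h e)
    {w : ℂ} (hw : CC (cofL h) w) : ∃ b : Module.End K V,
      (∀ y ∈ gen (cofL h), b * y = y * b) ∧
        LinearMap.trace ℂ (ℂ ⊗[K] V) (h * b.baseChange ℂ) = w := by
  obtain ⟨φ, h1, h2⟩ := hw
  obtain ⟨b, hb, hbc, hbt⟩ := exists_central hc hp hd h1
  refine ⟨b, hbc, ?_⟩
  refine sep_eq (K := K) fun f => ?_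
  rw [← h2, hbt _ (gen_mem _ f), ← cof_mul, trace_cof]

/-- **The components of a relation between two operators.** -/
theorem CC_component {V' : Type*} [AddCommGroup V'] [Module K V'] [FiniteDimensional K V']
    {l' : ℕ} {h' : Module.End ℂ (ℂ ⊗[K] V')} {Q' : LinearMap.BilinForm K V'}
    {e' : ℤ → Module.End ℂ (ℂ ⊗[K] V')} (hc : ∀ z, c z = (starRingEnd ℂ) z) (hp : IsPol c h Q)
    (hd : Dec ℂ l h e) (hp' : IsPol c h' Q') (hd' : Dec ℂ l' h' e')
    {T : Finset ℂ} (hT : ∀ z ∈ T, z ≠ 0 ∧ ∃ a : K, z * z = algebraMap K ℂ a)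
    (hT' : ∀ z ∈ T, ∀ z' ∈ T, z' ≠ z → ∀ r : K, z' ≠ algebraMap K ℂ r * z) {a : ℂ → K}
    {w w' : ℂ} (hw : CC (cofL h) w) (hw' : CC (cofL h') w')
    (hsum : w + w' = ∑ z ∈ T, algebraMap K ℂ (a z) * z) {z : ℂ} (hz : z ∈ T)
    (h0 : a z ≠ 0) : CC (cofL h) z ∨ CC (cofL h') z := by
  classical
  obtain ⟨b, hbc, hbt⟩ := exists_cop hc hp hd hw
  obtain ⟨b', hbc', hbt'⟩ := exists_cop hc hp' hd' hw'
  have hsq : ∀ z : ℂ, ∃ a : K, z ∈ T → z * z = algebraMap K ℂ a := by
    intro z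
    by_cases hz : z ∈ T
    · obtain ⟨-, a, ha⟩ := hT z hz
      exact ⟨a, fun _ => ha⟩
    · exact ⟨0, fun h => absurd h hz⟩
  choose q hq using hsq
  set F : K[X] := b.charpoly * b'.charpoly * ∏ z ∈ T, (X ^ 2 - C (q z)) with hF
  have hF0 : F ≠ 0 := by
    rw [hF]
    refine mul_ne_zero (mul_ne_zero b.charpoly_monic.ne_zero b'.charpoly_monic.ne_zero)
      (Finset.prod_ne_zero_iff.2 fun z _ => ?_)
    exact X_pow_sub_C_ne_zero (by norm_num) _
  obtain ⟨L, hfd, hgal, hroot⟩ := exists_field hF0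
  have hL : ∀ μ : ℂ, aeval μ b.charpoly = 0 → μ ∈ L := fun μ hμ => hroot μ (by
    rw [hF, map_mul, map_mul, hμ, zero_mul, zero_mul])
  have hL' : ∀ μ : ℂ, aeval μ b'.charpoly = 0 → μ ∈ L := fun μ hμ => hroot μ (by
    rw [hF, map_mul, map_mul, hμ, mul_zero, zero_mul])
  have hTL : ∀ z ∈ T, z ∈ L := by
    intro z hz
    refine hroot z ?_
    rw [hF, map_mul, map_prod, Finset.prod_eq_zero hz, mul_zero]
    rw [map_sub, map_pow, aeval_X, aeval_C, ← hq z hz, pow_two, sub_self]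
  let z' : L := ⟨z, hTL z hz⟩
  have hz0 : z' ≠ 0 := fun e => (hT z hz).1 (congrArg Subtype.val e)
  have hz2 : ∃ a : K, z' * z' = algebraMap K L a := ⟨q z, Subtype.ext (hq z hz)⟩
  obtain ⟨u, P, hu, hP⟩ := exists_component hd.aeval_nod (commute_GC hbc op_mem) hL hz0 hz2
  obtain ⟨u', P', hu', hP'⟩ :=
    exists_component hd'.aeval_nod (commute_GC hbc' op_mem) hL' hz0 hz2
  have hsm : ∀ (r : K) (x : L), ((r • x : L) : ℂ) = algebraMap K ℂ r * (x : ℂ) := fun r x => by
    rw [Algebra.smul_def]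
    rfl
  have h2 : ∀ t ∈ T, ∃ v : L, (v : ℂ) = t := fun t ht => ⟨⟨t, hTL t ht⟩, rfl⟩
  choose! v hv using h2
  have h3 : u + u' = ∑ t ∈ T, a t • v t := by
    apply Subtype.ext
    rw [AddSubmonoidClass.coe_finsetSum]
    have h4 : ((u + u' : L) : ℂ) = w + w' := by
      rw [← hbt, ← hbt', hu, hu']
      rfl
    rw [h4, hsum]
    refine Finset.sum_congr rfl fun t ht => ?_
    rw [hsm, hv t ht]
  have h5 : prj (K := K) z' u + prj (K := K) z' u' = a z • z' := by
    rw [← map_add, h3, map_sum, Finset.sum_eq_single z]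
    · rw [map_smul]
      have h7 : v z = z' := Subtype.ext (hv z hz)
      rw [h7, prj_self hz0]
    · intro t ht hne
      rw [map_smul, prj_zero hz0 hz2 ⟨q t, Subtype.ext ?_⟩ fun r hr => ?_, smul_zero]
      · change (v t : ℂ) * (v t : ℂ) = _
        rw [hv t ht]
        exact hq t ht
      · refine hT' z hz t ht hne r ?_
        have h8 := congrArg Subtype.val hr
        rw [hv t ht] at h8
        exact h8
    · intro h
      exact absurd hz h
  by_cases h6 : Algebra.trace K L (u / z') / (finrank K L : K) = 0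
  · right
    have h7 : Algebra.trace K L (u' / z') / (finrank K L : K) ≠ 0 := by
      intro h8
      rw [prj_apply, prj_apply, h6, h8, zero_smul, add_zero] at h5
      exact (smul_ne_zero h0 hz0) h5.symm
    refine CC_of_poly hbc' h7 (hP'.trans ?_)
    rw [prj_apply, hsm]
  · left
    refine CC_of_poly hbc h6 (hP.trans ?_)
    rw [prj_apply, hsm]

end

section Abs

variable {K : Type} [Field K] [CharZero K] [Algebra K ℂ] {A : Type*} [Ring A] [Algebra K A]

/-- Relations have components. -/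
def HasComp (h : (ℂ →ₗ[K] K) →ₗ[K] A) : Prop :=
  ∀ (T : Finset (SqR K)) (a : SqR K → K), CC h (∑ z ∈ T, algebraMap K ℂ (a z) * z.1) →
    ∀ z ∈ T, a z ≠ 0 → CC h z.1

/-- The space spanned by the commutators. -/
def der (G : Submodule K A) : Submodule K A :=
  Submodule.span K {z : A | ∃ x ∈ G, ∃ y ∈ G, z = x * y - y * x}

variable {h : (ℂ →ₗ[K] K) →ₗ[K] A}

theorem der_le {G : Submodule K A} (hG : IsLie G) : der G ≤ G := by
  refine Submodule.span_le.2 ?_
  rintro _ ⟨x, hx, y, hy, rfl⟩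
  exact hG x hx y hy

theorem HasComp.coord (H : HasComp h) {T : Finset (SqR K)} (hT : ∀ z ∈ T, ¬ CC h z.1)
    {z : SqR K} (hz : z ∈ T) : ∃ l : ℂ →ₗ[K] K, h l ∈ der (gen h) ∧ l z.1 = 1 ∧
      ∀ t ∈ T, t ≠ z → l t.1 = 0 := by
  classical
  let q : (ℂ →ₗ[K] K) →ₗ[K] (A ⧸ der (gen h)) := (der (gen h)).mkQ ∘ₗ h
  have hq : ∀ l, l ∈ LinearMap.ker q ↔ h l ∈ der (gen h) := by
    intro l
    rw [LinearMap.mem_ker, LinearMap.comp_apply, Submodule.mkQ_apply,
      Submodule.Quotient.mk_eq_zero]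
  let E : LinearMap.ker q →ₗ[K] (T → K) := LinearMap.pi fun t =>
    (Module.Dual.eval K ℂ t.1.1) ∘ₗ (LinearMap.ker q).subtype
  have hE : ∀ (l : LinearMap.ker q) (t : T), E l t = l.1 t.1.1 := fun _ _ => rfl
  have hsur : LinearMap.range E = ⊤ := by
    by_contra hne
    obtain ⟨ψ, hψ0, hψ⟩ := Submodule.exists_le_ker_of_lt_top _ (lt_top_iff_ne_top.2 hne)
    set a : SqR K → K := fun z => if hz : z ∈ T then ψ (Pi.single ⟨z, hz⟩ 1) else 0 with ha
    have ha' : ∀ t : T, a t.1 = ψ (Pi.single t 1) := fun t => dif_pos t.2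
    have h1 : ∀ l ∈ LinearMap.ker q, l (∑ z ∈ T, algebraMap K ℂ (a z) * z.1) = 0 := by
      intro l hl
      have h2 : ψ (E ⟨l, hl⟩) = 0 := hψ ⟨⟨l, hl⟩, rfl⟩
      have h3 : E ⟨l, hl⟩ = ∑ t : T, (l t.1.1) • (Pi.single t (1 : K) : T → K) := by
        funext t
        rw [hE, Finset.sum_apply, Finset.sum_eq_single t]
        · rw [Pi.smul_apply, Pi.single_eq_same, smul_eq_mul, mul_one]
        · intro t' _ hne'
          rw [Pi.smul_apply, Pi.single_eq_of_ne hne'.symm, smul_zero]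
        · intro hn
          exact absurd (Finset.mem_univ t) hn
      rw [h3, map_sum] at h2
      rw [map_sum, ← Finset.sum_coe_sort T, ← h2]
      refine Finset.sum_congr rfl fun t _ => ?_
      rw [lin_mul, ha', map_smul, smul_eq_mul, mul_comm]
    have h4 : Module.Dual.eval K ℂ (∑ z ∈ T, algebraMap K ℂ (a z) * z.1) ∈
        LinearMap.range q.dualMap := by
      rw [LinearMap.range_dualMap_eq_dualAnnihilator_ker, Submodule.mem_dualAnnihilator]
      intro l hl
      exact h1 l hl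
    obtain ⟨φ, hφ⟩ := h4
    have h5 : CC h (∑ z ∈ T, algebraMap K ℂ (a z) * z.1) := by
      refine ⟨φ ∘ₗ (der (gen h)).mkQ, fun x hx y hy => ?_, fun f => ?_⟩
      · rw [LinearMap.comp_apply, Submodule.mkQ_apply,
          (Submodule.Quotient.mk_eq_zero _).2 (show x * y - y * x ∈ der (gen h) from
            Submodule.subset_span ⟨x, hx, y, hy, rfl⟩), map_zero]
      · exact LinearMap.congr_fun hφ f
    have h6 : ∃ t : T, a t.1 ≠ 0 := by
      by_contra hcon
      push Not at hcon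
      apply hψ0
      apply (Pi.basisFun K T).ext
      intro t
      rw [Pi.basisFun_apply, ← ha', hcon t, LinearMap.zero_apply]
    obtain ⟨t, ht⟩ := h6
    exact hT t.1 t.2 (H T a h5 t.1 t.2 ht)
  obtain ⟨l, hl⟩ := LinearMap.range_eq_top.1 hsur (Pi.single ⟨z, hz⟩ 1)
  refine ⟨l.1, (hq l.1).1 l.2, ?_, fun t ht hne => ?_⟩
  · have h1 := congrFun hl ⟨z, hz⟩
    rw [Pi.single_eq_same] at h1
    exact h1
  · have h1 := congrFun hl ⟨t, ht⟩
    rw [Pi.single_eq_of_ne (fun e => hne (congrArg Subtype.val e))] at h1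
    exact h1

end Abs

section

variable {K : Type} [Field K] [CharZero K] [Algebra K ℂ]
  {V : Type*} [AddCommGroup V] [Module K V] [FiniteDimensional K V]
  {c : ℂ ≃ₐ[K] ℂ} {l : ℕ} {h : Module.End ℂ (ℂ ⊗[K] V)} {Q : LinearMap.BilinForm K V}
  {e : ℤ → Module.End ℂ (ℂ ⊗[K] V)}

/-- The members of the set of representatives are different modulo rational factors. -/
theorem sqR_ne {z z' : SqR K} (hne : z' ≠ z) (r : K) : z'.1 ≠ algebraMap K ℂ r * z.1 := by
  intro hr
  have h0 : r ≠ 0 := by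
    rintro rfl
    rw [map_zero, zero_mul] at hr
    exact z'.2.1 hr
  apply hne
  apply Subtype.ext
  rw [← z.2.2.2, ← z'.2.2.2]
  exact rp_eq h0 hr

/-- Relations between two operators have components. -/
def TwoComp {A B : Type*} [Ring A] [Algebra K A] [Ring B] [Algebra K B]
    (h : (ℂ →ₗ[K] K) →ₗ[K] A) (h' : (ℂ →ₗ[K] K) →ₗ[K] B) : Prop :=
  ∀ (T : Finset (SqR K)) (a : SqR K → K) (w w' : ℂ), CC h w → CC h' w' →
    w + w' = ∑ z ∈ T, algebraMap K ℂ (a z) * z.1 → ∀ z ∈ T, a z ≠ 0 → CC h z.1 ∨ CC h' z.1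

theorem twoComp {V' : Type*} [AddCommGroup V'] [Module K V'] [FiniteDimensional K V']
    {l' : ℕ} {h' : Module.End ℂ (ℂ ⊗[K] V')} {Q' : LinearMap.BilinForm K V'}
    {e' : ℤ → Module.End ℂ (ℂ ⊗[K] V')} (hc : ∀ z, c z = (starRingEnd ℂ) z) (hp : IsPol c h Q)
    (hd : Dec ℂ l h e) (hp' : IsPol c h' Q') (hd' : Dec ℂ l' h' e') :
    TwoComp (cofL h) (cofL h') := by
  classical
  intro T a w w' hw hw' hsum z hz h0
  have hinj : Function.Injective (fun z : SqR K => z.1) := fun z z' h => Subtype.ext h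
  have hex : ∀ w : ℂ, ∃ r : K, ∀ z : SqR K, z.1 = w → r = a z := by
    intro w
    by_cases hw : ∃ z : SqR K, z.1 = w
    · obtain ⟨z, hz⟩ := hw
      exact ⟨a z, fun z' hz' => by rw [Subtype.ext (hz.trans hz'.symm)]⟩
    · exact ⟨0, fun z hz => absurd ⟨z, hz⟩ hw⟩
  choose a' ha' using hex
  refine CC_component hc hp hd hp' hd' (T := T.image fun z : SqR K => z.1) (a := a') ?_ ?_ hw hw' ?_
    (Finset.mem_image_of_mem _ hz) ?_
  · intro w hw
    obtain ⟨z, -, rfl⟩ := Finset.mem_image.1 hw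
    exact ⟨z.2.1, z.2.2.1⟩
  · intro w hw w' hw' hne r
    obtain ⟨z, -, rfl⟩ := Finset.mem_image.1 hw
    obtain ⟨z', -, rfl⟩ := Finset.mem_image.1 hw'
    exact sqR_ne (fun e => hne (congrArg Subtype.val e)) r
  · rw [Finset.sum_image fun z _ z' _ h => hinj h, hsum]
    refine Finset.sum_congr rfl fun z _ => ?_
    rw [ha' z.1 z rfl]
  · rw [ha' z.1 z rfl]
    exact h0

theorem CC_zero {A : Type*} [Ring A] [Algebra K A] (h : (ℂ →ₗ[K] K) →ₗ[K] A) : CC h 0 :=
  ⟨0, fun _ _ _ _ => rfl, fun f => by rw [LinearMap.zero_apply, map_zero]⟩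

theorem hasComp (hc : ∀ z, c z = (starRingEnd ℂ) z) (hp : IsPol c h Q) (hd : Dec ℂ l h e) :
    HasComp (cofL h) := by
  intro T a hw z hz h0
  rcases twoComp hc hp hd hp hd T a _ 0 hw (CC_zero _) (add_zero _) z hz h0 with h | h
  · exact h
  · exact h

end

end Pool.Agent.Q219.HD
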