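import Pool.Agent.Q219.HG.Ov

/-!
# Independence and the Hodge classes on products of squares
-/

open CategoryTheory AlgebraicGeometry TensorProduct

universe u

namespace Pool.Agent.Q219.HD

open Module
open Pool.Agent.H914 Pool.Agent.H914.VarClass Pool.Agent.H914.VarClass.Obj
  Pool.Agent.H914.WeilCohomology
open Pool.Agent.Y133.Half
open Pool.Agent.Y121
open Pool.Agent.Q50.BL

section Lin

/-- The trace of a skew operator. -/
theorem trace_skew {K V : Type*} [Field K] [CharZero K] [AddCommGroup V] [Module K V]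
    [FiniteDimensional K V] {Q : LinearMap.BilinForm K V} (hQ : ∀ u, (∀ v, Q u v = 0) → u = 0)
    {x : Module.End K V} (hx : ∀ u v, Q (x u) v + Q u (x v) = 0) :
    LinearMap.trace K V x = 0 := by
  have hinj : Function.Injective Q := by
    rw [injective_iff_map_eq_zero]
    intro u hu
    exact hQ u fun v => by rw [hu, LinearMap.zero_apply]
  let e : V ≃ₗ[K] Module.Dual K V :=
    LinearMap.linearEquivOfInjective Q hinj (Subspace.dual_finrank_eq (K := K) (V := V)).symm
  have he : ∀ u, e u = Q u := fun u => rfl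
  let t : Module.End K (Module.Dual K V) := Module.Dual.transpose (R := K) x
  have h1 : e.conj x = (-1 : K) • t := by
    apply LinearMap.ext
    intro f
    obtain ⟨u, rfl⟩ := e.surjective f
    rw [LinearEquiv.conj_apply_apply, e.symm_apply_apply]
    apply LinearMap.ext
    intro v
    change Q (x u) v = (-1 : K) * (Q u (x v))
    linear_combination hx u v
  have h2 := LinearMap.trace_conj' x e
  have h3 : LinearMap.trace K (Module.Dual K V) t = LinearMap.trace K V x :=
    LinearMap.trace_transpose' x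
  rw [h1, map_smul, h3, smul_eq_mul] at h2
  have h4 : (2 : K) * LinearMap.trace K V x = 0 := by linear_combination -h2
  exact (mul_eq_zero.1 h4).resolve_left two_ne_zero

/-- The adjoint map. -/
theorem exists_adj {K : Type*} [Field K] {A B R : Type*} [Ring A] [Algebra K A] [Ring B] [Algebra K B] [Ring R] [Algebra K R]
    [FiniteDimensional K A] [FiniteDimensional K B] {P : Submodule K (A × B)} (hP : IsLie P)
    (τ : R →ₗ[K] K) (hτ : ∀ a b, τ (a * b) = τ (b * a)) {tw : A × B →ₗ[K] R}
    (htw : IsLieMap tw) (hnd : ∀ b ∈ P, (∀ y ∈ P, τ (tw y * tw b) = 0) → b = 0) :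
    ∃ s : A →ₗ[K] A × B, (∀ a, s a ∈ P) ∧
      (∀ a, ∀ x ∈ P, τ (tw x * tw (s a)) = τ (tw x * tw (a, 0))) ∧
      ∀ q ∈ P, ∀ a, s (q.1 * a - a * q.1) = q * s a - s a * q := by
  let F : (A × B) →ₗ[K] Module.Dual K P :=
    { toFun := fun b =>
        { toFun := fun x => τ (tw x.1 * tw b)
          map_add' := fun x y => by rw [Submodule.coe_add, map_add, add_mul, map_add]
          map_smul' := fun r x => by
            rw [Submodule.coe_smul, map_smul, smul_mul_assoc, map_smul, RingHom.id_apply] }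
      map_add' := fun b b' => LinearMap.ext fun x => by
        change τ (tw x.1 * tw (b + b')) = τ (tw x.1 * tw b) + τ (tw x.1 * tw b')
        rw [map_add, mul_add, map_add]
      map_smul' := fun r b => LinearMap.ext fun x => by
        change τ (tw x.1 * tw (r • b)) = r • τ (tw x.1 * tw b)
        rw [map_smul, mul_smul_comm, map_smul] }
  have hF : ∀ b (x : P), F b x = τ (tw x.1 * tw b) := fun _ _ => rfl
  have hinj : Function.Injective (F ∘ₗ P.subtype) := by
    rw [injective_iff_map_eq_zero]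
    intro b hb
    refine Subtype.ext (hnd b.1 b.2 fun y hy => ?_)
    exact LinearMap.congr_fun hb ⟨y, hy⟩
  have hbij : Function.Bijective (F ∘ₗ P.subtype) :=
    ⟨hinj, (LinearMap.injective_iff_surjective_of_finrank_eq_finrank
      (Subspace.dual_finrank_eq (K := K) (V := P)).symm).1 hinj⟩
  let Fe : P ≃ₗ[K] Module.Dual K P := LinearEquiv.ofBijective _ hbij
  let s : A →ₗ[K] P := Fe.symm.toLinearMap ∘ₗ F ∘ₗ LinearMap.inl K A B
  have hs : ∀ (a : A) (x : P), F (s a).1 x = F (a, 0) x := by
    intro a x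
    have h1 : Fe (s a) = F (a, 0) := Fe.apply_symm_apply _
    exact LinearMap.congr_fun h1 x
  refine ⟨P.subtype ∘ₗ s, fun a => (s a).2, fun a x hx => hs a ⟨x, hx⟩, fun q hq a => ?_⟩
  have h1 : q * (s a).1 - (s a).1 * q ∈ P := hP _ hq _ (s a).2
  have h2 : s (q.1 * a - a * q.1) = ⟨_, h1⟩ := by
    apply hinj
    apply LinearMap.ext
    intro x
    change F (s (q.1 * a - a * q.1)).1 x = F (q * (s a).1 - (s a).1 * q) x
    have h3 : ((q.1 * a - a * q.1, 0) : A × B) = q * (a, 0) - (a, 0) * q := by
      refine Prod.ext rfl ?_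
      change (0 : B) = q.2 * 0 - 0 * q.2
      rw [mul_zero, zero_mul, sub_zero]
    have h4 := hs a ⟨x.1 * q - q * x.1, hP _ x.2 _ hq⟩
    rw [hF, hF] at h4
    change τ (tw (x.1 * q - q * x.1) * tw (s a).1) = τ (tw (x.1 * q - q * x.1) * tw (a, 0)) at h4
    rw [htw] at h4
    have key : ∀ t u v : R, τ (t * (u * v - v * u)) = τ ((t * u - u * t) * v) := by
      intro t u v
      rw [mul_sub, sub_mul, map_sub, map_sub, ← mul_assoc, ← mul_assoc, hτ (t * v) u, ← mul_assoc]
    rw [hs, h3, hF, hF, htw, htw, key, key, h4]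
  exact congrArg Subtype.val h2

end Lin

variable {k : Type u} [Field k] {𝒱 : VarClass k} {ops : CycleOps 𝒱}

section AH

variable {T : AH.HodgeTheory ops} {X Y Z A B P Q : 𝒱.Obj} {c : ℂ ≃ₐ[T.W.K] ℂ}

theorem trace_gen (hT : PolH T c) {x : EH T X} (hx : x ∈ gen (hg T X)) :
    LinearMap.trace T.W.K (T.W.H X) x = 0 := by
  obtain ⟨Q, hQ⟩ := exists_pol hT X
  obtain ⟨l, hl⟩ := exists_lev T X
  obtain ⟨e, he⟩ := exists_dec hl.nod
  refine trace_skew (Q := Q) (fun u hu => ?_) fun u v => skew_gen hQ hx u v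
  by_contra hne
  have h1 : (1 ⊗ₜ[T.W.K] u : CH T X) ≠ 0 := by
    intro h
    apply hne
    apply one_tmul_inj (K := T.W.K)
    rw [tmul_zero]
    exact h
  obtain ⟨r, hr, hr'⟩ := hQ.weil_pos he h1
  have h2 : ∀ y : CH T X, QC Q (1 ⊗ₜ[T.W.K] u) y = 0 := by
    intro y
    induction y using TensorProduct.induction_on with
    | zero => rw [map_zero]
    | add a b ha hb => rw [map_add, ha, hb, add_zero]
    | tmul z v => rw [QC_tmul, hu, map_zero, zero_mul]
  rw [h2] at hr'
  have h3 : (r : ℂ) = ((0 : ℝ) : ℂ) := by rw [← hr', Complex.ofReal_zero]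
  exact hr.ne' (Complex.ofReal_injective h3)

theorem hg_push (l : Lam T) (f : X ⟶ Y) (a : T.W.H X) :
    hg T Y l (T.W.push f a) = T.W.push f (hg T X l a) := by
  have e : (1 ⊗ₜ[T.W.K] (T.W.push f a) : CH T Y) = ps T f (1 ⊗ₜ[T.W.K] a) := (ps_tmul f 1 a).symm
  rw [hg_apply, e, hop_ps]
  exact ev_base l (T.W.push f) _

/-- The rational operators and correspondences. -/
theorem corr_hg (l : Lam T) (a : T.W.H (X.prod Y)) (x : T.W.H X) :
    T.W.corr (hg T (X.prod Y) l a) x = hg T Y l (T.W.corr a x) - T.W.corr a (hg T X l x) := by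
  rw [corr_apply, corr_apply, corr_apply, hg_push, hg_mul, hg_map, map_add, add_sub_cancel_right]

/-- The correspondences given by external products of Hodge classes. -/
theorem corr_prods {d : T.W.H (A.prod B)} (hd : d ∈ prods T A B) (x : T.W.H A) :
    T.W.corr d x ∈ (AH.hodgeSys T).C B := by
  refine Submodule.span_induction (p := fun d _ => T.W.corr d x ∈ (AH.hodgeSys T).C B)
    ?_ ?_ ?_ ?_ hd
  · rintro _ ⟨a, ha, b, hb, rfl⟩
    have h1 : T.W.map (snd A B) b * T.W.map (fst A B) x =
        T.W.map (fst A B) x * T.W.map (snd A B) b :=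
      PH.even_comm ((AH.hodgeSys T).even ((AH.hodgeSys T).map _ hb)) _
    rw [corr_apply, mul_assoc, h1, ← mul_assoc, ← map_mul, push_snd]
    exact Submodule.smul_mem _ _ hb
  · rw [corr_zero]
    exact Submodule.zero_mem _
  · intro a b _ _ ha hb
    rw [corr_add]
    exact Submodule.add_mem _ ha hb
  · intro r a _ ha
    rw [corr_smul]
    exact Submodule.smul_mem _ _ ha

theorem trace_ext (φ : EH T X) (ψ : EH T Y) : LinearMap.trace T.W.K _ (extOp T.W φ ψ) =
    LinearMap.trace T.W.K _ φ * LinearMap.trace T.W.K _ ψ := by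
  have h4 : extOp T.W φ ψ = (kappa T.W X Y).conj (TensorProduct.map φ ψ) := by
    rw [LinearEquiv.conj_apply, extOp, LinearMap.comp_assoc]
  rw [h4, LinearMap.trace_conj', LinearMap.trace_tensorProduct']

theorem trace_two (y b : EH T X) (x : EH T Y) :
    LinearMap.trace T.W.K _ (two T.W X Y (y, x) * two T.W X Y (b, 0)) =
      (finrank T.W.K (T.W.H Y) : T.W.K) * LinearMap.trace T.W.K _ (y * b) +
        LinearMap.trace T.W.K _ b * LinearMap.trace T.W.K _ x := by
  rw [two_apply, two_apply, extOp_zero_right, add_zero, add_mul, extOp_mul, extOp_mul, map_add,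
    trace_ext, trace_ext, one_mul, one_mul, mul_one, LinearMap.trace_one, mul_comm]

/-- **Independence and the Hodge classes on products of squares.** -/
theorem free_of_squares (hT : PolH T c) (hc : ∀ z, c z = (starRingEnd ℂ) z)
    (hZ : Nontrivial (T.W.H Z)) (hX : Nontrivial (T.W.H X)) (hcen : cen (gen (hg T X)) = ⊥)
    (hsq : (AH.hodgeSys T).C ((Z.prod Z).prod (X.prod X)) ≤ prods T (Z.prod Z) (X.prod X)) :
    Free2 (hg T Z) (hg T X) := by
  classical
  set P : Submodule T.W.K (EH T Z × EH T X) := gen ((hg T Z).prod (hg T X)) with hP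
  have hPL : IsLie P := gen_isLie _
  have htw : ∀ p ∈ P, two T.W Z X p ∈ gen (hg T (Z.prod X)) := by
    intro p hp
    rw [gen_two]
    exact ⟨p, hp, rfl⟩
  have hnd : ∀ b ∈ P, (∀ y ∈ P, LinearMap.trace T.W.K (T.W.H (Z.prod X))
      (two T.W Z X y * two T.W Z X b) = 0) → b = 0 := by
    intro b hb h0
    obtain ⟨Q, hQ⟩ := exists_pol hT (Z.prod X)
    obtain ⟨l, hl⟩ := exists_lev T (Z.prod X)
    obtain ⟨e, he⟩ := exists_dec hl.nod
    have h1 : two T.W Z X b = 0 := by
      refine trace_nondeg hc hQ he (self_ideal (gen_isLie (hg T (Z.prod X)))) (htw _ hb)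
        fun y hy => ?_
      change y ∈ gen (hg T (Z.prod X)) at hy
      rw [gen_two] at hy
      obtain ⟨p, hp, rfl⟩ := hy
      rw [LinearMap.trace_mul_comm]
      exact h0 p hp
    exact two_inj hZ hX b hb h1
  have hτ : ∀ a b : EH T (Z.prod X), LinearMap.trace T.W.K (T.W.H (Z.prod X)) (a * b) =
      LinearMap.trace T.W.K (T.W.H (Z.prod X)) (b * a) :=
    fun a b => LinearMap.trace_mul_comm T.W.K a b
  obtain ⟨s, hsP, hs, heq⟩ := exists_adj hPL _ hτ (two_isLieMap T.W Z X) hnd
  -- the morphism of Hodge structures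
  let eZ : T.W.H (Z.prod Z) ≃ₗ[T.W.K] EH T Z :=
    LinearEquiv.ofBijective (corrL T.W Z Z) (corrL_bijective T.W Z Z)
  let eX : T.W.H (X.prod X) ≃ₗ[T.W.K] EH T X :=
    LinearEquiv.ofBijective (corrL T.W X X) (corrL_bijective T.W X X)
  have heZ : ∀ l v, eZ (hg T (Z.prod Z) l v) = hg T Z l * eZ v - eZ v * hg T Z l := by
    intro l v
    apply LinearMap.ext
    intro x
    exact corr_hg l v x
  have heX : ∀ l v, eX (hg T (X.prod X) l v) = hg T X l * eX v - eX v * hg T X l := by
    intro l v
    apply LinearMap.ext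
    intro x
    exact corr_hg l v x
  let S : EH T Z →ₗ[T.W.K] EH T X := LinearMap.snd T.W.K _ _ ∘ₗ s
  have hSl : ∀ l a, S (hg T Z l * a - a * hg T Z l) = hg T X l * S a - S a * hg T X l := by
    intro l a
    have h1 := heq _ (gen_mem ((hg T Z).prod (hg T X)) l) a
    exact congrArg Prod.snd h1
  let Sh : T.W.H (Z.prod Z) →ₗ[T.W.K] T.W.H (X.prod X) :=
    eX.symm.toLinearMap ∘ₗ S ∘ₗ eZ.toLinearMap
  have hSh : ∀ v, eX (Sh v) = S (eZ v) := fun v => eX.apply_symm_apply _
  have hop1 : Sh ∈ (AH.hodgeSys T).Op (Z.prod Z) (X.prod X) := by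
    refine op_of_mor (mor_of_hg fun l v => ?_)
    apply eX.injective
    rw [hSh, heX, hSh, heZ, hSl]
  obtain ⟨d, hd, hd'⟩ := Sys.mem_Op.1 hop1
  have hker : ∀ a, S a = 0 := by
    intro a
    have h1 : ∀ l, hg T X l * S a = S a * hg T X l := by
      intro l
      obtain ⟨v, rfl⟩ := eZ.surjective a
      have h2 : Sh v ∈ (AH.hodgeSys T).C (X.prod X) := by
        rw [← hd']
        exact corr_prods (hsq hd) v
      have h3 := mem_hodge_iff.1 h2 l
      have h4 := heX l (Sh v)
      rw [h3, map_zero, hSh] at h4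
      exact (sub_eq_zero.1 h4.symm)
    have h2 : S a ∈ gen (hg T X) := snd_gen (hsP a)
    have h3 : S a ∈ cen (gen (hg T X)) := by
      refine ⟨h2, fun y hy => ?_⟩
      let M : Submodule T.W.K (EH T X) :=
        { carrier := {y | S a * y = y * S a}
          zero_mem' := by
            change S a * 0 = 0 * S a
            rw [mul_zero, zero_mul]
          add_mem' := by
            intro y y' hy hy'
            change S a * (y + y') = (y + y') * S a
            rw [mul_add, add_mul, show S a * y = y * S a from hy,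
              show S a * y' = y' * S a from hy']
          smul_mem' := by
            intro r y hy
            change S a * (r • y) = (r • y) * S a
            rw [mul_smul_comm, smul_mul_assoc, show S a * y = y * S a from hy] }
      have hM : gen (hg T X) ≤ M := by
        refine gen_le ?_ fun l => (h1 l).symm
        intro y hy y' hy'
        have k1 : S a * y = y * S a := hy
        have k2 : S a * y' = y' * S a := hy'
        have e1 : S a * (y * y') = (y * y') * S a := by
          rw [← mul_assoc, k1, mul_assoc, k2, mul_assoc]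
        have e2 : S a * (y' * y) = (y' * y) * S a := by
          rw [← mul_assoc, k2, mul_assoc, k1, mul_assoc]
        change S a * (y * y' - y' * y) = (y * y' - y' * y) * S a
        rw [mul_sub, sub_mul, e1, e2]
      exact hM hy
    rw [hcen] at h3
    exact (Submodule.mem_bot _).1 h3
  -- the first factor
  have hfirst : ∀ y ∈ gen (hg T Z), ((y, 0) : EH T Z × EH T X) ∈ P := by
    intro y hy
    have h1 : ((s y).1, (0 : EH T X)) = s y := Prod.ext rfl (hker y).symm
    have h2 : (s y).1 - y = 0 := by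
      obtain ⟨Q, hQ⟩ := exists_pol hT Z
      obtain ⟨l, hl⟩ := exists_lev T Z
      obtain ⟨e, he⟩ := exists_dec hl.nod
      refine trace_nondeg hc hQ he (self_ideal (gen_isLie (hg T Z)))
        (Submodule.sub_mem _ (fst_gen (hsP y)) hy) fun y₁ hy₁ => ?_
      obtain ⟨p, hp, rfl⟩ := lift_fst (g' := hg T X) hy₁
      have h3 := hs y p hp
      rw [← h1, ← sub_eq_zero, ← map_sub, ← mul_sub, ← map_sub] at h3
      have h4 : (((s y).1, (0 : EH T X)) - (y, 0) : EH T Z × EH T X) = ((s y).1 - y, 0) :=
        Prod.ext rfl (sub_zero _)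
      rw [h4] at h3
      change LinearMap.trace T.W.K _ (two T.W Z X (p.1, p.2) * _) = 0 at h3
      rw [trace_two, trace_gen hT (snd_gen hp), mul_zero, add_zero] at h3
      rw [LinearMap.trace_mul_comm]
      exact (mul_eq_zero.1 h3).resolve_left (Nat.cast_ne_zero.2 finrank_pos.ne')
    rw [sub_eq_zero] at h2
    have h5 := hsP y
    rw [← h1, h2] at h5
    exact h5
  intro x hx
  obtain ⟨p, hp, rfl⟩ := lift_snd (g := hg T Z) hx
  have h1 := Submodule.sub_mem _ hp (hfirst p.1 (fst_gen hp))
  have h2 : p - (p.1, 0) = (0, p.2) := Prod.ext (sub_self _) (sub_zero _)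
  rw [h2] at h1
  exact h1

end AH

end Pool.Agent.Q219.HD
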