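import Pool.Agent.Q219.HG.Gal
import Pool.Agent.Q219.HG.Exp
import Pool.Agent.Q50.BL.Pol

/-!
# The trace of the product of the Hodge operator and a polynomial of a commuting operator
-/

set_option linter.unusedSectionVars false

open TensorProduct

namespace Pool.Agent.Q219.HD

open Module Polynomial
open Pool.Agent.Q50.BL

section

variable {M : Type*} [AddCommGroup M] [Module ℂ M] [FiniteDimensional ℂ M]

theorem aeval_restrict {g : Module.End ℂ M} {N : Submodule ℂ M} (hN : ∀ x ∈ N, g x ∈ N)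
    (P : ℂ[X]) (x : N) : ((aeval (g.restrict hN) P x : N) : M) = aeval g P x := by
  induction P using Polynomial.induction_on with
  | C a =>
    rw [aeval_C, aeval_C, Module.algebraMap_end_apply, Module.algebraMap_end_apply]
    rfl
  | add p q hp hq =>
    rw [map_add, map_add, LinearMap.add_apply, LinearMap.add_apply, ← hp, ← hq]
    rfl
  | monomial n a ih =>
    have h1 : (C a * X ^ (n + 1) : ℂ[X]) = X * (C a * X ^ n) := by ring
    rw [h1, map_mul (aeval g), map_mul (aeval (g.restrict hN)), aeval_X, aeval_X,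
      Module.End.mul_apply, Module.End.mul_apply, ← ih]
    rfl

theorem commute_aeval {f g : Module.End ℂ M} (hc : Commute f g) (P : ℂ[X]) :
    Commute (aeval f P) g := by
  induction P using Polynomial.induction_on with
  | C a =>
    rw [aeval_C]
    exact Algebra.commute_algebraMap_left a g
  | add p q hp hq =>
    rw [map_add]
    exact hp.add_left hq
  | monomial n a ih =>
    rw [pow_succ, ← mul_assoc, map_mul, aeval_X]
    exact ih.mul_left hc

theorem trace_int {g : Module.End ℂ M} {l : ℕ} (hg : aeval g (nod ℂ l) = 0) :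
    ∃ n : ℤ, LinearMap.trace ℂ M g = (n : ℂ) := by
  classical
  obtain ⟨e, he⟩ := exists_dec hg
  have hf : ⊤ ≤ Submodule.span ℂ {x : M | ∃ m : ℤ, g x = (m : ℂ) • x} := by
    intro x _
    have h1 : x = ∑ j ∈ ivl l, e j x := by
      conv_lhs => rw [← Module.End.one_apply (R := ℂ) x, ← he.sum, LinearMap.sum_apply]
    rw [h1]
    refine Submodule.sum_mem _ fun j hj => Submodule.subset_span ⟨j, ?_⟩
    rw [← Module.End.mul_apply, he.left j hj, LinearMap.smul_apply]
  let b := Basis.ofSpan hf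
  have hb : ∀ i, ∃ m : ℤ, g (b i) = (m : ℂ) • b i := fun i =>
    Basis.ofSpan_subset hf ⟨i, rfl⟩
  choose m hm using hb
  have : Fintype _ := FiniteDimensional.fintypeBasisIndex b
  refine ⟨∑ i, m i, ?_⟩
  rw [LinearMap.trace_eq_matrix_trace ℂ b, Matrix.trace]
  push_cast
  refine Finset.sum_congr rfl fun i _ => ?_
  rw [Matrix.diag_apply, LinearMap.toMatrix_apply, hm, map_smul, Finsupp.smul_apply,
    Basis.repr_self, Finsupp.single_eq_same, smul_eq_mul, mul_one]

/-- The trace of the product of an operator with integral eigenvalues and a polynomial of a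
commuting operator. -/
theorem trace_poly {f g : Module.End ℂ M} {l : ℕ} (hg : aeval g (nod ℂ l) = 0)
    (hc : Commute f g) : ∃ (s : Finset ℂ) (n : ℂ → ℤ), (∀ μ ∈ s, f.HasEigenvalue μ) ∧
      ∀ P : ℂ[X], LinearMap.trace ℂ M (g * aeval f P) = ∑ μ ∈ s, P.eval μ * (n μ : ℂ) := by
  classical
  have hf : ⨆ μ, f.maxGenEigenspace μ = ⊤ := Module.End.iSup_maxGenEigenspace_eq_top f
  have hds := DirectSum.isInternal_submodule_of_iSupIndep_of_iSup_eq_top
    f.independent_maxGenEigenspace hf
  have h_fin : {μ | f.maxGenEigenspace μ ≠ ⊥}.Finite :=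
    WellFoundedGT.finite_ne_bot_of_iSupIndep f.independent_maxGenEigenspace
  have hgm : ∀ μ, ∀ x ∈ f.maxGenEigenspace μ, g x ∈ f.maxGenEigenspace μ := fun μ =>
    f.mapsTo_maxGenEigenspace_of_comm hc μ
  have hint : ∀ μ, ∃ n : ℤ, LinearMap.trace ℂ _ (g.restrict (hgm μ)) = (n : ℂ) := by
    intro μ
    refine trace_int (l := l) (LinearMap.ext fun x => Subtype.ext ?_)
    rw [aeval_restrict, hg]
    rfl
  choose n hn using hint
  refine ⟨h_fin.toFinset, n, ?_, fun P => ?_⟩
  · intro μ hμ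
    have h1 : f.maxGenEigenspace μ ≠ ⊥ := (Set.Finite.mem_toFinset h_fin).1 hμ
    exact (Module.End.hasUnifEigenvalue_iff_hasUnifEigenvalue_one (k := ⊤) (by simp)).1 h1
  · have hP : Commute f (aeval f P) := (commute_aeval (Commute.refl f) P).symm
    have hPm : ∀ μ, ∀ x ∈ f.maxGenEigenspace μ, aeval f P x ∈ f.maxGenEigenspace μ := fun μ =>
      f.mapsTo_maxGenEigenspace_of_comm hP μ
    have hfm : ∀ μ, ∀ x ∈ f.maxGenEigenspace μ, f x ∈ f.maxGenEigenspace μ := fun μ =>
      f.mapsTo_maxGenEigenspace_of_comm rfl μ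
    have hgP : ∀ μ, Set.MapsTo (g * aeval f P) (f.maxGenEigenspace μ) (f.maxGenEigenspace μ) :=
      fun μ x hx => hgm μ _ (hPm μ x hx)
    rw [LinearMap.trace_eq_sum_trace_restrict' hds h_fin hgP]
    refine Finset.sum_congr rfl fun μ _ => ?_
    have h3 : (g * aeval f P).restrict (hgP μ) = g.restrict (hgm μ) ∘ₗ
        (aeval f P).restrict (hPm μ) := rfl
    have h4 : Commute (g.restrict (hgm μ)) ((aeval f P).restrict (hPm μ)) :=
      LinearMap.restrict_commute (commute_aeval hc P).symm _ _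
    have h5 : IsNilpotent ((aeval f P).restrict (hPm μ) - algebraMap ℂ _ (P.eval μ)) := by
      have h6 : (aeval f P).restrict (hPm μ) = aeval (f.restrict (hfm μ)) P :=
        LinearMap.ext fun x => Subtype.ext (aeval_restrict (hfm μ) P x).symm
      have h7 : P - C (P.eval μ) = (X - C μ) * ((P - C (P.eval μ)) /ₘ (X - C μ)) := by
        refine (mul_divByMonic_eq_iff_isRoot.2 ?_).symm
        simp
      have h8 : (aeval f P).restrict (hPm μ) - algebraMap ℂ _ (P.eval μ) =
          (f.restrict (hfm μ) - algebraMap ℂ _ μ) *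
            aeval (f.restrict (hfm μ)) ((P - C (P.eval μ)) /ₘ (X - C μ)) := by
        have h9 := congrArg (aeval (f.restrict (hfm μ))) h7
        rw [map_sub, aeval_C, map_mul, map_sub, aeval_X, aeval_C] at h9
        rw [h6, h9]
      rw [h8]
      refine Commute.isNilpotent_mul_right ?_
        (f.isNilpotent_restrict_maxGenEigenspace_sub_algebraMap μ)
      refine (commute_aeval ?_ _).symm
      exact (Commute.refl _).sub_right (Algebra.commute_algebraMap_right μ _)
    rw [h3, LinearMap.trace_comp_eq_mul_of_commute_of_isNilpotent (P.eval μ) h4 h5, hn]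

end

section Rat

variable {K : Type*} [Field K] [CharZero K] [Algebra K ℂ] {V : Type*} [AddCommGroup V]
  [Module K V] [FiniteDimensional K V]

theorem baseChange_aeval (b : Module.End K V) (Q : K[X]) :
    ((aeval b Q).baseChange ℂ : Module.End ℂ (ℂ ⊗[K] V)) =
      aeval (b.baseChange ℂ : Module.End ℂ (ℂ ⊗[K] V)) (Q.map (algebraMap K ℂ)) := by
  induction Q using Polynomial.induction_on with
  | C a =>
    rw [map_C, aeval_C, aeval_C, Algebra.algebraMap_eq_smul_one, Algebra.algebraMap_eq_smul_one,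
      LinearMap.baseChange_smul, algebraMap_smul]
    congr 1
    exact LinearMap.baseChange_id
  | add p q hp hq =>
    rw [Polynomial.map_add, map_add, map_add, LinearMap.baseChange_add, hp, hq]
  | monomial n a ih =>
    have h1 : (C a * X ^ (n + 1) : K[X]) = X * (C a * X ^ n) := by ring
    rw [h1, Polynomial.map_mul, map_mul (aeval b), map_mul (aeval (b.baseChange ℂ)), map_X,
      aeval_X, aeval_X, ← ih]
    exact LinearMap.baseChange_comp (A := ℂ) _ _

/-- A finite Galois extension which contains the roots of a polynomial. -/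
theorem exists_field {F : K[X]} (hF0 : F ≠ 0) : ∃ L : IntermediateField K ℂ,
    FiniteDimensional K L ∧ IsGalois K L ∧ ∀ μ : ℂ, aeval μ F = 0 → μ ∈ L := by
  have hspl : (F.map (algebraMap K ℂ)).Splits := IsAlgClosed.splits _
  have hsp : F.IsSplittingField K (IntermediateField.adjoin K (F.rootSet ℂ)) :=
    IntermediateField.adjoin_rootSet_isSplittingField hspl
  have hfd : FiniteDimensional K (IntermediateField.adjoin K (F.rootSet ℂ)) :=
    IsSplittingField.finiteDimensional _ F
  have hnor : Normal K (IntermediateField.adjoin K (F.rootSet ℂ)) :=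
    Normal.of_isSplittingField F
  exact ⟨IntermediateField.adjoin K (F.rootSet ℂ), hfd, ⟨⟩, fun μ hμ =>
    IntermediateField.subset_adjoin K _ (mem_rootSet.2 ⟨hF0, hμ⟩)⟩

/-- **The components of a relation.** -/
theorem exists_component' {L : IntermediateField K ℂ} [FiniteDimensional K L] [IsGalois K L]
    {h : Module.End ℂ (ℂ ⊗[K] V)} {l : ℕ} (hh : aeval h (nod ℂ l) = 0)
    {b : Module.End K V} (hb : Commute (b.baseChange ℂ : Module.End ℂ (ℂ ⊗[K] V)) h)
    (hL : ∀ μ : ℂ, aeval μ b.charpoly = 0 → μ ∈ L) {π : L →ₗ[K] L}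
    (hπ : ∀ (σ : L ≃ₐ[K] L) (x : L), σ (π x) = π (σ x)) : ∃ (w : L) (Q : K[X]),
      LinearMap.trace ℂ (ℂ ⊗[K] V) (h * b.baseChange ℂ) = (w : ℂ) ∧
      LinearMap.trace ℂ (ℂ ⊗[K] V) (h * (aeval b Q).baseChange ℂ) = ((π w : L) : ℂ) := by
  classical
  obtain ⟨s, n, hs, hP⟩ := trace_poly hh hb
  have hrs : ∀ μ ∈ s, aeval μ b.charpoly = 0 := by
    intro μ hμ
    have h1 : (LinearMap.charpoly (b.baseChange ℂ)).IsRoot μ :=
      (Module.End.hasEigenvalue_iff_isRoot_charpoly _ _).1 (hs μ hμ)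
    rw [LinearMap.charpoly_baseChange, IsRoot, eval_map_algebraMap] at h1
    exact h1
  have hsL : ∀ μ ∈ s, μ ∈ L := fun μ hμ => hL μ (hrs μ hμ)
  obtain ⟨Q, hQ⟩ := exists_interp (K := K) (L := L)
    (s := (b.charpoly.aroots L).toFinset) (π := π) (fun σ x hx => by
      rw [Multiset.mem_toFinset, mem_aroots] at hx ⊢
      refine ⟨hx.1, ?_⟩
      have h1 : aeval (σ x) b.charpoly = σ (aeval x b.charpoly) :=
        Polynomial.aeval_algHom_apply σ x _
      rw [h1, hx.2, map_zero]) hπ
  have h1 : ∀ μ ∈ s, ∃ y : L, (y : ℂ) = μ ∧ (Q.map (algebraMap K ℂ)).eval μ = (π y : L) := by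
    intro μ hμ
    refine ⟨⟨μ, hsL μ hμ⟩, rfl, ?_⟩
    rw [← hQ ⟨μ, hsL μ hμ⟩, eval_map_algebraMap]
    · exact (Polynomial.aeval_algebraMap_apply ℂ (⟨μ, hsL μ hμ⟩ : L) Q)
    · rw [Multiset.mem_toFinset, mem_aroots]
      refine ⟨b.charpoly_monic.ne_zero, Subtype.ext ?_⟩
      have h2 := Polynomial.aeval_algebraMap_apply ℂ (⟨μ, hsL μ hμ⟩ : L) b.charpoly
      exact h2.symm.trans (hrs μ hμ)
  choose! y hy1 hy2 using h1
  have hsm : ∀ (r : K) (x : L), ((r • x : L) : ℂ) = algebraMap K ℂ r * (x : ℂ) := fun r x => by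
    rw [Algebra.smul_def]
    rfl
  refine ⟨∑ μ ∈ s, (n μ : K) • y μ, Q, ?_, ?_⟩
  · have h4 := hP X
    rw [aeval_X] at h4
    rw [h4, AddSubmonoidClass.coe_finsetSum]
    refine Finset.sum_congr rfl fun μ hμ => ?_
    rw [hsm, hy1 μ hμ, map_intCast, eval_X, mul_comm]
  · rw [baseChange_aeval, hP, map_sum, AddSubmonoidClass.coe_finsetSum]
    refine Finset.sum_congr rfl fun μ hμ => ?_
    rw [map_smul, hsm, hy2 μ hμ, map_intCast, mul_comm]

theorem exists_component {L : IntermediateField K ℂ} [FiniteDimensional K L] [IsGalois K L]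
    {h : Module.End ℂ (ℂ ⊗[K] V)} {l : ℕ} (hh : aeval h (nod ℂ l) = 0)
    {b : Module.End K V} (hb : Commute (b.baseChange ℂ : Module.End ℂ (ℂ ⊗[K] V)) h)
    (hL : ∀ μ : ℂ, aeval μ b.charpoly = 0 → μ ∈ L) {z : L} (hz0 : z ≠ 0)
    (hz2 : ∃ a : K, z * z = algebraMap K L a) : ∃ (w : L) (Q : K[X]),
      LinearMap.trace ℂ (ℂ ⊗[K] V) (h * b.baseChange ℂ) = (w : ℂ) ∧
      LinearMap.trace ℂ (ℂ ⊗[K] V) (h * (aeval b Q).baseChange ℂ) =
        ((prj (K := K) z w : L) : ℂ) :=
  exists_component' hh hb hL fun σ x => prj_gal hz0 hz2 σ x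

end Rat

end Pool.Agent.Q219.HD
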